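import Pool.Agent.W854.DY.Defs
import Pool.Agent.Helper41.Exist

/-! # Existence of the pair of noises -/

set_option autoImplicit false

open MeasureTheory ProbabilityTheory Filter Topology Set
open scoped NNReal ENNReal

namespace Pool.Agent.W854.DY

/-- primitives as time changes -/
noncomputable def tc (g : ℝ → ℝ) (x : ℝ≥0) : ℝ≥0 := (∫ z in (0 : ℝ)..x, g z).toNNReal

theorem tc_mono (g : ℝ → ℝ) (hg : Continuous g) (h0 : ∀ z, 0 ≤ z → 0 ≤ g z) :
    Monotone (tc g) := by
  intro x y hxy
  apply Real.toNNReal_le_toNNReal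
  have h1 : (x : ℝ) ≤ y := by exact_mod_cast hxy
  rw [← intervalIntegral.integral_add_adjacent_intervals (hg.intervalIntegrable 0 x)
    (hg.intervalIntegrable x y)]
  have : 0 ≤ ∫ z in (x : ℝ)..y, g z :=
    intervalIntegral.integral_nonneg h1 fun u hu => h0 u (x.coe_nonneg.trans hu.1)
  linarith

theorem tc_cont (g : ℝ → ℝ) (hg : Continuous g) : Continuous (tc g) := by
  have h : Continuous fun y : ℝ => ∫ z in (0 : ℝ)..y, g z :=
    intervalIntegral.continuous_primitive (fun a b => hg.intervalIntegrable a b) 0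
  exact continuous_real_toNNReal.comp (h.comp NNReal.continuous_coe)

theorem tc_coe (g : ℝ → ℝ) (h0 : ∀ z, 0 ≤ z → 0 ≤ g z) (x : ℝ≥0) :
    (tc g x : ℝ) = ∫ z in (0 : ℝ)..x, g z :=
  Real.coe_toNNReal _ (intervalIntegral.integral_nonneg x.coe_nonneg fun u hu => h0 u hu.1)

theorem exists_noisePair (c : ℝ → ℝ) (hc : Continuous c) (hc1 : ∀ z, 0 ≤ z → |c z| ≤ 1) :
    ∃ (Ω : Type) (_ : MeasurableSpace Ω) (P : Measure Ω) (_ : IsProbabilityMeasure P)
      (B : Fin 2 → ℝ≥0 → Ω → ℝ), IsNoisePair c P B := by
  obtain ⟨Ω, mΩ, P, hP, X, hX, hcX⟩ := Pool.Agent.Helper41.exists_sheet 4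
  -- the three time changes
  let g : Fin 3 → ℝ → ℝ := ![fun z => max (c z) 0, fun z => max (-c z) 0, fun z => 1 - |c z|]
  have hgc : ∀ r, Continuous (g r) := by
    intro r
    fin_cases r
    · exact hc.max continuous_const
    · exact hc.neg.max continuous_const
    · exact continuous_const.sub hc.abs
  have hg0 : ∀ r z, 0 ≤ z → 0 ≤ g r z := by
    intro r z hz
    fin_cases r
    · exact le_max_right _ _
    · exact le_max_right _ _
    · exact sub_nonneg.2 (hc1 z hz)
  have hmean : ∀ q, ∫ ω, X q ω ∂P = 0 := fun q => hX.char.mean hX.meas q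
  have hK : ∀ p q, ∫ ω, X p ω * X q ω ∂P = Pool.Agent.Helper41.sheetK p q := by
    intro p q
    have h1 := hX.cov p q
    rw [covariance_eq_sub (hX.memLp p) (hX.memLp q)] at h1
    have e1 : P[X p * X q] = ∫ ω, X p ω * X q ω ∂P := rfl
    have e2 : P[X p] = 0 := hmean p
    rw [e1, e2, zero_mul, sub_zero] at h1
    exact h1
  -- labels and signs
  let lab : Fin 3 → Fin 2 → Fin 4 := ![fun _ => 0, fun _ => 1, fun i => ![2, 3] i]
  let s : Fin 3 → Fin 2 → ℝ := ![fun _ => 1, fun i => ![1, -1] i, fun _ => 1]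
  let p : Fin 3 → Fin 2 → ℝ≥0 → Fin 4 × ℝ≥0 × ℝ≥0 := fun r i x => (lab r i, tc (g r) x, 1)
  have ip : ∀ p q, Integrable (fun ω => X p ω * X q ω) P := fun p q =>
    (hX.memLp p).integrable_mul (hX.memLp q)
  have hKp : ∀ r q i j x y, Pool.Agent.Helper41.sheetK (p r i x) (p q j y) =
      if lab r i = lab q j then ((min (tc (g r) x) (tc (g q) y) : ℝ≥0) : ℝ) else 0 := by
    intro r q i j x y
    simp [Pool.Agent.Helper41.sheetK, p]
  have hmin : ∀ r x y, ((min (tc (g r) x) (tc (g r) y) : ℝ≥0) : ℝ) =
      ∫ z in (0 : ℝ)..(min x y : ℝ≥0), g r z := by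
    intro r x y
    rw [← (tc_mono (g r) (hgc r) (hg0 r)).map_min, tc_coe (g r) (hg0 r)]
  refine ⟨Ω, mΩ, P, hP, fun i x ω => ∑ r, s r i * X (p r i x) ω, ?_, ?_, ?_, ?_, ?_⟩
  · intro i x
    exact Finset.measurable_fun_sum _ fun r _ => (hX.meas _).const_mul _
  · intro i ω
    refine continuous_finsetSum _ fun r _ => continuous_const.mul ?_
    exact (hcX ω (lab r i)).comp ((tc_cont (g r) (hgc r)).prodMk continuous_const)
  · classical
    refine hX.gauss.of_isGaussianProcess fun q => ?_
    let J : Finset (Fin 4 × ℝ≥0 × ℝ≥0) := Finset.univ.image fun r => p r q.1 q.2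
    refine ⟨J, ∑ r, s r q.1 • ContinuousLinearMap.proj (R := ℝ) (φ := fun _ : J => ℝ)
      ⟨p r q.1 q.2, Finset.mem_image.2 ⟨r, Finset.mem_univ _, rfl⟩⟩, ?_⟩
    intro ω
    simp
  · intro i x
    rw [integral_finsetSum _ fun r _ => ((hX.memLp _).integrable (by norm_num)).const_mul _]
    simp_rw [integral_const_mul, hmean]
    simp
  · intro i j x y
    have h1 : ∫ ω, (∑ r, s r i * X (p r i x) ω) * (∑ q, s q j * X (p q j y) ω) ∂P =
        ∑ r, ∑ q, s r i * s q j * ∫ ω, X (p r i x) ω * X (p q j y) ω ∂P := by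
      simp_rw [Finset.sum_mul_sum]
      rw [integral_finsetSum]
      · refine Finset.sum_congr rfl fun r _ => ?_
        rw [integral_finsetSum]
        · refine Finset.sum_congr rfl fun q _ => ?_
          rw [← integral_const_mul]
          refine integral_congr_ae (Eventually.of_forall fun ω => ?_)
          simp only; ring
        · intro q _
          refine ((ip (p r i x) (p q j y)).const_mul (s r i * s q j)).congr
            (Eventually.of_forall fun ω => ?_)
          simp only; ring
      · intro r _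
        refine integrable_finsetSum _ fun q _ => ?_
        refine ((ip (p r i x) (p q j y)).const_mul (s r i * s q j)).congr
          (Eventually.of_forall fun ω => ?_)
        simp only; ring
    rw [h1]
    simp_rw [hK, hKp]
    set w : ℝ≥0 := min x y with hw
    have ii0 : IntervalIntegrable (g 0) volume 0 (w : ℝ) := (hgc 0).intervalIntegrable _ _
    have ii1 : IntervalIntegrable (g 1) volume 0 (w : ℝ) := (hgc 1).intervalIntegrable _ _
    have ii2 : IntervalIntegrable (g 2) volume 0 (w : ℝ) := (hgc 2).intervalIntegrable _ _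
    have hsum : (∫ z in (0 : ℝ)..w, g 0 z) + (∫ z in (0 : ℝ)..w, g 1 z) +
        (∫ z in (0 : ℝ)..w, g 2 z) = w := by
      rw [← intervalIntegral.integral_add ii0 ii1,
        ← intervalIntegral.integral_add (ii0.add ii1) ii2]
      have e : ∀ z, g 0 z + g 1 z + g 2 z = 1 := by
        intro z
        change max (c z) 0 + max (-c z) 0 + (1 - |c z|) = 1
        rcases le_total 0 (c z) with h | h
        · rw [max_eq_left h, max_eq_right (by linarith), abs_of_nonneg h]; ring
        · rw [max_eq_right h, max_eq_left (by linarith), abs_of_nonpos h]; ring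
      simp [e]
    have hdif : (∫ z in (0 : ℝ)..w, g 0 z) - (∫ z in (0 : ℝ)..w, g 1 z) =
        ∫ z in (0 : ℝ)..w, c z := by
      rw [← intervalIntegral.integral_sub ii0 ii1]
      have e : ∀ z, g 0 z - g 1 z = c z := by
        intro z
        change max (c z) 0 - max (-c z) 0 = c z
        rcases le_total 0 (c z) with h | h
        · rw [max_eq_left h, max_eq_right (by linarith)]; ring
        · rw [max_eq_right h, max_eq_left (by linarith)]; ring
      simp [e]
    have m0 := hmin 0 x y
    have m1 := hmin 1 x y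
    have m2 := hmin 2 x y
    rw [← hw] at m0 m1 m2
    fin_cases i <;> fin_cases j
    · simp only [Fin.sum_univ_three, s, lab, Fin.zero_eta, Matrix.cons_val_zero,
        Matrix.cons_val_one, Matrix.cons_val]
      rw [m0, m1, m2]
      simp
      linarith
    · simp only [Fin.sum_univ_three, s, lab, Fin.zero_eta, Fin.mk_one, Matrix.cons_val_zero,
        Matrix.cons_val_one, Matrix.cons_val]
      rw [m0, m1]
      simp
      linarith
    · simp only [Fin.sum_univ_three, s, lab, Fin.zero_eta, Fin.mk_one, Matrix.cons_val_zero,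
        Matrix.cons_val_one, Matrix.cons_val]
      rw [m0, m1]
      simp
      linarith
    · simp only [Fin.sum_univ_three, s, lab, Fin.mk_one, Matrix.cons_val_zero,
        Matrix.cons_val_one, Matrix.cons_val]
      rw [m0, m1, m2]
      simp
      linarith

end Pool.Agent.W854.DY
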