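import Pool.Agent.W854.DY.Shift

/-! # Reflection of the pair of noises in the Gaussian space -/

set_option autoImplicit false

open MeasureTheory ProbabilityTheory Filter Topology Set
open scoped NNReal ENNReal

namespace Pool.Agent.W854.DY

/-- centered Gaussian processes with the same covariances have the same law -/
theorem gp_law_eq {Ω T : Type*} [MeasurableSpace Ω] {P : Measure Ω} {X Y : T → Ω → ℝ}
    (hX : IsGaussianProcess X P) (hY : IsGaussianProcess Y P)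
    (mX : ∀ t, Measurable (X t)) (mY : ∀ t, Measurable (Y t))
    (iX : ∀ t, ∫ ω, X t ω ∂P = 0) (iY : ∀ t, ∫ ω, Y t ω ∂P = 0)
    (hc : ∀ s t, ∫ ω, X s ω * X t ω ∂P = ∫ ω, Y s ω * Y t ω ∂P) :
    P.map (fun ω t => X t ω) = P.map (fun ω t => Y t ω) := by
  classical
  have hP : IsProbabilityMeasure P := hX.isProbabilityMeasure
  rw [map_eq_iff_forall_finset_map_restrict_eq (measurable_pi_lambda _ mX).aemeasurable
    (measurable_pi_lambda _ mY).aemeasurable]
  intro I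
  have key : ∀ (W : T → Ω → ℝ) (hW : IsGaussianProcess W P) (iW : ∀ t, ∫ ω, W t ω ∂P = 0)
      (L : StrongDual ℝ (I → ℝ)),
      charFunDual (P.map (fun ω => I.restrict (W · ω))) L =
        Complex.exp (-((∑ i, ∑ j, L (Pi.single i 1) * L (Pi.single j 1) *
          ∫ ω, W i ω * W j ω ∂P : ℝ) : ℂ) / 2) := by
    intro W hW iW L
    have hL : ∀ ω, L (I.restrict (W · ω)) = ∑ i : I, L (Pi.single i 1) * W i ω := by
      intro ω
      have := LinearMap.pi_apply_eq_sum_univ L.toLinearMap (I.restrict (W · ω))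
      simp only [ContinuousLinearMap.coe_coe] at this
      rw [this]
      refine Finset.sum_congr rfl fun i _ => ?_
      have e : (fun j => if i = j then (1 : ℝ) else 0) = Pi.single i 1 := by
        funext j
        rw [Pi.single_apply]
        simp [eq_comm]
      rw [smul_eq_mul, mul_comm, e]
      rfl
    have hml : ∀ t, MemLp (W t) 2 P := fun t => (hW.hasGaussianLaw_eval t).memLp_two
    have hint : ∀ t, Integrable (W t) P := fun t => (hW.hasGaussianLaw_eval t).integrable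
    rw [(hW.hasGaussianLaw I).charFunDual_map_eq_fun L]
    have h1 : ∫ ω, L (I.restrict (W · ω)) ∂P = 0 := by
      simp_rw [hL]
      rw [integral_finsetSum _ fun (i : I) _ => (hint i.1).const_mul _]
      simp_rw [integral_const_mul, iW]
      simp
    have h2 : Var[fun ω => L (I.restrict (W · ω)); P] = ∑ i, ∑ j, L (Pi.single i 1) *
        L (Pi.single j 1) * ∫ ω, W i ω * W j ω ∂P := by
      rw [variance_of_integral_eq_zero _ h1]
      · simp_rw [hL, sq, Finset.sum_mul_sum]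
        rw [integral_finsetSum]
        · refine Finset.sum_congr rfl fun i _ => ?_
          rw [integral_finsetSum]
          · refine Finset.sum_congr rfl fun j _ => ?_
            rw [← integral_const_mul]
            refine integral_congr_ae (Eventually.of_forall fun ω => ?_)
            simp only; ring
          · intro j _
            have := ((hml i).integrable_mul (hml j)).const_mul (L (Pi.single i 1) * L (Pi.single j 1))
            refine this.congr (Eventually.of_forall fun ω => ?_)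
            simp only [Pi.mul_apply]; ring
        · intro i _
          refine integrable_finsetSum _ fun j _ => ?_
          have := ((hml i).integrable_mul (hml j)).const_mul (L (Pi.single i 1) * L (Pi.single j 1))
          refine this.congr (Eventually.of_forall fun ω => ?_)
          simp only [Pi.mul_apply]; ring
      · exact ((hW.hasGaussianLaw I).map_fun L).aemeasurable
    rw [h1, h2]
    congr 1
    push_cast
    ring
  have : IsGaussian (P.map (fun ω => I.restrict (X · ω))) := (hX.hasGaussianLaw I).isGaussian_map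
  have : IsGaussian (P.map (fun ω => I.restrict (Y · ω))) := (hY.hasGaussianLaw I).isGaussian_map
  apply Measure.ext_of_charFunDual
  ext L
  rw [key X hX iX L, key Y hY iY L]
  simp_rw [hc]

/-- the sign of the reflection -/
def sg (i : Fin 2) : ℝ := if i = 1 then 1 else -1

theorem sg_sq (i : Fin 2) : sg i * sg i = 1 := by
  unfold sg; split_ifs <;> norm_num

section

variable {c : ℝ → ℝ} {δ : ℝ} {x1 : ℝ≥0} {Ω : Type*} [MeasurableSpace Ω] {P : Measure Ω}
  {B : Fin 2 → ℝ≥0 → Ω → ℝ}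

/-- the Gaussian variable of the reflection -/
noncomputable def ZZ (B : Fin 2 → ℝ≥0 → Ω → ℝ) (x1 X : ℝ≥0) (ω : Ω) : ℝ :=
  (B 1 X ω - B 1 x1 ω) - (B 0 X ω - B 0 x1 ω)

/-- the covariance function of the noises -/
noncomputable def cc (c : ℝ → ℝ) (i j : Fin 2) (z : ℝ) : ℝ :=
  ∫ u in (0 : ℝ)..z, (if i = j then 1 else c u)

theorem cc_diag (i : Fin 2) (z : ℝ) : cc c i i z = z := by
  unfold cc; simp

theorem cc_off {i j : Fin 2} (hij : i ≠ j) (z : ℝ) :
    cc c i j z = ∫ u in (0 : ℝ)..z, c u := by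
  unfold cc
  simp [hij]

theorem VV_eq' (hc : Adm c δ x1) (X x : ℝ≥0) : VV c x1 X x =
    ((min (x : ℝ) X) - ∫ u in (0 : ℝ)..(min (x : ℝ) X), c u) -
      (min (x : ℝ) x1 - ∫ u in (0 : ℝ)..(min (x : ℝ) x1), c u) := by
  rw [VV_eq hc]
  have h : ∀ z : ℝ, ∫ u in (0 : ℝ)..z, (1 - c u) = z - ∫ u in (0 : ℝ)..z, c u := by
    intro z
    rw [intervalIntegral.integral_sub (continuous_const.intervalIntegrable _ _)
      (hc.cont.intervalIntegrable _ _)]
    simp
  rw [h, h]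

theorem memLp_B (hB : IsNoisePair c P B) (i : Fin 2) (x : ℝ≥0) : MemLp (B i x) 2 P :=
  (hB.gauss.hasGaussianLaw_eval (i, x)).memLp_two

theorem cov_B (hB : IsNoisePair c P B) (i j : Fin 2) (x y : ℝ≥0) :
    ∫ ω, B i x ω * B j y ω ∂P = cc c i j (min x y : ℝ≥0) := hB.cov i j x y

theorem ii {U V : Ω → ℝ} (hU : MemLp U 2 P) (hV : MemLp V 2 P) :
    Integrable (fun ω => U ω * V ω) P := hU.integrable_mul hV

/-- expansion of a product of differences -/
theorem exp_sub {U U' V : Ω → ℝ} (hU : MemLp U 2 P) (hU' : MemLp U' 2 P) (hV : MemLp V 2 P) :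
    ∫ ω, (U ω - U' ω) * V ω ∂P = ∫ ω, U ω * V ω ∂P - ∫ ω, U' ω * V ω ∂P := by
  rw [← integral_sub (ii hU hV) (ii hU' hV)]
  refine integral_congr_ae (Eventually.of_forall fun ω => ?_)
  simp only; ring

theorem memLp_Z (hB : IsNoisePair c P B) (x1 X : ℝ≥0) : MemLp (ZZ B x1 X) 2 P :=
  ((memLp_B hB 1 X).sub (memLp_B hB 1 x1)).sub ((memLp_B hB 0 X).sub (memLp_B hB 0 x1))

theorem cov_Z_B (hc : Adm c δ x1) (hB : IsNoisePair c P B) (X : ℝ≥0) (i : Fin 2) (x : ℝ≥0) :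
    ∫ ω, ZZ B x1 X ω * B i x ω ∂P = sg i * VV c x1 X x := by
  have h1 : ∫ ω, ZZ B x1 X ω * B i x ω ∂P =
      (∫ ω, B 1 X ω * B i x ω ∂P - ∫ ω, B 1 x1 ω * B i x ω ∂P) -
      (∫ ω, B 0 X ω * B i x ω ∂P - ∫ ω, B 0 x1 ω * B i x ω ∂P) := by
    have e1 := exp_sub (memLp_B hB 1 X) (memLp_B hB 1 x1) (memLp_B hB i x)
    have e0 := exp_sub (memLp_B hB 0 X) (memLp_B hB 0 x1) (memLp_B hB i x)
    have e := exp_sub ((memLp_B hB 1 X).sub (memLp_B hB 1 x1))
      ((memLp_B hB 0 X).sub (memLp_B hB 0 x1)) (memLp_B hB i x)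
    simp only [Pi.sub_apply] at e
    rw [← e1, ← e0, ← e]
    rfl
  rw [h1, cov_B hB, cov_B hB, cov_B hB, cov_B hB, VV_eq' hc X x]
  have m1 : ((min X x : ℝ≥0) : ℝ) = min (x : ℝ) X := by rw [NNReal.coe_min, min_comm]
  have m2 : ((min x1 x : ℝ≥0) : ℝ) = min (x : ℝ) x1 := by rw [NNReal.coe_min, min_comm]
  rw [m1, m2]
  fin_cases i
  · simp only [Fin.zero_eta]
    rw [cc_off (show (1 : Fin 2) ≠ 0 by decide), cc_off (show (1 : Fin 2) ≠ 0 by decide),
      cc_diag, cc_diag]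
    simp only [sg]
    norm_num
    ring
  · simp only [Fin.mk_one]
    rw [cc_diag, cc_diag, cc_off (show (0 : Fin 2) ≠ 1 by decide),
      cc_off (show (0 : Fin 2) ≠ 1 by decide)]
    simp only [sg]
    norm_num
    ring

theorem VV_one (c : ℝ → ℝ) {x1 X : ℝ≥0} (hX : x1 ≤ X) : VV c x1 X x1 = 0 := by
  have : (x1 : ℝ) ≤ X := by exact_mod_cast hX
  unfold VV
  simp [min_eq_left this]

theorem var_Z (hc : Adm c δ x1) (hB : IsNoisePair c P B) {X : ℝ≥0} (hX : x1 ≤ X) :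
    ∫ ω, ZZ B x1 X ω * ZZ B x1 X ω ∂P = 2 * VV c x1 X X := by
  have hZ := memLp_Z hB x1 X
  have e1 := exp_sub (memLp_B hB 1 X) (memLp_B hB 1 x1) hZ
  have e0 := exp_sub (memLp_B hB 0 X) (memLp_B hB 0 x1) hZ
  have e := exp_sub ((memLp_B hB 1 X).sub (memLp_B hB 1 x1))
      ((memLp_B hB 0 X).sub (memLp_B hB 0 x1)) hZ
  simp only [Pi.sub_apply] at e
  have h1 : ∫ ω, ZZ B x1 X ω * ZZ B x1 X ω ∂P =
      (∫ ω, B 1 X ω * ZZ B x1 X ω ∂P - ∫ ω, B 1 x1 ω * ZZ B x1 X ω ∂P) -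
      (∫ ω, B 0 X ω * ZZ B x1 X ω ∂P - ∫ ω, B 0 x1 ω * ZZ B x1 X ω ∂P) := by
    rw [← e1, ← e0, ← e]
    rfl
  have hcomm : ∀ i x, ∫ ω, B i x ω * ZZ B x1 X ω ∂P = sg i * VV c x1 X x := by
    intro i x
    rw [← cov_Z_B hc hB X i x]
    refine integral_congr_ae (Eventually.of_forall fun ω => ?_)
    simp only; ring
  rw [h1, hcomm, hcomm, hcomm, hcomm, VV_one c hX]
  simp only [sg]
  norm_num
  ring

theorem mean_Z (hB : IsNoisePair c P B) (x1 X : ℝ≥0) : ∫ ω, ZZ B x1 X ω ∂P = 0 := by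
  have hi : ∀ i x, Integrable (B i x) P := fun i x =>
    (hB.gauss.hasGaussianLaw_eval (i, x)).integrable
  have h : ∫ ω, ZZ B x1 X ω ∂P = (∫ ω, B 1 X ω ∂P - ∫ ω, B 1 x1 ω ∂P) -
      (∫ ω, B 0 X ω ∂P - ∫ ω, B 0 x1 ω ∂P) := by
    rw [← integral_sub (hi 1 X) (hi 1 x1), ← integral_sub (hi 0 X) (hi 0 x1),
      ← integral_sub (f := fun ω => B 1 X ω - B 1 x1 ω) (g := fun ω => B 0 X ω - B 0 x1 ω)
        ((hi 1 X).sub (hi 1 x1)) ((hi 0 X).sub (hi 0 x1))]
    rfl
  rw [h]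
  simp [hB.mean]

/-- the reflected noises -/
noncomputable def Bm (c : ℝ → ℝ) (B : Fin 2 → ℝ≥0 → Ω → ℝ) (x1 X : ℝ≥0) (i : Fin 2) (x : ℝ≥0)
    (ω : Ω) : ℝ := B i x ω - sg i * (VV c x1 X x / VV c x1 X X) * ZZ B x1 X ω

theorem cov_Bm (hc : Adm c δ x1) (hB : IsNoisePair c P B) {X : ℝ≥0} (hX : x1 ≤ X)
    (hv : 0 < VV c x1 X X) (i j : Fin 2) (x y : ℝ≥0) :
    ∫ ω, Bm c B x1 X i x ω * Bm c B x1 X j y ω ∂P = ∫ ω, B i x ω * B j y ω ∂P := by
  have hZ := memLp_Z hB x1 X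
  set a := sg i * (VV c x1 X x / VV c x1 X X) with ha
  set b := sg j * (VV c x1 X y / VV c x1 X X) with hb
  have i1 := ii (memLp_B hB i x) (memLp_B hB j y)
  have i2 := ii hZ (memLp_B hB i x)
  have i3 := ii hZ (memLp_B hB j y)
  have i4 := ii hZ hZ
  have h1 : ∫ ω, Bm c B x1 X i x ω * Bm c B x1 X j y ω ∂P =
      ∫ ω, B i x ω * B j y ω ∂P - b * ∫ ω, ZZ B x1 X ω * B i x ω ∂P -
        a * ∫ ω, ZZ B x1 X ω * B j y ω ∂P + a * b * ∫ ω, ZZ B x1 X ω * ZZ B x1 X ω ∂P := by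
    rw [← integral_const_mul, ← integral_const_mul, ← integral_const_mul,
      ← integral_sub i1 (i2.const_mul b),
      ← integral_sub (f := fun ω => B i x ω * B j y ω - b * (ZZ B x1 X ω * B i x ω))
        (i1.sub (i2.const_mul b)) (i3.const_mul a),
      ← integral_add (f := fun ω => B i x ω * B j y ω - b * (ZZ B x1 X ω * B i x ω) -
        a * (ZZ B x1 X ω * B j y ω)) ((i1.sub (i2.const_mul b)).sub (i3.const_mul a))
        (i4.const_mul (a * b))]
    refine integral_congr_ae (Eventually.of_forall fun ω => ?_)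
    simp only [Bm, ← ha, ← hb]
    ring
  rw [h1, cov_Z_B hc hB, cov_Z_B hc hB, var_Z hc hB hX, ha, hb]
  field_simp
  ring

theorem mean_Bm (hB : IsNoisePair c P B) (x1 X : ℝ≥0) (i : Fin 2) (x : ℝ≥0) :
    ∫ ω, Bm c B x1 X i x ω ∂P = 0 := by
  have hi : Integrable (B i x) P := (hB.gauss.hasGaussianLaw_eval (i, x)).integrable
  have hP : IsProbabilityMeasure P := hB.gauss.isProbabilityMeasure
  have hZ : Integrable (ZZ B x1 X) P := (memLp_Z hB x1 X).integrable (by norm_num)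
  unfold Bm
  rw [integral_sub hi (hZ.const_mul _), integral_const_mul, mean_Z hB, hB.mean]
  simp

theorem gauss_Bm (hB : IsNoisePair c P B) (x1 X : ℝ≥0) :
    IsGaussianProcess (fun p : Fin 2 × ℝ≥0 => Bm c B x1 X p.1 p.2) P := by
  classical
  refine hB.gauss.of_isGaussianProcess fun s => ?_
  let J : Finset (Fin 2 × ℝ≥0) := {s, (1, X), (1, x1), (0, X), (0, x1)}
  refine ⟨J, ContinuousLinearMap.proj (R := ℝ) (φ := fun _ : J => ℝ) ⟨s, by simp [J]⟩ -
    (sg s.1 * (VV c x1 X s.2 / VV c x1 X X)) •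
      ((ContinuousLinearMap.proj (R := ℝ) (φ := fun _ : J => ℝ) ⟨(1, X), by simp [J]⟩ -
        ContinuousLinearMap.proj (R := ℝ) (φ := fun _ : J => ℝ) ⟨(1, x1), by simp [J]⟩) -
      (ContinuousLinearMap.proj (R := ℝ) (φ := fun _ : J => ℝ) ⟨(0, X), by simp [J]⟩ -
        ContinuousLinearMap.proj (R := ℝ) (φ := fun _ : J => ℝ) ⟨(0, x1), by simp [J]⟩)), ?_⟩
  intro ω
  simp [Bm, ZZ]

theorem gauss_Z (hB : IsNoisePair c P B) (x1 X : ℝ≥0) : HasGaussianLaw (ZZ B x1 X) P := by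
  classical
  let J : Finset (Fin 2 × ℝ≥0) := {(1, X), (1, x1), (0, X), (0, x1)}
  have h := (hB.gauss.hasGaussianLaw J).map_fun
    ((ContinuousLinearMap.proj (R := ℝ) (φ := fun _ : J => ℝ) ⟨(1, X), by simp [J]⟩ -
        ContinuousLinearMap.proj (R := ℝ) (φ := fun _ : J => ℝ) ⟨(1, x1), by simp [J]⟩) -
      (ContinuousLinearMap.proj (R := ℝ) (φ := fun _ : J => ℝ) ⟨(0, X), by simp [J]⟩ -
        ContinuousLinearMap.proj (R := ℝ) (φ := fun _ : J => ℝ) ⟨(0, x1), by simp [J]⟩))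
  exact h

theorem meas_Z (hB : IsNoisePair c P B) (x1 X : ℝ≥0) : Measurable (ZZ B x1 X) :=
  ((hB.meas 1 X).sub (hB.meas 1 x1)).sub ((hB.meas 0 X).sub (hB.meas 0 x1))

theorem meas_Bm (hB : IsNoisePair c P B) (x1 X : ℝ≥0) (i : Fin 2) (x : ℝ≥0) :
    Measurable (Bm c B x1 X i x) :=
  (hB.meas i x).sub ((meas_Z hB x1 X).const_mul _)

/-- **the reflected pair has the same law** -/
theorem law_eq (hc : Adm c δ x1) (hB : IsNoisePair c P B) {X : ℝ≥0} (hX : x1 ≤ X)
    (hv : 0 < VV c x1 X X) :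
    P.map (fun ω (p : Fin 2 × ℝ≥0) => B p.1 p.2 ω) =
      P.map (fun ω (p : Fin 2 × ℝ≥0) => Bm c B x1 X p.1 p.2 ω) :=
  gp_law_eq hB.gauss (gauss_Bm hB x1 X) (fun p => hB.meas p.1 p.2)
    (fun p => meas_Bm hB x1 X p.1 p.2)
    (fun p => hB.mean p.1 p.2) (fun p => mean_Bm hB x1 X p.1 p.2)
    (fun p q => (cov_Bm hc hB hX hv p.1 q.1 p.2 q.2).symm)

theorem law_Z (hc : Adm c δ x1) (hB : IsNoisePair c P B) {X : ℝ≥0} (hX : x1 ≤ X) :
    P.map (ZZ B x1 X) = gaussianReal 0 (2 * VV c x1 X X).toNNReal := by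
  rw [(gauss_Z hB x1 X).map_eq_gaussianReal, mean_Z hB x1 X,
    variance_of_integral_eq_zero (meas_Z hB x1 X).aemeasurable (mean_Z hB x1 X),
    ← var_Z hc hB hX]
  simp_rw [sq]

/-- each of the two noises is a Brownian motion -/
theorem bm_B (hB : IsNoisePair c P B) (i : Fin 2) : IsPreBrownianReal (B i) P := by
  have h1 : IsGaussianProcess (B i) P :=
    hB.gauss.comp_right (fun x : ℝ≥0 => ((i, x) : Fin 2 × ℝ≥0))
  refine h1.isPreBrownianReal_of_covariance (fun x => hB.mean i x) ?_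
  intro s u hsu
  have hP : IsProbabilityMeasure P := hB.gauss.isProbabilityMeasure
  rw [covariance_eq_sub (memLp_B hB i s) (memLp_B hB i u)]
  have e1 : P[B i s * B i u] = ∫ ω, B i s ω * B i u ω ∂P := rfl
  have e2 : P[B i s] = 0 := hB.mean i s
  rw [e1, e2, cov_B hB, cc_diag, min_eq_left hsu]
  simp

end

/-- anti-concentration -/
theorem anti (w : ℝ≥0) (hw : w ≠ 0) :
    gaussianReal 0 w {x : ℝ | |x| < √(w : ℝ) / 8} ≤ ENNReal.ofReal (1 / 4) := by
  have hw' : (0 : ℝ) < w := lt_of_le_of_ne w.2 (fun h => hw (by ext; exact h.symm))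
  have hs : 0 < √(w : ℝ) := Real.sqrt_pos.2 hw'
  rw [gaussianReal_apply_eq_integral 0 hw]
  apply ENNReal.ofReal_le_ofReal
  have e : {x : ℝ | |x| < √(w : ℝ) / 8} = Ioo (-(√(w : ℝ) / 8)) (√(w : ℝ) / 8) := by
    ext x; simp [abs_lt]
  rw [e]
  have hpdf : ∀ x, gaussianPDFReal 0 w x ≤ (√(w : ℝ))⁻¹ := by
    intro x
    rw [gaussianPDFReal]
    have h1 : Real.exp (-(x - 0) ^ 2 / (2 * (w : ℝ))) ≤ 1 := by
      apply Real.exp_le_one_iff.2
      have : 0 ≤ (x - 0) ^ 2 / (2 * (w : ℝ)) := by positivity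
      rw [neg_div]; linarith
    have h2 : √(w : ℝ) ≤ √(2 * Real.pi * w) := by
      apply Real.sqrt_le_sqrt
      nlinarith [Real.pi_gt_three]
    calc (√(2 * Real.pi * w))⁻¹ * Real.exp (-(x - 0) ^ 2 / (2 * (w : ℝ))) ≤
          (√(2 * Real.pi * w))⁻¹ * 1 := by gcongr
      _ ≤ (√(w : ℝ))⁻¹ := by
          rw [mul_one]
          exact inv_anti₀ hs h2
  have h3 : ∫ x in Ioo (-(√(w : ℝ) / 8)) (√(w : ℝ) / 8), gaussianPDFReal 0 w x ≤
      ∫ _ in Ioo (-(√(w : ℝ) / 8)) (√(w : ℝ) / 8), (√(w : ℝ))⁻¹ := by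
    apply setIntegral_mono_on (integrable_gaussianPDFReal 0 w).integrableOn
    · simp
    · exact measurableSet_Ioo
    · intro x _; exact hpdf x
  refine h3.trans (le_of_eq ?_)
  rw [setIntegral_const, smul_eq_mul, Measure.real, Real.volume_Ioo,
    ENNReal.toReal_ofReal (by linarith)]
  field_simp
  ring

end Pool.Agent.W854.DY
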