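import Pool.Agent.W854.DY.Good

/-! # The oscillation of Brownian paths -/

set_option autoImplicit false

open MeasureTheory ProbabilityTheory Filter Topology Set
open scoped NNReal ENNReal

namespace Pool.Agent.W854.DY

/-! ## dyadic chaining -/

theorem chain {g : ℝ → ℝ} (A r : ℝ) (hA : 0 ≤ A) (hr0 : 0 ≤ r)
    (h : ∀ m j : ℕ, j < 2 ^ m → |g (((j + 1 : ℕ) : ℝ) / 2 ^ m) - g ((j : ℝ) / 2 ^ m)| ≤ A * r ^ m) :
    ∀ m j : ℕ, j ≤ 2 ^ m → |g ((j : ℝ) / 2 ^ m) - g 0| ≤ A * ∑ l ∈ Finset.range (m + 1), r ^ l := by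
  intro m
  induction m with
  | zero =>
    intro j hj
    have hj' : j = 0 ∨ j = 1 := by omega
    rcases hj' with rfl | rfl
    · simp; exact hA
    · have := h 0 0 (by norm_num)
      simpa using this
  | succ m ih =>
    intro j hj
    have hmono : A * ∑ l ∈ Finset.range (m + 1), r ^ l + A * r ^ (m + 1) =
        A * ∑ l ∈ Finset.range (m + 1 + 1), r ^ l := by
      rw [Finset.sum_range_succ _ (m + 1)]; ring
    have hp : 0 ≤ A * r ^ (m + 1) := by positivity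
    rcases Nat.even_or_odd' j with ⟨i, rfl | rfl⟩
    · have e : ((2 * i : ℕ) : ℝ) / 2 ^ (m + 1) = (i : ℝ) / 2 ^ m := by
        push_cast; rw [pow_succ]; field_simp
      rw [e, ← hmono]
      have := ih i (by rw [pow_succ] at hj; omega)
      linarith
    · have hi : i < 2 ^ m := by rw [pow_succ] at hj; omega
      have e : ((2 * i : ℕ) : ℝ) / 2 ^ (m + 1) = (i : ℝ) / 2 ^ m := by
        push_cast; rw [pow_succ]; field_simp
      have h1 := h (m + 1) (2 * i) (by rw [pow_succ]; omega)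
      rw [e] at h1
      have h2 := ih i hi.le
      rw [← hmono]
      calc |g (((2 * i + 1 : ℕ) : ℝ) / 2 ^ (m + 1)) - g 0| ≤
          |g (((2 * i + 1 : ℕ) : ℝ) / 2 ^ (m + 1)) - g ((i : ℝ) / 2 ^ m)| +
            |g ((i : ℝ) / 2 ^ m) - g 0| := by
            have := abs_add_le (g (((2 * i + 1 : ℕ) : ℝ) / 2 ^ (m + 1)) - g ((i : ℝ) / 2 ^ m))
              (g ((i : ℝ) / 2 ^ m) - g 0)
            simpa using this
        _ ≤ _ := by linarith

theorem chain_all {g : ℝ → ℝ} (hg : Continuous g) (A r : ℝ) (hA : 0 ≤ A) (hr0 : 0 ≤ r) (hr1 : r < 1)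
    (h : ∀ m j : ℕ, j < 2 ^ m → |g (((j + 1 : ℕ) : ℝ) / 2 ^ m) - g ((j : ℝ) / 2 ^ m)| ≤ A * r ^ m)
    (x : ℝ) (hx0 : 0 ≤ x) (hx1 : x ≤ 1) : |g x - g 0| ≤ A / (1 - r) := by
  have hsum : ∀ m : ℕ, ∑ l ∈ Finset.range (m + 1), r ^ l ≤ 1 / (1 - r) := by
    intro m
    rw [one_div]
    have := Summable.sum_le_tsum (Finset.range (m + 1)) (fun i _ => pow_nonneg hr0 i)
      (summable_geometric_of_lt_one hr0 hr1)
    rwa [tsum_geometric_of_lt_one hr0 hr1] at this
  have hm : ∀ m : ℕ, |g ((⌊x * 2 ^ m⌋₊ : ℝ) / 2 ^ m) - g 0| ≤ A / (1 - r) := by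
    intro m
    have hle : ⌊x * 2 ^ m⌋₊ ≤ 2 ^ m := by
      have : x * 2 ^ m ≤ ((2 ^ m : ℕ) : ℝ) := by
        push_cast
        have : (0 : ℝ) < 2 ^ m := by positivity
        nlinarith
      exact Nat.floor_le_of_le this
    refine (chain A r hA hr0 h m _ hle).trans ?_
    rw [div_eq_mul_one_div]
    exact mul_le_mul_of_nonneg_left (hsum m) hA
  have hlim : Tendsto (fun m : ℕ => (⌊x * 2 ^ m⌋₊ : ℝ) / 2 ^ m) atTop (𝓝 x) := by
    have h2 : Tendsto (fun m : ℕ => ((2 : ℝ) ^ m)) atTop atTop :=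
      tendsto_pow_atTop_atTop_of_one_lt (by norm_num)
    exact (tendsto_nat_floor_mul_div_atTop hx0).comp h2
  have hlim2 : Tendsto (fun m : ℕ => |g ((⌊x * 2 ^ m⌋₊ : ℝ) / 2 ^ m) - g 0|) atTop
      (𝓝 |g x - g 0|) :=
    (((hg.tendsto x).comp hlim).sub_const _).abs
  exact le_of_tendsto hlim2 (Eventually.of_forall hm)

/-! ## Gaussian tails -/

/-- the fourth moment of the standard Gaussian law -/
noncomputable def K4 : ℝ≥0∞ := ∫⁻ x, ENNReal.ofReal (x ^ 4) ∂(gaussianReal 0 1)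

theorem K4_lt_top : K4 < ∞ := by
  have h : MemLp id 4 (gaussianReal 0 1) := memLp_id_gaussianReal' 4 (by norm_num)
  have h1 : Integrable (fun x : ℝ => ‖id x‖ ^ 4) (gaussianReal 0 1) := by
    have := h.integrable_norm_pow (p := 4) (by norm_num)
    simpa using this
  have h2 : Integrable (fun x : ℝ => x ^ 4) (gaussianReal 0 1) := by
    refine h1.congr (Eventually.of_forall fun x => ?_)
    simp only [id, Real.norm_eq_abs]
    rw [show (4 : ℕ) = 2 * 2 by norm_num, pow_mul, sq_abs, ← pow_mul]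
  unfold K4
  rw [← ofReal_integral_eq_lintegral_ofReal h2 (Eventually.of_forall fun x => by positivity)]
  exact ENNReal.ofReal_lt_top

theorem fourth (v : ℝ≥0) : ∫⁻ x, ENNReal.ofReal (x ^ 4) ∂(gaussianReal 0 v) =
    ENNReal.ofReal ((v : ℝ) ^ 2) * K4 := by
  have h := gaussianReal_map_const_mul (μ := 0) (v := 1) (√(v : ℝ))
  have e : (NNReal.mk (√(v : ℝ) ^ 2) (sq_nonneg _)) * 1 = v := by
    ext
    simp
  rw [mul_zero, e] at h
  have hm : Measurable fun x : ℝ => √(v : ℝ) * x := by fun_prop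
  rw [← h, lintegral_map (by fun_prop) hm]
  have e2 : ∀ x : ℝ, ENNReal.ofReal ((√(v : ℝ) * x) ^ 4) =
      ENNReal.ofReal ((v : ℝ) ^ 2) * ENNReal.ofReal (x ^ 4) := by
    intro x
    rw [← ENNReal.ofReal_mul (by positivity)]
    congr 1
    rw [mul_pow, show (4 : ℕ) = 2 * 2 by norm_num, pow_mul (√(v : ℝ)), Real.sq_sqrt v.coe_nonneg]
  simp_rw [e2]
  rw [lintegral_const_mul _ (by fun_prop)]
  rfl

theorem tail {Ω : Type*} [MeasurableSpace Ω] {P : Measure Ω} {Y : Ω → ℝ} {v : ℝ≥0}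
    (hY : HasLaw Y (gaussianReal 0 v) P) (a : ℝ) (ha : 0 < a) :
    P {ω | a < |Y ω|} ≤ ENNReal.ofReal ((v : ℝ) ^ 2 / a ^ 4) * K4 := by
  have h1 : P {ω | a < |Y ω|} = gaussianReal 0 v {x | a < |x|} := by
    have hms : MeasurableSet {x : ℝ | a < |x|} := measurableSet_lt measurable_const measurable_abs
    rw [← hY.map_eq, Measure.map_apply_of_aemeasurable hY.aemeasurable hms]
    rfl
  rw [h1]
  have h2 : gaussianReal 0 v {x : ℝ | a < |x|} ≤
      gaussianReal 0 v {x : ℝ | ENNReal.ofReal (a ^ 4) ≤ ENNReal.ofReal (x ^ 4)} := by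
    apply measure_mono
    intro x hx
    have hx' : a < |x| := hx
    apply ENNReal.ofReal_le_ofReal
    have : x ^ 4 = |x| ^ 4 := by
      rw [show (4 : ℕ) = 2 * 2 by norm_num, pow_mul, pow_mul, sq_abs]
    rw [this]
    exact pow_le_pow_left₀ ha.le hx'.le 4
  refine h2.trans ?_
  have h3 := meas_ge_le_lintegral_div (μ := gaussianReal 0 v)
    (f := fun x : ℝ => ENNReal.ofReal (x ^ 4)) (by fun_prop) (ε := ENNReal.ofReal (a ^ 4))
    (by simp; positivity) ENNReal.ofReal_ne_top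
  refine h3.trans (le_of_eq ?_)
  rw [fourth, ENNReal.ofReal_div_of_pos (by positivity), ENNReal.mul_div_right_comm]

/-! ## the bad events -/

/-- the base of the thresholds -/
noncomputable def rr : ℝ := 11 / 12

/-- the ratio of the geometric series -/
noncomputable def q0 : ℝ := 1 / (2 * rr ^ 4)

theorem q0_pos : 0 < q0 := by unfold q0 rr; positivity

theorem q0_lt : q0 < 1 := by unfold q0 rr; norm_num

/-- the bad event for the interval `[i, i+1]` -/
def bad {Ω : Type*} (B : ℝ≥0 → Ω → ℝ) (A : ℝ) (i : ℕ) : Set Ω :=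
  ⋃ m : ℕ, ⋃ j ∈ Finset.range (2 ^ m), {ω | A * rr ^ m <
    |(B ((i : ℝ≥0) + ((j + 1 : ℕ) : ℝ≥0) / 2 ^ m) - B ((i : ℝ≥0) + (j : ℝ≥0) / 2 ^ m)) ω|}

theorem bad_le {Ω : Type*} [MeasurableSpace Ω] {P : Measure Ω} {B : ℝ≥0 → Ω → ℝ}
    (hB : IsPreBrownianReal B P) (A : ℝ) (hA : 0 < A) (i : ℕ) :
    P (bad B A i) ≤ ENNReal.ofReal (1 / A ^ 4) * (ENNReal.ofReal (1 - q0)⁻¹ * K4) := by
  have hr : 0 < rr := by unfold rr; norm_num
  have h1 : ∀ m : ℕ, P (⋃ j ∈ Finset.range (2 ^ m), {ω | A * rr ^ m <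
      |(B ((i : ℝ≥0) + ((j + 1 : ℕ) : ℝ≥0) / 2 ^ m) - B ((i : ℝ≥0) + (j : ℝ≥0) / 2 ^ m)) ω|}) ≤
      ENNReal.ofReal (1 / A ^ 4) * (ENNReal.ofReal (q0 ^ m) * K4) := by
    intro m
    refine (measure_biUnion_finset_le _ _).trans ?_
    have h2 : ∀ j ∈ Finset.range (2 ^ m), P {ω | A * rr ^ m <
      |(B ((i : ℝ≥0) + ((j + 1 : ℕ) : ℝ≥0) / 2 ^ m) - B ((i : ℝ≥0) + (j : ℝ≥0) / 2 ^ m)) ω|} ≤
      ENNReal.ofReal (((2 : ℝ) ^ m)⁻¹ ^ 2 / (A * rr ^ m) ^ 4) * K4 := by
      intro j _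
      have hl := hB.hasLaw_sub ((i : ℝ≥0) + ((j + 1 : ℕ) : ℝ≥0) / 2 ^ m)
        ((i : ℝ≥0) + (j : ℝ≥0) / 2 ^ m)
      have h3 := tail hl (A * rr ^ m) (by positivity)
      have e : ((nndist ((i : ℝ≥0) + ((j + 1 : ℕ) : ℝ≥0) / 2 ^ m).1
          ((i : ℝ≥0) + (j : ℝ≥0) / 2 ^ m).1 : ℝ≥0) : ℝ) = ((2 : ℝ) ^ m)⁻¹ := by
        rw [coe_nndist, Real.dist_eq]
        have e1 : ((i : ℝ≥0) + ((j + 1 : ℕ) : ℝ≥0) / 2 ^ m).1 -
            ((i : ℝ≥0) + (j : ℝ≥0) / 2 ^ m).1 = ((2 : ℝ) ^ m)⁻¹ := by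
          simp only [NNReal.val_eq_coe]
          push_cast
          field_simp
          ring
        rw [e1, abs_of_pos (by positivity)]
      rw [e] at h3
      exact h3
    refine (Finset.sum_le_sum h2).trans (le_of_eq ?_)
    rw [Finset.sum_const, Finset.card_range, nsmul_eq_mul, ← mul_assoc, ← mul_assoc]
    congr 1
    rw [← ENNReal.ofReal_natCast, ← ENNReal.ofReal_mul (by positivity),
      ← ENNReal.ofReal_mul (by positivity)]
    congr 1
    unfold q0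
    push_cast
    rw [div_pow, mul_pow, mul_pow]
    field_simp
    ring
  unfold bad
  refine (measure_iUnion_le _).trans ?_
  refine (ENNReal.tsum_le_tsum h1).trans (le_of_eq ?_)
  rw [ENNReal.tsum_mul_left, ENNReal.tsum_mul_right]
  congr 2
  rw [← ENNReal.ofReal_tsum_of_nonneg (fun n => pow_nonneg q0_pos.le n)
    (summable_geometric_of_lt_one q0_pos.le q0_lt), tsum_geometric_of_lt_one q0_pos.le q0_lt]

theorem osc_of_not_bad {Ω : Type*} {B : ℝ≥0 → Ω → ℝ} {A : ℝ} (hA : 0 ≤ A) {i : ℕ} {ω : Ω}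
    (hc : Continuous fun x => B x ω) (h : ω ∉ bad B A i) (x : ℝ≥0) (h0 : (i : ℝ≥0) ≤ x)
    (h1 : x ≤ i + 1) : |B x ω - B i ω| ≤ 12 * A := by
  have hg : Continuous fun s : ℝ => B ((i : ℝ≥0) + s.toNNReal) ω :=
    hc.comp (continuous_const.add continuous_real_toNNReal)
  have hnn : ∀ (a : ℕ) (m : ℕ), ((a : ℝ) / 2 ^ m).toNNReal = (a : ℝ≥0) / 2 ^ m := by
    intro a m
    rw [← NNReal.coe_inj, Real.coe_toNNReal _ (by positivity)]
    push_cast; rfl
  have h2 := chain_all hg A rr hA (by unfold rr; norm_num) (by unfold rr; norm_num) (by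
    intro m j hj
    simp only [hnn]
    unfold bad at h
    simp only [mem_iUnion, not_exists] at h
    have := h m j (Finset.mem_range.2 hj)
    simp only [mem_ofPred_eq, not_lt] at this
    exact this) ((x : ℝ) - i) (by
      have : ((i : ℝ≥0) : ℝ) ≤ x := by exact_mod_cast h0
      simpa using this) (by
      have : (x : ℝ) ≤ ((i + 1 : ℝ≥0) : ℝ) := by exact_mod_cast h1
      push_cast at this; linarith)
  have e1 : (i : ℝ≥0) + ((x : ℝ) - i).toNNReal = x := by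
    rw [← NNReal.coe_inj]
    push_cast
    rw [Real.coe_toNNReal]
    · ring
    · have : ((i : ℝ≥0) : ℝ) ≤ x := by exact_mod_cast h0
      simpa using this
  have e2 : A / (1 - rr) = 12 * A := by unfold rr; field_simp; ring
  simp only [e1, Real.toNNReal_zero, add_zero] at h2
  rw [e2] at h2
  exact h2

/-- the thresholds -/
noncomputable def thr (K i : ℕ) : ℝ := √(((i + K : ℕ) : ℝ) / 23328)

theorem good_of_not_bad {Ω : Type*} {B : ℝ≥0 → Ω → ℝ} {K : ℕ} {ω : Ω}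
    (hc : Continuous fun x => B x ω) (h : ∀ i, ω ∉ bad B (thr K i) i) :
    Good ((K + 1) / 18) (fun x => B x ω) := by
  intro x y hxy hyx
  set i := ⌊(x : ℝ≥0)⌋₊ with hi
  have hix : (i : ℝ≥0) ≤ x := Nat.floor_le zero_le
  have hxi : x < i + 1 := Nat.lt_floor_add_one x
  have hthr : ∀ i, 0 ≤ thr K i := fun i => Real.sqrt_nonneg _
  have hmono : thr K i ≤ thr K (i + 1) := by
    unfold thr
    apply Real.sqrt_le_sqrt
    push_cast
    gcongr
    linarith
  have h1 := osc_of_not_bad (hthr i) hc (h i) x hix hxi.le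
  have h2 : |B y ω - B i ω| ≤ 12 * thr K i + 12 * thr K (i + 1) := by
    rcases le_total y (i + 1) with hy | hy
    · have h3 := osc_of_not_bad (hthr i) hc (h i) y (hix.trans hxy) hy
      have := hthr (i + 1)
      linarith
    · have h3 := osc_of_not_bad (hthr i) hc (h i) (i + 1) (by simp) le_rfl
      have h4 := osc_of_not_bad (hthr (i + 1)) hc (h (i + 1)) y (by push_cast; exact hy) (by
        push_cast
        calc y ≤ x + 1 := hyx
          _ ≤ (i + 1) + 1 := by gcongr)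
      have e : ((i + 1 : ℕ) : ℝ≥0) = (i : ℝ≥0) + 1 := by push_cast; rfl
      rw [e] at h4
      have := abs_add_le (B y ω - B (i + 1) ω) (B (i + 1) ω - B i ω)
      have e2 : B y ω - B (i + 1) ω + (B (i + 1) ω - B i ω) = B y ω - B i ω := by ring
      rw [e2] at this
      linarith
  have h3 : |B y ω - B x ω| ≤ 36 * thr K (i + 1) := by
    have := abs_sub (B y ω - B i ω) (B x ω - B i ω)
    have e2 : B y ω - B i ω - (B x ω - B i ω) = B y ω - B x ω := by ring
    rw [e2] at this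
    linarith
  calc (B y ω - B x ω) ^ 2 = |B y ω - B x ω| ^ 2 := (sq_abs _).symm
    _ ≤ (36 * thr K (i + 1)) ^ 2 := pow_le_pow_left₀ (abs_nonneg _) h3 2
    _ = 1296 * (((i + 1 + K : ℕ) : ℝ) / 23328) := by
        unfold thr
        rw [mul_pow, Real.sq_sqrt (by positivity)]; norm_num
    _ ≤ _ := by
        have : ((i : ℝ≥0) : ℝ) ≤ x := by exact_mod_cast hix
        push_cast at this ⊢
        linarith

/-- **the good event has probability close to one, uniformly** -/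
theorem good_prob (δ : ℝ≥0∞) (hδ : δ ≠ 0) : ∃ C : ℝ, 0 ≤ C ∧
    ∀ {Ω : Type*} [MeasurableSpace Ω] (P : Measure Ω) (B : ℝ≥0 → Ω → ℝ),
      IsPreBrownianReal B P → (∀ ω, Continuous fun x => B x ω) →
      P {ω | ¬ Good C (fun x => B x ω)} ≤ δ := by
  set c : ℝ≥0∞ := ENNReal.ofReal (1 - q0)⁻¹ * K4 with hc
  have hcf : c ≠ ∞ := ENNReal.mul_ne_top ENNReal.ofReal_ne_top K4_lt_top.ne
  let F : ℕ → ℝ≥0∞ := fun i => ENNReal.ofReal (23328 ^ 2 / (i : ℝ) ^ 2) * c
  have hF : ∑' i, F i ≠ ∞ := by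
    simp only [F]
    rw [ENNReal.tsum_mul_right]
    refine ENNReal.mul_ne_top ?_ hcf
    have hs : Summable fun i : ℕ => (23328 ^ 2 / (i : ℝ) ^ 2 : ℝ) := by
      have := (Real.summable_one_div_nat_pow (p := 2)).2 (by norm_num)
      have := this.mul_left (23328 ^ 2)
      refine this.congr fun i => ?_
      ring
    rw [← ENNReal.ofReal_tsum_of_nonneg (fun i => by positivity) hs]
    exact ENNReal.ofReal_ne_top
  have hlim := ENNReal.tendsto_sum_nat_add F hF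
  have hev : ∀ᶠ K in atTop, ∑' k, F (k + K) < δ := hlim.eventually_lt_const (pos_iff_ne_zero.2 hδ)
  obtain ⟨K, hK, hK1⟩ := (hev.and (eventually_ge_atTop 1)).exists
  refine ⟨(K + 1) / 18, by positivity, ?_⟩
  intro Ω _ P B hB hcont
  have hsub : {ω | ¬ Good ((K + 1) / 18) (fun x => B x ω)} ⊆ ⋃ i, bad B (thr K i) i := by
    intro ω hω
    by_contra h
    simp only [mem_iUnion, not_exists] at h
    exact hω (good_of_not_bad (hcont ω) h)
  refine (measure_mono hsub).trans ((measure_iUnion_le _).trans ?_)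
  refine le_trans (ENNReal.tsum_le_tsum fun i => ?_) hK.le
  have hpos : 0 < thr K i := by
    unfold thr
    apply Real.sqrt_pos.2
    have : (0 : ℝ) < ((i + K : ℕ) : ℝ) := by exact_mod_cast (by omega : 0 < i + K)
    positivity
  refine (bad_le hB _ hpos i).trans (le_of_eq ?_)
  simp only [F, hc]
  congr 2
  unfold thr
  rw [show (4 : ℕ) = 2 * 2 by norm_num, pow_mul, Real.sq_sqrt (by positivity)]
  rw [div_pow]
  field_simp

end Pool.Agent.W854.DY
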