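import Pool.Agent.W854.DY.Shift

/-! # Measurability on path space -/

set_option autoImplicit false

open MeasureTheory Filter Topology Set
open scoped NNReal ENNReal

namespace Pool.Agent.W854.DY

/-- evaluation of continuous paths -/
def ev (b : C(ℝ≥0, ℝ)) : ℝ≥0 → ℝ := fun x => b x

theorem mapsTo_meas (K : Set ℝ≥0) (hK : IsCompact K) (U : Set ℝ) (hU : IsOpen U) :
    MeasurableSet[MeasurableSpace.comap ev MeasurableSpace.pi] {b : C(ℝ≥0, ℝ) | MapsTo b K U} := by
  have hsep : TopologicalSpace.IsSeparable K := TopologicalSpace.IsSeparable.of_separableSpace K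
  obtain ⟨D, hDK, hDc, hDd⟩ := hsep.exists_countable_dense_subset
  let F : ℕ → Set ℝ := fun m => (Metric.thickening (1 / ((m : ℝ) + 1)) Uᶜ)ᶜ
  have hF : ∀ m, IsClosed (F m) := fun m => Metric.isOpen_thickening.isClosed_compl
  have hFU : ∀ m, F m ⊆ U := by
    intro m y hy
    by_contra h
    exact hy (Metric.self_subset_thickening (by positivity) _ h)
  have key : {b : C(ℝ≥0, ℝ) | MapsTo b K U} = ⋃ m, ⋂ x ∈ D, ev ⁻¹' {w | w x ∈ F m} := by
    ext b
    simp only [mem_ofPred_eq, mem_iUnion, mem_iInter, mem_preimage, ev]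
    constructor
    · intro h
      have h1 : IsCompact (b '' K) := hK.image b.continuous
      have h2 : b '' K ⊆ U := by rintro _ ⟨x, hx, rfl⟩; exact h hx
      obtain ⟨δ, hδ, hδU⟩ := h1.exists_thickening_subset_open hU h2
      obtain ⟨m, hm⟩ := exists_nat_one_div_lt hδ
      refine ⟨m, fun x hx => ?_⟩
      intro hmem
      obtain ⟨z, hz, hzd⟩ := Metric.mem_thickening_iff.1 hmem
      apply hz
      apply hδU
      rw [Metric.mem_thickening_iff]
      exact ⟨b x, ⟨x, hDK hx, rfl⟩, by rw [dist_comm]; exact hzd.trans hm⟩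
    · rintro ⟨m, hm⟩ x hx
      apply hFU m
      have h1 : closure D ⊆ b ⁻¹' (F m) :=
        closure_minimal (fun y hy => hm y hy) ((hF m).preimage b.continuous)
      exact h1 (hDd hx)
  rw [key]
  let _ : MeasurableSpace C(ℝ≥0, ℝ) := MeasurableSpace.comap ev MeasurableSpace.pi
  have hev : Measurable ev := comap_measurable ev
  refine MeasurableSet.iUnion fun m => MeasurableSet.biInter hDc fun x _ => ?_
  exact hev ((measurable_pi_apply x) (hF m).measurableSet)

theorem borel_le : borel C(ℝ≥0, ℝ) ≤ MeasurableSpace.comap ev MeasurableSpace.pi := by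
  rw [borel_eq_generateFrom_of_subbasis ContinuousMap.compactOpen_eq]
  apply MeasurableSpace.generateFrom_le
  rintro _ ⟨K, hK, U, hU, rfl⟩
  exact mapsTo_meas K hK U hU

/-! ## the extended sum of the lowest eigenvalues -/

/-- the infimum of the traces over orthonormal systems -/
noncomputable def Te (k : ℕ) (b : ℝ≥0 → ℝ) : EReal :=
  ⨅ f : {f : Fin k → ℝ → ℝ // IsON f}, ((∑ i, form b (f.1 i) : ℝ) : EReal)

theorem Te_eq {b : ℝ≥0 → ℝ} (hb : Continuous b) {m : ℝ} (hm : Bd m b) (k : ℕ) :
    Te k b = ((SS b k : ℝ) : EReal) := by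
  obtain ⟨_, _, hbump⟩ := bump_exists
  obtain ⟨f0, hf0, _⟩ := hbump 1 one_pos k
  apply le_antisymm
  · have h : ∀ ε : ℝ, 0 < ε → Te k b ≤ ((SS b k + ε : ℝ) : EReal) := by
      intro ε hε
      obtain ⟨f, hf1, hf2⟩ := eigsum_ge b hb f0 hf0 (ε / (k + 1)) (by positivity)
      have h3 : (k : ℝ) * (ε / (k + 1)) ≤ ε := by
        rw [mul_div_assoc', div_le_iff₀ (by positivity)]
        nlinarith
      refine (iInf_le _ (⟨f, hf1⟩ : {f : Fin k → ℝ → ℝ // IsON f})).trans ?_
      rw [EReal.coe_le_coe_iff]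
      unfold SS
      simp only
      linarith
    refine le_of_forall_gt_imp_ge_of_dense fun c hc => ?_
    induction c with
    | bot => exact absurd hc (by simp)
    | top => exact le_top
    | coe c =>
      have hc' : SS b k < c := by exact_mod_cast hc
      have := h (c - SS b k) (by linarith)
      simpa using this
  · refine le_iInf fun f => ?_
    rw [EReal.coe_le_coe_iff]
    exact eigsum_le b hb m hm f.1 f.2

theorem form_cont {f : ℝ → ℝ} (hf : IsTest f) : Continuous fun b : C(ℝ≥0, ℝ) => form b f := by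
  have hfc := hf.cont
  have hfd := hf.deriv_cont
  rw [continuous_iff_continuousAt]
  intro b0
  -- compact set
  obtain ⟨R, hR⟩ := hf.2.1.isCompact.bddAbove
  have hR' : ∀ x, (R : ℝ) < x → x ∉ tsupport f := fun x hx h => absurd (hR h) (not_le.2 hx)
  set g : ℝ → ℝ := fun x => 2 * (2 * f x * deriv f x) with hg
  have hgc : Continuous g := by fun_prop
  have hgi : Integrable g := intg hf hgc (fun x h _ => by simp [hg, h])
  set I : ℝ := ∫ x in Ioi (0 : ℝ), |g x| with hI
  have hI0 : 0 ≤ I := integral_nonneg fun _ => abs_nonneg _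
  have hdiff : ∀ b : C(ℝ≥0, ℝ), form b f - form b0 f =
      ∫ x in Ioi (0 : ℝ), g x * (b0 x.toNNReal - b x.toNNReal) := by
    intro b
    have hbc := cont_b b.continuous
    have hbc0 := cont_b b0.continuous
    unfold form
    rw [← isub]
    · refine integral_congr_ae (Eventually.of_forall fun x => ?_)
      simp only [hg]; ring
    · exact intg hf (by fun_prop) (fun x h h' => by simp [h, h'])
    · exact intg hf (by fun_prop) (fun x h h' => by simp [h, h'])
  rw [ContinuousAt, Metric.tendsto_nhds]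
  intro ε hε
  have hu := (ContinuousMap.tendsto_iff_forall_isCompact_tendstoUniformlyOn.1
    (tendsto_id (x := 𝓝 b0))) (Icc 0 R.toNNReal) isCompact_Icc
  rw [Metric.tendstoUniformlyOn_iff] at hu
  have hu' := hu (ε / (I + 1)) (by positivity)
  filter_upwards [hu'] with b hb
  rw [Real.dist_eq, hdiff]
  have hb' : ∀ x ∈ Ioi (0 : ℝ), ‖g x * (b0 x.toNNReal - b x.toNNReal)‖ ≤
      |g x| * (ε / (I + 1)) := by
    intro x hx
    rw [norm_mul, Real.norm_eq_abs, Real.norm_eq_abs]
    by_cases hxR : x ≤ R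
    · have hmem : x.toNNReal ∈ Icc 0 R.toNNReal := ⟨zero_le, Real.toNNReal_le_toNNReal hxR⟩
      have := hb x.toNNReal hmem
      rw [Real.dist_eq] at this
      exact mul_le_mul_of_nonneg_left this.le (abs_nonneg _)
    · have : g x = 0 := by
        simp only [hg]
        rw [hf.eq_zero (hR' x (not_le.1 hxR))]; ring
      rw [this]; simp
  have h1 := norm_integral_le_of_norm_le (μ := volume.restrict (Ioi (0 : ℝ)))
    (hgi.abs.mul_const (ε / (I + 1))).integrableOn
    ((ae_restrict_iff' measurableSet_Ioi).2 (Eventually.of_forall hb'))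
  rw [Real.norm_eq_abs, integral_mul_const] at h1
  refine lt_of_le_of_lt h1 ?_
  change I * (ε / (I + 1)) < ε
  rw [mul_div_assoc', div_lt_iff₀ (by positivity)]
  nlinarith

theorem Te_meas (k : ℕ) : Measurable[MeasurableSpace.comap ev MeasurableSpace.pi]
    (fun b : C(ℝ≥0, ℝ) => Te k b) := by
  have h : Measurable[borel C(ℝ≥0, ℝ)] (fun b : C(ℝ≥0, ℝ) => Te k b) := by
    let _ : MeasurableSpace C(ℝ≥0, ℝ) := borel _
    have _ : BorelSpace C(ℝ≥0, ℝ) := ⟨rfl⟩
    apply measurable_of_Iio
    intro a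
    apply IsOpen.measurableSet
    have e : (fun b : C(ℝ≥0, ℝ) => Te k b) ⁻¹' Iio a =
        ⋃ f : {f : Fin k → ℝ → ℝ // IsON f},
          (fun b : C(ℝ≥0, ℝ) => ((∑ i, form b (f.1 i) : ℝ) : EReal)) ⁻¹' Iio a := by
      ext b
      simp only [mem_preimage, mem_Iio, mem_iUnion, Te]
      exact iInf_lt_iff
    rw [e]
    refine isOpen_iUnion fun f => isOpen_Iio.preimage ?_
    exact continuous_coe_real_ereal.comp
      (continuous_finsetSum _ fun i _ => form_cont (f.2.1 i))
  exact h.mono borel_le le_rfl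

/-- the sum of the lowest eigenvalues is a measurable function of the path -/
theorem path_meas (k : ℕ) : ∃ H : (ℝ≥0 → ℝ) → ℝ, Measurable H ∧
    ∀ b : ℝ≥0 → ℝ, Continuous b → (Te k b).toReal = H b := by
  have h : Measurable[MeasurableSpace.comap ev MeasurableSpace.pi]
      (fun b : C(ℝ≥0, ℝ) => (Te k b).toReal) := by
    have := @Measurable.comp _ _ _ (MeasurableSpace.comap ev MeasurableSpace.pi) _ _ _ _
      measurable_ereal_toReal (Te_meas k)
    exact this
  obtain ⟨H, hH, hH2⟩ := Measurable.exists_eq_measurable_comp h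
  exact ⟨H, hH, fun b hb => congrFun hH2 ⟨b, hb⟩⟩

end Pool.Agent.W854.DY
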