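import Pool.Agent.W854.DY.Edge
import Pool.Agent.W854.DY.Osc
import Pool.Agent.W854.DY.Path
import Pool.Agent.W854.DY.Law
import Pool.Agent.W854.DY.Exist

/-! # The rescaled edge process does not converge to the conjectured limit -/

set_option autoImplicit false

open MeasureTheory ProbabilityTheory Filter Topology Set
open scoped NNReal ENNReal

universe u

namespace Pool.Agent.W854.DY

/-! ## almost sure semiboundedness and measurability -/

section

variable {c : ℝ → ℝ} {Ω : Type*} [MeasurableSpace Ω] {P : Measure Ω}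
  {B : Fin 2 → ℝ≥0 → Ω → ℝ}

theorem ae_good (hB : IsNoisePair c P B) (i : Fin 2) :
    ∀ᵐ ω ∂P, ∃ C : ℝ, 0 ≤ C ∧ Good C (fun x => B i x ω) := by
  rw [ae_iff]
  refine le_antisymm ?_ zero_le
  refine ENNReal.le_of_forall_pos_le_add fun ε hε _ => ?_
  obtain ⟨C, hC0, hC⟩ := good_prob (ε : ℝ≥0∞) (by exact_mod_cast hε.ne')
  have h := hC P (B i) (bm_B hB i) (hB.cont i)
  rw [zero_add]
  refine le_trans (measure_mono ?_) h
  intro ω hω hg
  exact hω ⟨C, hC0, hg⟩

theorem ae_Bd (hB : IsNoisePair c P B) (i : Fin 2) :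
    ∀ᵐ ω ∂P, ∃ m : ℝ, Bd m (fun x => B i x ω) := by
  filter_upwards [ae_good hB i] with ω hω
  obtain ⟨C, hC0, hg⟩ := hω
  exact ⟨_, good_Bd (hB.cont i ω) hC0 hg⟩

theorem ae_eigSet (hB : IsNoisePair c P B) : ∀ᵐ ω ∂P, ∀ i j,
    (eigSet (fun x => B i x ω) j).Nonempty ∧ BddBelow (eigSet (fun x => B i x ω) j) := by
  obtain ⟨_, _, hbump⟩ := bump_exists
  filter_upwards [ae_Bd hB 0, ae_Bd hB 1] with ω h0 h1
  have h : ∀ i, ∃ m : ℝ, Bd m (fun x => B i x ω) := by
    intro i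
    fin_cases i
    · exact h0
    · exact h1
  intro i j
  obtain ⟨m, hm⟩ := h i
  obtain ⟨f0, hf0, _⟩ := hbump 1 one_pos (j + 1)
  exact ⟨eigSet_nonempty _ (hB.cont i ω) j f0 hf0, eigSet_bddBelow _ (hB.cont i ω) m hm j⟩

theorem meas_path (hB : IsNoisePair c P B) (i : Fin 2) : Measurable fun ω (x : ℝ≥0) => B i x ω :=
  measurable_pi_lambda _ fun x => hB.meas i x

theorem SS_eq_H {k : ℕ} {H : (ℝ≥0 → ℝ) → ℝ}
    (hH : ∀ b : ℝ≥0 → ℝ, Continuous b → (Te k b).toReal = H b) {b : ℝ≥0 → ℝ} (hb : Continuous b)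
    {m : ℝ} (hm : Bd m b) : SS b k = H b := by
  rw [← hH b hb, Te_eq hb hm, EReal.toReal_coe]

theorem SS_aemeas (hB : IsNoisePair c P B) (i : Fin 2) (k : ℕ) :
    AEMeasurable (fun ω => SS (fun x => B i x ω) k) P := by
  obtain ⟨H, hH1, hH2⟩ := path_meas k
  refine ⟨fun ω => H (fun x => B i x ω), hH1.comp (meas_path hB i), ?_⟩
  filter_upwards [ae_Bd hB i] with ω hω
  obtain ⟨m, hm⟩ := hω
  exact SS_eq_H hH2 (hB.cont i ω) hm

theorem limitVec_aemeas (hB : IsNoisePair c P B) (k : ℕ) : AEMeasurable (limitVec B k) P := by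
  refine aemeasurable_pi_lambda _ fun i => aemeasurable_pi_lambda _ fun j => ?_
  have e : (fun ω => limitVec B k ω i j) =
      fun ω => SS (fun x => B i x ω) (j + 1) - SS (fun x => B i x ω) j := by
    funext ω
    unfold limitVec SS
    rw [Finset.sum_range_succ]; ring
  rw [e]
  exact (SS_aemeas hB i (j + 1)).sub (SS_aemeas hB i j)

omit [MeasurableSpace Ω] in
theorem dd_limitVec (k : ℕ) (ω : Ω) : dd (limitVec B k ω) =
    SS (fun x => B 1 x ω) k - SS (fun x => B 0 x ω) k := by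
  unfold dd limitVec SS
  rw [Fin.sum_univ_eq_sum_range (fun j => eigval (fun x => B 1 x ω) j) k,
    Fin.sum_univ_eq_sum_range (fun j => eigval (fun x => B 0 x ω) j) k]

end

/-! ## the lower bound for the conjectured limit -/

theorem VV_ge {c : ℝ → ℝ} {δ : ℝ} {x1 : ℝ≥0} (hc : Adm c δ x1) {X : ℝ≥0} (hX : x1 < X) :
    δ * (X - x1) ≤ VV c x1 X X := by
  have hX' : (x1 : ℝ) < X := by exact_mod_cast hX
  unfold VV
  rw [min_eq_right hX'.le, min_self]
  calc δ * (X - x1) = ∫ _ in (x1 : ℝ)..X, δ := by simp [mul_comm]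
    _ ≤ _ := by
        apply intervalIntegral.integral_mono_on hX'.le
          (continuous_const.intervalIntegrable _ _) (hc.w_cont.intervalIntegrable _ _)
        intro z hz
        exact hc.gap z hz.1

theorem VV_pos {c : ℝ → ℝ} {δ : ℝ} {x1 : ℝ≥0} (hc : Adm c δ x1) {X : ℝ≥0} (hX : x1 < X) :
    0 < VV c x1 X X := by
  have hX' : (x1 : ℝ) < X := by exact_mod_cast hX
  exact lt_of_lt_of_le (mul_pos hc.dpos (by linarith)) (VV_ge hc hX)

theorem VV_le {c : ℝ → ℝ} {δ : ℝ} {x1 : ℝ≥0} (hc : Adm c δ x1) {X : ℝ≥0} (hX : x1 < X) :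
    VV c x1 X X ≤ 2 * X := by
  have hX' : (x1 : ℝ) < X := by exact_mod_cast hX
  have hx0 : (0 : ℝ) ≤ x1 := x1.coe_nonneg
  unfold VV
  rw [min_eq_right hX'.le, min_self]
  calc ∫ z in (x1 : ℝ)..X, (1 - c z) ≤ ∫ _ in (x1 : ℝ)..X, (2 : ℝ) := by
        apply intervalIntegral.integral_mono_on hX'.le (hc.w_cont.intervalIntegrable _ _)
          (continuous_const.intervalIntegrable _ _)
        intro z hz
        exact hc.w_le (hx0.trans hz.1)
    _ ≤ _ := by
        rw [intervalIntegral.integral_const, smul_eq_mul]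
        linarith

theorem lower_prob (c : ℝ → ℝ) (δ : ℝ) (x1 : ℝ≥0) (hc : Adm c δ x1) :
    ∃ κ : ℝ, 0 < κ ∧ ∃ N1 : ℕ, 1 ≤ N1 ∧ ∀ N : ℕ, N1 ≤ N →
    ∀ {Ω : Type u} [MeasurableSpace Ω] (P : Measure Ω) [IsProbabilityMeasure P]
      (B : Fin 2 → ℝ≥0 → Ω → ℝ), IsNoisePair c P B →
      ENNReal.ofReal (5 / 16) ≤ P {ω | κ * N ^ 2 ≤ |dd (limitVec B (N ^ 3) ω)|} := by
  obtain ⟨C, hC0, hC⟩ := good_prob.{u} (ENNReal.ofReal (1 / 16)) (by simp)
  obtain ⟨M, hM, N0, hN0, hshift⟩ := shift_main C hC0 x1 hc.xpos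
  have hMr : (0 : ℝ) < M := by exact_mod_cast hM
  have hδ := hc.dpos
  set κ : ℝ := δ / (16 * √(2 * M : ℝ)) with hκ
  have hsM : 0 < √(2 * M : ℝ) := Real.sqrt_pos.2 (by positivity)
  refine ⟨κ, by positivity, N0, hN0, ?_⟩
  intro N hNN0 Ω _ P _ B hB
  have hN1 : 1 ≤ N := hN0.trans hNN0
  have hNr : (1 : ℝ) ≤ N := by exact_mod_cast hN1
  obtain ⟨hXx, hsh⟩ := hshift N hNN0
  set X : ℝ≥0 := ((M * N ^ 2 : ℕ) : ℝ≥0) with hX
  have hXr : (X : ℝ) = M * (N : ℝ) ^ 2 := by rw [hX]; push_cast; ring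
  have hX1r : (x1 : ℝ) < X := by rw [hXr]; exact hXx
  have hX1 : x1 < X := by exact_mod_cast hX1r
  set v := VV c x1 X X with hv
  have hv0 : 0 < v := VV_pos hc hX1
  have hvX : v ≤ 2 * X := VV_le hc hX1
  obtain ⟨H, hH1, hH2⟩ := path_meas (N ^ 3)
  set y : ℝ := κ * N ^ 2 with hy
  set A : Set Ω := {ω | y ≤ |H (fun x => B 1 x ω) - H (fun x => B 0 x ω)|} with hA
  set A' : Set Ω := {ω | y ≤ |H (fun x => Bm c B x1 X 1 x ω) - H (fun x => Bm c B x1 X 0 x ω)|}
    with hA'
  -- equality of the probabilities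
  have hAA' : P A = P A' := by
    set S : Set (Fin 2 × ℝ≥0 → ℝ) :=
      {w | y ≤ |H (fun x => w (1, x)) - H (fun x => w (0, x))|} with hS
    have hSm : MeasurableSet S := by
      have h1 : ∀ i : Fin 2, Measurable fun w : Fin 2 × ℝ≥0 → ℝ => H (fun x => w (i, x)) :=
        fun i => hH1.comp (measurable_pi_lambda _ fun x => measurable_pi_apply _)
      exact measurableSet_le measurable_const ((h1 1).sub (h1 0)).abs
    have hl := law_eq hc hB hX1.le hv0
    have m1 : Measurable fun ω (p : Fin 2 × ℝ≥0) => B p.1 p.2 ω :=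
      measurable_pi_lambda _ fun p => hB.meas p.1 p.2
    have m2 : Measurable fun ω (p : Fin 2 × ℝ≥0) => Bm c B x1 X p.1 p.2 ω :=
      measurable_pi_lambda _ fun p => meas_Bm hB x1 X p.1 p.2
    calc P A = P.map (fun ω (p : Fin 2 × ℝ≥0) => B p.1 p.2 ω) S := by
          rw [Measure.map_apply m1 hSm]; rfl
      _ = P.map (fun ω (p : Fin 2 × ℝ≥0) => Bm c B x1 X p.1 p.2 ω) S := by rw [hl]
      _ = P A' := by rw [Measure.map_apply m2 hSm]; rfl
  -- small Z
  have hw0 : (2 * v).toNNReal ≠ 0 := by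
    simp only [ne_eq, Real.toNNReal_eq_zero, not_le]; positivity
  have hZ : P {ω | |ZZ B x1 X ω| < √(2 * v) / 8} ≤ ENNReal.ofReal (1 / 4) := by
    have h1 := anti _ hw0
    rw [Real.coe_toNNReal _ (by positivity)] at h1
    rw [← law_Z hc hB hX1.le, Measure.map_apply (meas_Z hB x1 X)] at h1
    · exact h1
    · exact measurableSet_lt measurable_abs measurable_const
  have hb0 := hC P (B 0) (bm_B hB 0) (hB.cont 0)
  have hb1 := hC P (B 1) (bm_B hB 1) (hB.cont 1)
  -- the covering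
  have hcov : (univ : Set Ω) ⊆ (A ∪ A') ∪ ({ω | |ZZ B x1 X ω| < √(2 * v) / 8} ∪
      ({ω | ¬ Good C (fun x => B 0 x ω)} ∪ {ω | ¬ Good C (fun x => B 1 x ω)})) := by
    intro ω _
    by_contra hcon
    simp only [mem_union, mem_ofPred_eq, not_or, not_not] at hcon
    obtain ⟨⟨hnA, hnA'⟩, hZbig, hg0, hg1⟩ := hcon
    have hZb : √(2 * v) / 8 ≤ |ZZ B x1 X ω| := not_lt.1 hZbig
    have hcont : ∀ i, Continuous fun x => B i x ω := fun i => hB.cont i ω
    have hBd0 := good_Bd (hcont 0) hC0 hg0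
    have hBd1 := good_Bd (hcont 1) hC0 hg1
    set z := ZZ B x1 X ω with hz
    -- the reflected paths
    have e1 : (fun x => Bm c B x1 X 1 x ω) = fun x => B 1 x ω + (-(z / v)) * VV c x1 X x := by
      funext x
      unfold Bm sg
      rw [if_pos rfl]
      ring
    have e0 : (fun x => Bm c B x1 X 0 x ω) = fun x => B 0 x ω + (z / v) * VV c x1 X x := by
      funext x
      unfold Bm sg
      rw [if_neg (by decide)]
      ring
    have hVc := VV_cont hc (X : ℝ)
    have hcm1 : Continuous fun x => B 1 x ω + (-(z / v)) * VV c x1 X x :=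
      (hcont 1).add (continuous_const.mul hVc)
    have hcm0 : Continuous fun x => B 0 x ω + (z / v) * VV c x1 X x :=
      (hcont 0).add (continuous_const.mul hVc)
    have hBdm1 := Bd_drift (hcont 1) hBd1 hc hX1r.le (-(z / v))
    have hBdm0 := Bd_drift (hcont 0) hBd0 hc hX1r.le (z / v)
    have s1 := SS_eq_H hH2 (hcont 1) hBd1
    have s0 := SS_eq_H hH2 (hcont 0) hBd0
    have sm1 := SS_eq_H hH2 hcm1 hBdm1
    have sm0 := SS_eq_H hH2 hcm0 hBdm0
    -- size of the drift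
    have hsize : 2 * y ≤ (|z| / v) * δ * N ^ 3 := by
      have h1 : 1 / (8 * (√(2 * M : ℝ) * N)) ≤ |z| / v := by
        have hsv : 0 < √v := Real.sqrt_pos.2 hv0
        have h2 : √v ≤ √(2 * M : ℝ) * N := by
          have : √v ≤ √((2 * M : ℝ) * (N : ℝ) ^ 2) := Real.sqrt_le_sqrt (by
            rw [mul_assoc, ← hXr]; exact hvX)
          rwa [Real.sqrt_mul (by positivity), Real.sqrt_sq (by linarith)] at this
        have h3 : √v ≤ √(2 * v) := Real.sqrt_le_sqrt (by linarith)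
        have h4 : √v / 8 ≤ |z| := by linarith
        have h5 : √v * √v = v := Real.mul_self_sqrt hv0.le
        rw [div_le_div_iff₀ (by positivity) hv0]
        calc 1 * v = √v * √v := by rw [h5, one_mul]
          _ ≤ (8 * |z|) * (√(2 * M : ℝ) * N) := by
              apply mul_le_mul _ h2 hsv.le (by positivity)
              linarith
          _ = _ := by ring
      have h6 : 2 * y = 1 / (8 * (√(2 * M : ℝ) * N)) * δ * N ^ 3 := by
        rw [hy, hκ]; field_simp; ring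
      rw [h6]
      gcongr
    have hnA1 : |SS (fun x => B 1 x ω) (N ^ 3) - SS (fun x => B 0 x ω) (N ^ 3)| < y := by
      rw [s1, s0]; exact not_le.1 hnA
    have hnA2 : |SS (fun x => B 1 x ω + (-(z / v)) * VV c x1 X x) (N ^ 3) -
        SS (fun x => B 0 x ω + (z / v) * VV c x1 X x) (N ^ 3)| < y := by
      rw [sm1, sm0, ← e1, ← e0]; exact not_le.1 hnA'
    rw [abs_lt] at hnA1 hnA2
    rcases le_total 0 z with hz0 | hz0
    · have ha : 0 ≤ z / v := by positivity
      have h1 := hsh c δ hc _ (hcont 1) hg1 (z / v) ha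
      have h2 := SS_mono (hcont 0) hBd0 hc hX1r.le ha (N ^ 3)
      rw [abs_of_nonneg hz0] at hsize
      rw [← hXr] at h1
      linarith [hnA1.1, hnA1.2, hnA2.1, hnA2.2]
    · have ha : 0 ≤ -(z / v) := by
        rw [← neg_div]; exact div_nonneg (by linarith) hv0.le
      have h1 := hsh c δ hc _ (hcont 0) hg0 (-(z / v)) ha
      have h2 := SS_mono (hcont 1) hBd1 hc hX1r.le ha (N ^ 3)
      rw [abs_of_nonpos hz0] at hsize
      rw [← hXr, neg_neg] at h1
      have e3 : -z / v = -(z / v) := neg_div _ _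
      rw [e3] at hsize
      linarith [hnA1.1, hnA1.2, hnA2.1, hnA2.2]
  have htot : (1 : ℝ≥0∞) ≤ (P A + P A) + (ENNReal.ofReal (1 / 4) +
      (ENNReal.ofReal (1 / 16) + ENNReal.ofReal (1 / 16))) := by
    calc (1 : ℝ≥0∞) = P univ := measure_univ.symm
      _ ≤ _ := measure_mono hcov
      _ ≤ _ := (measure_union_le _ _).trans (add_le_add ((measure_union_le _ _).trans
          (le_of_eq (by rw [← hAA']))) ((measure_union_le _ _).trans (add_le_add hZ
          ((measure_union_le _ _).trans (add_le_add hb0 hb1)))))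
  have hPA : ENNReal.ofReal (5 / 16) ≤ P A := by
    have hfin : P A ≠ ∞ := measure_ne_top _ _
    rw [← ENNReal.ofReal_toReal hfin] at htot ⊢
    rw [← ENNReal.ofReal_add (by positivity) (by positivity),
      ← ENNReal.ofReal_add (by positivity) (by positivity),
      ← ENNReal.ofReal_add (by positivity) (by positivity),
      ← ENNReal.ofReal_add (by positivity) (by positivity)] at htot
    apply ENNReal.ofReal_le_ofReal
    rw [← ENNReal.ofReal_one, ENNReal.ofReal_le_ofReal_iff (by positivity)] at htot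
    linarith
  refine hPA.trans ?_
  apply measure_mono_ae
  filter_upwards [ae_Bd hB 0, ae_Bd hB 1] with ω h0 h1
  obtain ⟨m0, hm0⟩ := h0
  obtain ⟨m1, hm1⟩ := h1
  intro hω
  change κ * N ^ 2 ≤ |dd (limitVec B (N ^ 3) ω)|
  rw [dd_limitVec, SS_eq_H hH2 (hB.cont 1 ω) hm1, SS_eq_H hH2 (hB.cont 0 ω) hm0]
  exact hω

/-! ## the conclusion -/

/-- the test function -/
noncomputable def phi (k : ℕ) (y : ℝ) :
    BoundedContinuousFunction (Fin 2 → Fin k → ℝ) ℝ≥0 :=
  BoundedContinuousFunction.mkOfBound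
    ⟨fun X => (min 1 ((dd X / y) ^ 2)).toNNReal, by
      have := dd_continuous k
      exact continuous_real_toNNReal.comp (by fun_prop)⟩ 1 (by
      intro X Y
      have h : ∀ X : Fin 2 → Fin k → ℝ, (min 1 ((dd X / y) ^ 2)).toNNReal ≤ 1 := by
        intro X
        rw [← Real.toNNReal_one]
        exact Real.toNNReal_le_toNNReal (min_le_left _ _)
      have h1 := h X
      have h2 := h Y
      have h1' : ((min 1 ((dd X / y) ^ 2)).toNNReal : ℝ) ≤ 1 := by exact_mod_cast h1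
      have h2' : ((min 1 ((dd Y / y) ^ 2)).toNNReal : ℝ) ≤ 1 := by exact_mod_cast h2
      have h3 := ((min 1 ((dd X / y) ^ 2)).toNNReal).coe_nonneg
      have h4 := ((min 1 ((dd Y / y) ^ 2)).toNNReal).coe_nonneg
      simp only [ContinuousMap.coe_mk]
      rw [NNReal.dist_eq, abs_le]
      constructor <;> linarith)

theorem phi_apply (k : ℕ) (y : ℝ) (X : Fin 2 → Fin k → ℝ) :
    ((phi k y X : ℝ≥0) : ℝ≥0∞) = ENNReal.ofReal (min 1 ((dd X / y) ^ 2)) := rfl

theorem not_conv_one (t : ℝ) (ht : 0 < t) (c : ℝ → ℝ) (δ : ℝ) (x1 : ℝ≥0) (hadm : Adm c δ x1) :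
    ∃ k : ℕ, ∀ {Ω : Type u} [MeasurableSpace Ω]
    (P : Measure Ω) [IsProbabilityMeasure P] (B : Fin 2 → ℝ≥0 → Ω → ℝ), IsNoisePair c P B →
      ¬ TendstoInDistribution (fun n => edge t k n) atTop (limitVec B k)
        (fun n => (gaussArray n).prod (gaussArray n)) P := by
  obtain ⟨κ, hκ, N1, hN1, hlow⟩ := lower_prob.{u} c δ x1 hadm
  obtain ⟨N2, hN2⟩ := exists_nat_ge (160 * t / κ ^ 2)
  set N := max N1 N2 with hN
  have hNN1 : N1 ≤ N := le_max_left _ _
  have hNN2 : (N2 : ℝ) ≤ N := by exact_mod_cast le_max_right N1 N2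
  have hNpos : (0 : ℝ) < N := by
    have : 1 ≤ N := hN1.trans hNN1
    exact_mod_cast this
  refine ⟨N ^ 3, ?_⟩
  intro Ω _ P _ B hB hconv
  set y : ℝ := κ * N ^ 2 with hy
  have hy0 : 0 < y := by positivity
  have hlow' := hlow N hNN1 P B hB
  -- upper bound for the prelimit
  have hup : ∀ n : ℕ, N ^ 3 ≤ n → ∫⁻ z, (phi (N ^ 3) y (edge t (N ^ 3) n z) : ℝ≥0∞)
      ∂((gaussArray n).prod (gaussArray n)) ≤ ENNReal.ofReal (1 / 8) := by
    intro n hn
    have h1 := edge_bound t ht.le (N ^ 3) n hn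
    calc ∫⁻ z, (phi (N ^ 3) y (edge t (N ^ 3) n z) : ℝ≥0∞) ∂((gaussArray n).prod (gaussArray n))
        ≤ ∫⁻ z, ENNReal.ofReal (1 / y ^ 2) * ENNReal.ofReal (dd (edge t (N ^ 3) n z) ^ 2)
            ∂((gaussArray n).prod (gaussArray n)) := by
          refine lintegral_mono fun z => ?_
          rw [phi_apply, ← ENNReal.ofReal_mul (by positivity)]
          apply ENNReal.ofReal_le_ofReal
          refine (min_le_right _ _).trans (le_of_eq ?_)
          rw [div_pow]; ring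
      _ = ENNReal.ofReal (1 / y ^ 2) * ∫⁻ z, ENNReal.ofReal (dd (edge t (N ^ 3) n z) ^ 2)
            ∂((gaussArray n).prod (gaussArray n)) := by
          rw [lintegral_const_mul]
          exact (((dd_continuous _).measurable.comp (edge_measurable t _ n)).pow_const 2).ennreal_ofReal
      _ ≤ ENNReal.ofReal (1 / y ^ 2) * ENNReal.ofReal (20 * (N ^ 3 : ℕ) * t) := by gcongr
      _ ≤ ENNReal.ofReal (1 / 8) := by
          rw [← ENNReal.ofReal_mul (by positivity)]
          apply ENNReal.ofReal_le_ofReal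
          have h2 : 160 * t / κ ^ 2 ≤ N := hN2.trans hNN2
          rw [div_le_iff₀ (by positivity)] at h2
          rw [hy]
          push_cast
          rw [div_mul_eq_mul_div, div_le_div_iff₀ (by positivity) (by norm_num)]
          have h3 : (0 : ℝ) < (N : ℝ) ^ 3 := by positivity
          have h4 : (N : ℝ) ^ 3 * (160 * t) ≤ (N : ℝ) ^ 3 * (N * κ ^ 2) :=
            mul_le_mul_of_nonneg_left h2 h3.le
          calc 1 * (20 * (N : ℝ) ^ 3 * t) * 8 = (N : ℝ) ^ 3 * (160 * t) := by ring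
            _ ≤ (N : ℝ) ^ 3 * (N * κ ^ 2) := h4
            _ = _ := by ring
  -- convergence of the test integrals
  have htends := (ProbabilityMeasure.tendsto_iff_forall_lintegral_tendsto.1 hconv.tendsto)
    (phi (N ^ 3) y)
  have hmeasphi : Measurable fun X : Fin 2 → Fin (N ^ 3) → ℝ => (phi (N ^ 3) y X : ℝ≥0∞) :=
    (phi (N ^ 3) y).continuous.measurable.coe_nnreal_ennreal
  have hlim : ∫⁻ X, (phi (N ^ 3) y X : ℝ≥0∞) ∂(P.map (limitVec B (N ^ 3))) ≤
      ENNReal.ofReal (1 / 8) := by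
    refine le_of_tendsto htends (eventually_atTop.2 ⟨N ^ 3, fun n hn => ?_⟩)
    simp only [ProbabilityMeasure.coe_mk]
    rw [lintegral_map hmeasphi (edge_measurable t _ n)]
    exact hup n hn
  rw [lintegral_map' hmeasphi.aemeasurable (limitVec_aemeas hB _)] at hlim
  have hge : P {ω | κ * N ^ 2 ≤ |dd (limitVec B (N ^ 3) ω)|} ≤
      ∫⁻ ω, (phi (N ^ 3) y (limitVec B (N ^ 3) ω) : ℝ≥0∞) ∂P := by
    have h1 : AEMeasurable (fun ω => (phi (N ^ 3) y (limitVec B (N ^ 3) ω) : ℝ≥0∞)) P :=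
      hmeasphi.comp_aemeasurable (limitVec_aemeas hB _)
    have h2 := mul_meas_ge_le_lintegral₀ h1 1
    rw [one_mul] at h2
    refine le_trans (measure_mono ?_) h2
    intro ω hω
    have hω' : y ≤ |dd (limitVec B (N ^ 3) ω)| := hω
    change 1 ≤ (phi (N ^ 3) y (limitVec B (N ^ 3) ω) : ℝ≥0∞)
    rw [phi_apply, ← ENNReal.ofReal_one]
    apply ENNReal.ofReal_le_ofReal
    apply le_min le_rfl
    rw [div_pow, le_div_iff₀ (by positivity), one_mul, ← sq_abs (dd _)]
    exact pow_le_pow_left₀ hy0.le hω' 2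
  have hfinal := (hlow'.trans hge).trans hlim
  rw [ENNReal.ofReal_le_ofReal_iff (by norm_num)] at hfinal
  norm_num at hfinal

/-- the restriction to the first coordinates -/
def restr {k k' : ℕ} (h : k ≤ k') (X : Fin 2 → Fin k' → ℝ) : Fin 2 → Fin k → ℝ :=
  fun i j => X i (Fin.castLE h j)

theorem not_conv (t : ℝ) (ht : 0 < t) (c : ℝ → ℝ) (δ : ℝ) (x1 : ℝ≥0) (hadm : Adm c δ x1) :
    ∃ k0 : ℕ, ∀ k ≥ k0, ∀ {Ω : Type u} [MeasurableSpace Ω]
    (P : Measure Ω) [IsProbabilityMeasure P] (B : Fin 2 → ℝ≥0 → Ω → ℝ), IsNoisePair c P B →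
      ¬ TendstoInDistribution (fun n => edge t k n) atTop (limitVec B k)
        (fun n => (gaussArray n).prod (gaussArray n)) P := by
  obtain ⟨k0, hk0⟩ := not_conv_one.{u} t ht c δ x1 hadm
  refine ⟨k0, fun k hk Ω _ P _ B hB hconv => hk0 P B hB ?_⟩
  have hr : Continuous (restr hk) := by unfold restr; fun_prop
  exact hconv.continuous_comp hr

end Pool.Agent.W854.DY
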