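import Pool.Agent.W854.DY.KF

/-! # Ky Fan's principle for a form that is bounded below (abstract version) -/

set_option autoImplicit false

open Filter Topology

namespace Pool.Agent.W854.DY

section

variable {E : Type*} [AddCommGroup E] [Module ℝ E] (ip fm : E →ₗ[ℝ] E →ₗ[ℝ] ℝ)

/-- orthonormal tuples -/
def AON {k : ℕ} (f : Fin k → E) : Prop := ∀ i j, ip (f i) (f j) = if i = j then 1 else 0

/-- the upper bounds over `(j+1)`-dimensional subspaces -/
def aset (j : ℕ) : Set ℝ :=
  {a | ∃ V : Submodule ℝ E, Module.finrank ℝ V = j + 1 ∧ ∀ v ∈ V, fm v v ≤ a * ip v v}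

theorem akf_step (ipp : ∀ v, v ≠ 0 → 0 < ip v v) (j : ℕ)
    (g : Fin j → E) (a : ℝ) (ha : a ∈ aset ip fm j) :
    ∃ v, ip v v = 1 ∧ (∀ i, ip (g i) v = 0) ∧ fm v v ≤ a := by
  obtain ⟨V, hV, hf⟩ := ha
  have hfin : Module.Finite ℝ V := Module.finite_of_finrank_pos (by omega)
  let L : V →ₗ[ℝ] (Fin j → ℝ) := LinearMap.pi fun i => (ip (g i)).comp V.subtype
  have hker : LinearMap.ker L ≠ ⊥ := by
    apply LinearMap.ker_ne_bot_of_finrank_lt
    rw [hV]; simp
  obtain ⟨v, hv, hv0⟩ := (Submodule.ne_bot_iff _).1 hker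
  have hvE : (v : E) ≠ 0 := by simpa using hv0
  have hpos := ipp v hvE
  set s := √(ip (v : E) v) with hs
  have hs0 : 0 < s := Real.sqrt_pos.2 hpos
  have hss : s * s = ip (v : E) v := Real.mul_self_sqrt hpos.le
  refine ⟨s⁻¹ • (v : E), ?_, ?_, ?_⟩
  · simp only [map_smul, LinearMap.smul_apply, smul_eq_mul]
    rw [← hss]; field_simp
  · intro i
    have h1 : L v = 0 := hv
    have h2 := congrFun h1 i
    have h3 : ip (g i) v = 0 := by simpa [L] using h2
    simp [h3]
  · have h4 := hf _ (V.smul_mem s⁻¹ v.2)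
    have h5 : ip (s⁻¹ • (v : E)) (s⁻¹ • (v : E)) = 1 := by
      simp only [map_smul, LinearMap.smul_apply, smul_eq_mul]
      rw [← hss]; field_simp
    rw [h5, mul_one] at h4
    exact h4

theorem akf_upper (ips : ∀ v w, ip v w = ip w v) (ipp : ∀ v, v ≠ 0 → 0 < ip v v) (a : ℕ → ℝ)
    (k : ℕ) (ha : ∀ j < k, a j ∈ aset ip fm j) :
    ∃ f : Fin k → E, AON ip f ∧ ∀ j : Fin k, fm (f j) (f j) ≤ a j := by
  induction k with
  | zero => exact ⟨fun i => i.elim0, fun i => i.elim0, fun i => i.elim0⟩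
  | succ k ih =>
    obtain ⟨f, hf1, hf2⟩ := ih fun j hj => ha j (by omega)
    obtain ⟨v, hv1, hv2, hv3⟩ := akf_step ip fm ipp k f (a k) (ha k (by omega))
    refine ⟨Fin.snoc (α := fun _ => E) f v, ?_, ?_⟩
    · intro i j
      refine Fin.lastCases ?_ (fun i => ?_) i <;> refine Fin.lastCases ?_ (fun j => ?_) j
      · simp [hv1]
      · rw [Fin.snoc_last, Fin.snoc_castSucc, ips, hv2, if_neg (Fin.castSucc_lt_last j).ne']
      · rw [Fin.snoc_last, Fin.snoc_castSucc, hv2, if_neg (Fin.castSucc_lt_last i).ne]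
      · rw [Fin.snoc_castSucc, Fin.snoc_castSucc, hf1]
        simp [Fin.castSucc_inj]
    · intro j
      refine Fin.lastCases ?_ (fun j => ?_) j
      · simpa using hv3
      · simpa using hf2 j

theorem akf_lower (fms : ∀ v w, fm v w = fm w v) (k : ℕ) (f : Fin k → E) (hf : AON ip f) :
    ∃ α : ℕ → ℝ, (∀ j < k, α j ∈ aset ip fm j) ∧
      ∑ j ∈ Finset.range k, α j = ∑ i, fm (f i) (f i) := by
  classical
  set A : Matrix (Fin k) (Fin k) ℝ := Matrix.of fun i j => fm (f i) (f j) with hAdef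
  have hA : A.IsHermitian := by
    ext i j
    simp [hAdef, fms]
  set N := Fintype.card (Fin k) with hN
  have hNk : N = k := Fintype.card_fin k
  -- eigenvectors
  set e : Fin k → EuclideanSpace ℝ (Fin k) := fun i => hA.eigenvectorBasis i with he
  -- combination
  let h : Fin k → E := fun i => ∑ l, e i l • f l
  have hbil : ∀ (c d : Fin k → ℝ) (B : E →ₗ[ℝ] E →ₗ[ℝ] ℝ), B (∑ l, c l • f l) (∑ l, d l • f l) =
      ∑ a, ∑ b, c a * d b * B (f a) (f b) := by
    intro c d B
    simp only [map_sum, LinearMap.sum_apply, map_smul, LinearMap.smul_apply, smul_eq_mul,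
      Finset.mul_sum]
    rw [Finset.sum_comm]
    refine Finset.sum_congr rfl fun a _ => Finset.sum_congr rfl fun b _ => by ring
  have hip : ∀ i j, ip (h i) (h j) = if i = j then 1 else 0 := by
    intro i j
    change ip (∑ l, e i l • f l) (∑ l, e j l • f l) = _
    rw [hbil (fun l => e i l) (fun l => e j l)]
    have h1 : ∀ a, ∑ b, e i a * e j b * ip (f a) (f b) = e i a * e j a := by
      intro a
      rw [Finset.sum_eq_single a]
      · rw [hf a a, if_pos rfl, mul_one]
      · intro b _ hb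
        rw [hf a b, if_neg (Ne.symm hb), mul_zero]
      · intro h; exact absurd (Finset.mem_univ _) h
    rw [Finset.sum_congr rfl fun a _ => h1 a, ← inn_eq]
    exact (orthonormal_iff_ite.1 hA.eigenvectorBasis.orthonormal) i j
  have hfm : ∀ i j, fm (h i) (h j) = if i = j then hA.eigenvalues i else 0 := by
    intro i j
    change fm (∑ l, e i l • f l) (∑ l, e j l • f l) = _
    rw [hbil (fun l => e i l) (fun l => e j l)]
    have eig : ∀ a, ∑ b, A a b * e j b = hA.eigenvalues j * e j a := by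
      intro a
      have := congrFun (hA.mulVec_eigenvectorBasis j) a
      simpa [Matrix.mulVec, dotProduct] using this
    have h1 : ∀ a, ∑ b, e i a * e j b * fm (f a) (f b) = hA.eigenvalues j * (e i a * e j a) := by
      intro a
      calc ∑ b, e i a * e j b * fm (f a) (f b) = e i a * ∑ b, A a b * e j b := by
            rw [Finset.mul_sum]
            refine Finset.sum_congr rfl fun b _ => ?_
            simp only [hAdef, Matrix.of_apply]; ring
        _ = _ := by rw [eig]; ring
    rw [Finset.sum_congr rfl fun a _ => h1 a, ← Finset.mul_sum, ← inn_eq]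
    have := (orthonormal_iff_ite.1 hA.eigenvectorBasis.orthonormal) i j
    change _ * inner ℝ (hA.eigenvectorBasis i) (hA.eigenvectorBasis j) = _
    rw [this]
    split_ifs with hij
    · rw [hij]; ring
    · ring
  -- the values
  let α : ℕ → ℝ := fun j => if hj : j < k then hA.eigenvalues₀ ⟨k - 1 - j, by omega⟩ else 0
  refine ⟨α, ?_, ?_⟩
  · intro j hj
    -- the subspace
    let ι : Fin (j + 1) → Fin k := fun i => idx k ⟨k - 1 - i, by omega⟩
    have hι : Function.Injective ι := by
      intro a b hab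
      have h1 := (idx k).injective hab
      have h2 : k - 1 - (a : ℕ) = k - 1 - (b : ℕ) := by simpa [Fin.ext_iff] using h1
      ext; omega
    let S : (Fin (j + 1) → ℝ) →ₗ[ℝ] E := Fintype.linearCombination ℝ (fun i => h (ι i))
    have hSap : ∀ c, S c = ∑ i, c i • h (ι i) := fun c => Fintype.linearCombination_apply ℝ _ _
    have hSB : ∀ (B : E →ₗ[ℝ] E →ₗ[ℝ] ℝ) (q : Fin k → ℝ),
        (∀ i j, B (h i) (h j) = if i = j then q i else 0) → ∀ c,
        B (S c) (S c) = ∑ i, c i ^ 2 * q (ι i) := by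
      intro B q hB c
      rw [hSap]
      simp only [map_sum, LinearMap.sum_apply, map_smul, LinearMap.smul_apply, smul_eq_mul, hB]
      refine Finset.sum_congr rfl fun a _ => ?_
      rw [Finset.sum_eq_single a]
      · rw [if_pos rfl]; ring
      · intro b _ hb
        rw [if_neg (fun h => hb (hι h))]; ring
      · intro h; exact absurd (Finset.mem_univ _) h
    have hS1 : ∀ c, ip (S c) (S c) = ∑ i, c i ^ 2 := by
      intro c
      rw [hSB ip (fun _ => 1) hip c]; simp
    have hSinj : Function.Injective S := by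
      rw [injective_iff_map_eq_zero]
      intro c hc
      have h1 := hS1 c
      rw [hc, map_zero] at h1
      funext i
      have h2 := (Finset.sum_eq_zero_iff_of_nonneg (fun i _ => sq_nonneg (c i))).1 h1.symm i
        (Finset.mem_univ _)
      simpa using h2
    refine ⟨LinearMap.range S, ?_, ?_⟩
    · rw [LinearMap.finrank_range_of_inj hSinj]; simp
    · rintro _ ⟨c, rfl⟩
      rw [hS1, hSB fm _ hfm c, Finset.mul_sum]
      refine Finset.sum_le_sum fun i _ => ?_
      have h3 : hA.eigenvalues (ι i) ≤ α j := by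
        simp only [α, dif_pos hj]
        rw [eig_idx]
        apply hA.eigenvalues₀_antitone
        rw [Fin.le_def]
        have := i.2
        simp only
        omega
      nlinarith [sq_nonneg (c i)]
  · have htr : ∑ i, fm (f i) (f i) = ∑ i, hA.eigenvalues i := by
      have h1 := hA.trace_eq_sum_eigenvalues
      simp only [Matrix.trace, Matrix.diag] at h1
      simpa [hAdef] using h1
    rw [htr, ← (idx k).sum_comp]
    simp_rw [eig_idx]
    rw [← Finset.sum_range_reflect]
    have h5 : ∀ j ∈ Finset.range k, α (k - 1 - j) =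
        if hj : j < Fintype.card (Fin k) then hA.eigenvalues₀ ⟨j, hj⟩ else 0 := by
      intro j hj
      have hj' := Finset.mem_range.1 hj
      have h6 : k - 1 - j < k := by omega
      simp only [α, dif_pos h6]
      rw [dif_pos (by simpa using hj')]
      congr 1
      ext; simp only; omega
    rw [Finset.sum_congr rfl h5]
    have h7 := Fin.sum_univ_eq_sum_range (fun j => if hj : j < Fintype.card (Fin k) then
      hA.eigenvalues₀ ⟨j, hj⟩ else 0) (Fintype.card (Fin k))
    rw [show Finset.range k = Finset.range (Fintype.card (Fin k)) by simp, ← h7]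
    refine Finset.sum_congr rfl fun j _ => ?_
    rw [dif_pos j.2]

theorem aset_bddBelow (ipp : ∀ v, v ≠ 0 → 0 < ip v v) (m : ℝ) (hm : ∀ v, -m * ip v v ≤ fm v v)
    (j : ℕ) (a : ℝ) (ha : a ∈ aset ip fm j) : -m ≤ a := by
  obtain ⟨V, hV, hf⟩ := ha
  have hfin : Module.Finite ℝ V := Module.finite_of_finrank_pos (by omega)
  have hne : V ≠ ⊥ := by
    rintro rfl
    simp at hV
  obtain ⟨v, hv, hv0⟩ := (Submodule.ne_bot_iff _).1 hne
  have h1 := ipp v hv0
  have h2 := (hm v).trans (hf v hv)
  exact le_of_mul_le_mul_right h2 h1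

theorem akf_sInf_le (ipp : ∀ v, v ≠ 0 → 0 < ip v v) (fms : ∀ v w, fm v w = fm w v) (m : ℝ)
    (hm : ∀ v, -m * ip v v ≤ fm v v) (k : ℕ) (f : Fin k → E) (hf : AON ip f) :
    ∑ j ∈ Finset.range k, sInf (aset ip fm j) ≤ ∑ i, fm (f i) (f i) := by
  obtain ⟨α, hα1, hα2⟩ := akf_lower ip fm fms k f hf
  rw [← hα2]
  refine Finset.sum_le_sum fun j hj => ?_
  exact csInf_le ⟨-m, fun a ha => aset_bddBelow ip fm ipp m hm j a ha⟩
    (hα1 j (Finset.mem_range.1 hj))

theorem akf_le_sInf (ips : ∀ v w, ip v w = ip w v) (ipp : ∀ v, v ≠ 0 → 0 < ip v v)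
    (fms : ∀ v w, fm v w = fm w v) (k : ℕ) (f0 : Fin k → E) (hf0 : AON ip f0) (ε : ℝ)
    (hε : 0 < ε) :
    ∃ f : Fin k → E, AON ip f ∧
      ∑ i, fm (f i) (f i) ≤ ∑ j ∈ Finset.range k, sInf (aset ip fm j) + k * ε := by
  obtain ⟨α, hα1, -⟩ := akf_lower ip fm fms k f0 hf0
  have h1 : ∀ j : ℕ, ∃ a, (j < k → a ∈ aset ip fm j) ∧ a ≤ sInf (aset ip fm j) + ε := by
    intro j
    by_cases hj : j < k
    · obtain ⟨a, ha, hal⟩ := exists_lt_of_csInf_lt (s := aset ip fm j) ⟨_, hα1 j hj⟩
        (show sInf (aset ip fm j) < sInf (aset ip fm j) + ε by linarith)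
      exact ⟨a, fun _ => ha, hal.le⟩
    · exact ⟨sInf (aset ip fm j) + ε, fun h => absurd h hj, le_rfl⟩
  choose a ha1 ha2 using h1
  obtain ⟨f, hf1, hf2⟩ := akf_upper ip fm ips ipp a k fun j hj => ha1 j hj
  refine ⟨f, hf1, ?_⟩
  calc ∑ i, fm (f i) (f i) ≤ ∑ i : Fin k, (sInf (aset ip fm i) + ε) :=
        Finset.sum_le_sum fun i _ => (hf2 i).trans (ha2 i)
    _ = _ := by
      rw [Finset.sum_add_distrib, Fin.sum_univ_eq_sum_range (fun j => sInf (aset ip fm j)) k]
      simp

end

end Pool.Agent.W854.DY
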