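import Pool.Agent.W854.DY.Form

/-! # Disjoint bumps -/

set_option autoImplicit false

open MeasureTheory Filter Topology Set
open scoped NNReal

namespace Pool.Agent.W854.DY

/-- there is a normalised bump in `(0, 1)` -/
theorem psi_exists : ∃ ψ : ℝ → ℝ, ContDiff ℝ (⊤ : ℕ∞) ψ ∧ (∀ x, x ∉ Icc (1 / 4 : ℝ) (3 / 4) → ψ x = 0) ∧
    ∫ x, ψ x ^ 2 = 1 := by
  let φ : ContDiffBump (1 / 2 : ℝ) := ⟨1 / 8, 1 / 4, by norm_num, by norm_num⟩
  have h1 : ContDiff ℝ (⊤ : ℕ∞) φ := φ.contDiff
  have h2 : ∀ x, x ∉ Icc (1 / 4 : ℝ) (3 / 4) → φ x = 0 := by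
    intro x hx
    apply φ.zero_of_le_dist
    change (1 / 4 : ℝ) ≤ dist x (1 / 2)
    rw [Real.dist_eq]
    by_contra h
    push Not at h
    rw [abs_lt] at h
    exact hx ⟨by linarith [h.1], by linarith [h.2]⟩
  have hpos : 0 < ∫ x, φ x ^ 2 := by
    refine (h1.continuous.pow 2).integral_pos_of_hasCompactSupport_nonneg_nonzero
      (HasCompactSupport.intro (isCompact_Icc (a := (1 / 4 : ℝ)) (b := 3 / 4))
        fun x hx => by simp [h2 x hx]) (fun x => sq_nonneg _) (x := 1 / 2) ?_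
    have : φ (1 / 2) = 1 := by
      apply φ.one_of_mem_closedBall
      simp [φ.rIn_pos.le]
    rw [this]; norm_num
  refine ⟨fun x => (√(∫ x, φ x ^ 2))⁻¹ * φ x, contDiff_const.mul h1, fun x hx => by
    simp [h2 x hx], ?_⟩
  have e : ∀ x, ((√(∫ x, φ x ^ 2))⁻¹ * φ x) ^ 2 = (∫ x, φ x ^ 2)⁻¹ * φ x ^ 2 := by
    intro x
    rw [mul_pow, inv_pow, Real.sq_sqrt hpos.le]
  simp_rw [e]
  rw [integral_const_mul, inv_mul_cancel₀ hpos.ne']

theorem int_scale (g : ℝ → ℝ) (N : ℝ) (hN : 0 < N) (i : ℝ) :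
    ∫ x, g (N * x - i) = N⁻¹ * ∫ x, g x := by
  have h1 := Measure.integral_comp_mul_left (fun y => g (y - i)) N
  rw [h1, integral_sub_right_eq_self, abs_of_pos (inv_pos.2 hN), smul_eq_mul]

theorem bump_exists : ∃ a : ℝ, 0 ≤ a ∧ ∀ N : ℕ, 0 < N → ∀ k : ℕ, ∃ f : Fin k → ℝ → ℝ, IsON f ∧
    ∀ i, ∫ x in Ioi (0 : ℝ), deriv (f i) x ^ 2 = a * N ^ 2 ∧
      ∫ x in Ioi (0 : ℝ), x * f i x ^ 2 ≤ k / N := by
  obtain ⟨ψ, h1, h2, h3⟩ := psi_exists
  refine ⟨∫ x, deriv ψ x ^ 2, integral_nonneg fun x => sq_nonneg _, ?_⟩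
  intro N hN k
  have hN' : (0 : ℝ) < N := by exact_mod_cast hN
  have hNN : √(N : ℝ) ^ 2 = N := Real.sq_sqrt hN'.le
  let F : ℕ → ℝ → ℝ := fun i x => √(N : ℝ) * ψ (N * x - i)
  have hFs : ∀ (i : ℕ) (x : ℝ), x ∉ Icc ((i + 1 / 4 : ℝ) / N) ((i + 3 / 4 : ℝ) / N) → F i x = 0 := by
    intro i x hx
    have : ψ (N * x - i) = 0 := by
      apply h2
      intro h
      apply hx
      constructor
      · rw [div_le_iff₀ hN']; linarith [h.1]
      · rw [le_div_iff₀ hN']; linarith [h.2]
    simp [F, this]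
  have hFt : ∀ i, IsTest (F i) := by
    intro i
    refine ⟨?_, HasCompactSupport.intro isCompact_Icc (hFs i), ?_⟩
    · exact contDiff_const.mul (h1.comp ((contDiff_const.mul contDiff_id).sub contDiff_const))
    · have hsub : tsupport (F i) ⊆ Icc ((i + 1 / 4 : ℝ) / N) ((i + 3 / 4 : ℝ) / N) := by
        refine closure_minimal ?_ isClosed_Icc
        intro x hx
        by_contra h
        exact hx (hFs i x h)
      intro x hx
      have := (hsub hx).1
      have h5 : (0 : ℝ) < (i + 1 / 4 : ℝ) / N := by positivity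
      exact lt_of_lt_of_le h5 this
  have hFd : ∀ i x, deriv (F i) x = √(N : ℝ) * (N * deriv ψ (N * x - i)) := by
    intro i x
    have hd : HasDerivAt ψ (deriv ψ (N * x - i)) (N * x - i) :=
      (h1.differentiable (by simp) _).hasDerivAt
    have hl : HasDerivAt (fun x : ℝ => (N : ℝ) * x - i) (N : ℝ) x := by
      simpa using ((hasDerivAt_id x).const_mul (N : ℝ)).sub_const (i : ℝ)
    have h5 : HasDerivAt (F i) (√(N : ℝ) * (deriv ψ (N * x - i) * N)) x :=
      (hd.comp x hl).const_mul (√(N : ℝ))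
    rw [h5.deriv]; ring
  have hsq : ∀ i, ∫ x in Ioi (0 : ℝ), F i x ^ 2 = 1 := by
    intro i
    rw [int_Ioi (hFt i) (F := fun x => F i x ^ 2) (fun x h _ => by simp [h])]
    have e : ∀ x, F i x ^ 2 = N * ψ (N * x - i) ^ 2 := by
      intro x; simp only [F]; rw [mul_pow, hNN]
    simp_rw [e]
    rw [integral_const_mul, int_scale (fun y => ψ y ^ 2) N hN' i, h3]
    field_simp
  refine ⟨fun i => F i, ⟨fun i => hFt i, ?_⟩, ?_⟩
  · intro i j
    by_cases hij : i = j
    · subst hij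
      rw [if_pos rfl, ← hsq i]
      refine integral_congr_ae (Eventually.of_forall fun x => ?_)
      simp only; ring
    · rw [if_neg hij]
      have : ∀ x, F i x * F j x = 0 := by
        intro x
        by_contra hne
        have ha : F i x ≠ 0 := left_ne_zero_of_mul hne
        have hb : F j x ≠ 0 := right_ne_zero_of_mul hne
        have ha' : x ∈ Icc ((i + 1 / 4 : ℝ) / N) ((i + 3 / 4 : ℝ) / N) := by
          by_contra h; exact ha (hFs i x h)
        have hb' : x ∈ Icc ((j + 1 / 4 : ℝ) / N) ((j + 3 / 4 : ℝ) / N) := by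
          by_contra h; exact hb (hFs j x h)
        have h5 := (div_le_iff₀ hN').1 ha'.1
        have h6 := (le_div_iff₀ hN').1 ha'.2
        have h7 := (div_le_iff₀ hN').1 hb'.1
        have h8 := (le_div_iff₀ hN').1 hb'.2
        have h9 : ((i : ℕ) : ℝ) < ((j : ℕ) : ℝ) + 1 := by linarith
        have h10 : ((j : ℕ) : ℝ) < ((i : ℕ) : ℝ) + 1 := by linarith
        have h11 : (i : ℕ) < (j : ℕ) + 1 := by exact_mod_cast h9
        have h12 : (j : ℕ) < (i : ℕ) + 1 := by exact_mod_cast h10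
        exact hij (Fin.ext (by omega))
      simp [this]
  · intro i
    constructor
    · rw [int_Ioi (hFt i) (F := fun x => deriv (F i) x ^ 2) (fun x _ h => by simp [h])]
      have e : ∀ x, deriv (F i) x ^ 2 = N ^ 3 * deriv ψ (N * x - i) ^ 2 := by
        intro x; rw [hFd, mul_pow, hNN]; ring
      simp_rw [e]
      rw [integral_const_mul, int_scale (fun y => deriv ψ y ^ 2) N hN' i]
      field_simp
    · have hle : ∫ x in Ioi (0 : ℝ), x * F i x ^ 2 ≤
          ∫ x in Ioi (0 : ℝ), (k / N) * F i x ^ 2 := by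
        refine integral_mono_of_nonneg ?_ ?_ ?_
        · filter_upwards [ae_restrict_mem measurableSet_Ioi] with x hx
          have : (0 : ℝ) < x := hx
          positivity
        · exact (intg (hFt i) (((hFt i).cont.pow 2).const_mul (k / N : ℝ))
            (fun x h _ => by simp [h])).integrableOn
        · refine Eventually.of_forall fun x => ?_
          simp only
          by_cases hx : x ∈ Icc (((i : ℕ) + 1 / 4 : ℝ) / N) (((i : ℕ) + 3 / 4 : ℝ) / N)
          · refine mul_le_mul_of_nonneg_right ?_ (sq_nonneg _)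
            refine hx.2.trans ?_
            have hi : ((i : ℕ) : ℝ) + 1 ≤ k := by exact_mod_cast i.2
            gcongr
            linarith
          · rw [hFs i x hx]; simp
      refine hle.trans (le_of_eq ?_)
      rw [integral_const_mul, hsq, mul_one]

end Pool.Agent.W854.DY
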