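import Mathlib

/-!
# The edge limit of stationary Dyson Brownian motion at `β = 1` (MP_c8b564_pr): definitions
-/

set_option autoImplicit false

open MeasureTheory ProbabilityTheory Filter Topology Set
open scoped ENNReal NNReal

namespace Pool.Agent.W854.DY

/-! ## The matrix process -/

/-- The `j`-th largest eigenvalue (counted from `j = 0`, with multiplicity) of a real symmetric
matrix; `0` if `j ≥ n`. -/
noncomputable def topEig {n : ℕ} {A : Matrix (Fin n) (Fin n) ℝ} (hA : A.IsHermitian) (j : ℕ) : ℝ :=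
  if h : j < Fintype.card (Fin n) then hA.eigenvalues₀ ⟨j, h⟩ else 0

/-- The law of an `n × n` array of independent standard Gaussian variables. -/
noncomputable def gaussArray (n : ℕ) : Measure (Fin n × Fin n → ℝ) :=
  Measure.pi fun _ => gaussianReal 0 1

instance (n : ℕ) : IsProbabilityMeasure (gaussArray n) := by unfold gaussArray; infer_instance

/-- The symmetric matrix `(g + gᵀ) / √2`. -/
noncomputable def symMat {n : ℕ} (g : Fin n × Fin n → ℝ) : Matrix (Fin n) (Fin n) ℝ :=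
  Matrix.of fun i j => (g (i, j) + g (j, i)) / √2

theorem symMat_isHermitian {n : ℕ} (g : Fin n × Fin n → ℝ) : (symMat g).IsHermitian := by
  ext i j
  simp [symMat, add_comm]

/-- The array at time `s ≥ 0` of the stationary Ornstein-Uhlenbeck process `dG = -G ds + √2 dB`
(`B` an array of independent Brownian motions), in terms of the array `z.1` at time `0` and of an
independent standard Gaussian array `z.2`: `G_s = e^{-s} z.1 + √(1 - e^{-2s}) z.2`. -/
noncomputable def ouArray {n : ℕ} (s : ℝ) (z : (Fin n × Fin n → ℝ) × (Fin n × Fin n → ℝ)) :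
    Fin n × Fin n → ℝ :=
  Real.exp (-s) • z.1 + √(1 - Real.exp (-2 * s)) • z.2

/-- The rescaled top `k` eigenvalues `n^{1/6} (2 √n - λ_j(u))` of the stationary matrix process
`m(u) = (G_u + G_uᵀ) / √2` at the two times `u = 0` and `u = t / (2 n^{1/3})`. -/
noncomputable def edge (t : ℝ) (k n : ℕ) (z : (Fin n × Fin n → ℝ) × (Fin n × Fin n → ℝ)) :
    Fin 2 → Fin k → ℝ := fun i j =>
  (n : ℝ) ^ (1 / 6 : ℝ) * (2 * √n - topEig (symMat_isHermitian
    (ouArray ((![0, t] : Fin 2 → ℝ) i / (2 * (n : ℝ) ^ (1 / 3 : ℝ))) z)) j)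

/-! ## The conjectured limit -/

/-- The random continuous functions `B 0`, `B 1` are the primitives `B i x = ⟨ξᵢ, 1_{[0,x]}⟩` of two
jointly Gaussian white noises `ξ₀`, `ξ₁` on `(0, ∞)` with the local correlation function `c`:
`E ⟨ξᵢ, f⟩ ⟨ξᵢ, g⟩ = ∫ f g` and `E ⟨ξ₀, f⟩ ⟨ξ₁, g⟩ = ∫ c f g`. For the Ornstein-Uhlenbeck
space-time white noise `ξ_a` at the times `0` and `t`, the function `c` is `c x = e^{-a t x}`. -/
structure IsNoisePair (c : ℝ → ℝ) {Ω : Type*} [MeasurableSpace Ω] (P : Measure Ω)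
    (B : Fin 2 → ℝ≥0 → Ω → ℝ) : Prop where
  meas : ∀ i x, Measurable (B i x)
  cont : ∀ i ω, Continuous fun x => B i x ω
  gauss : IsGaussianProcess (fun p : Fin 2 × ℝ≥0 => B p.1 p.2) P
  mean : ∀ i x, ∫ ω, B i x ω ∂P = 0
  cov : ∀ i j x y, ∫ ω, B i x ω * B j y ω ∂P =
    ∫ z in (0 : ℝ)..(min x y : ℝ≥0), (if i = j then 1 else c z)

open scoped ContDiff in
/-- `C_c^∞(0, ∞)`. -/
def IsTest (f : ℝ → ℝ) : Prop := ContDiff ℝ ∞ f ∧ HasCompactSupport f ∧ tsupport f ⊆ Ioi 0

/-- The quadratic form `∫_0^∞ (f'² + x f²) dx + 2 ⟨ξ, f²⟩` of the (dynamical) stochastic Airy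
operator at `β = 1`, where `ξ` is the derivative of the continuous function `b`:
`⟨ξ, g⟩ = -∫_0^∞ g' b`. -/
noncomputable def form (b : ℝ≥0 → ℝ) (f : ℝ → ℝ) : ℝ :=
  ∫ x in Ioi (0 : ℝ), (deriv f x ^ 2 + x * f x ^ 2 - 2 * (2 * f x * deriv f x) * b x.toNNReal)

/-- The numbers `a` such that the form is `≤ a ‖f‖²` on some `(j+1)`-dimensional subspace of the
form core `C_c^∞(0, ∞)`. -/
def eigSet (b : ℝ≥0 → ℝ) (j : ℕ) : Set ℝ :=
  {a : ℝ | ∃ V : Submodule ℝ (ℝ → ℝ), (∀ f ∈ V, IsTest f) ∧ Module.finrank ℝ V = j + 1 ∧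
    ∀ f ∈ V, form b f ≤ a * ∫ x in Ioi (0 : ℝ), f x ^ 2}

/-- The `j`-th lowest eigenvalue (counted from `j = 0`) of the operator with the form `form b`, by
the min-max principle over the `(j+1)`-dimensional subspaces of the form core `C_c^∞(0, ∞)`. -/
noncomputable def eigval (b : ℝ≥0 → ℝ) (j : ℕ) : ℝ := sInf (eigSet b j)

/-- The lowest `k` eigenvalues at the two times. -/
noncomputable def limitVec {Ω : Type*} (B : Fin 2 → ℝ≥0 → Ω → ℝ) (k : ℕ) (ω : Ω) :
    Fin 2 → Fin k → ℝ := fun i j => eigval (fun x => B i x ω) j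

end Pool.Agent.W854.DY
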