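import Pool.Agent.W854.DY.GOE

/-! # The edge vector: measurability and the bound of the change -/

set_option autoImplicit false

open MeasureTheory ProbabilityTheory Filter Topology
open scoped ENNReal NNReal

namespace Pool.Agent.W854.DY

theorem theta_exists (u : ℝ) (hu : 0 ≤ u) : ∃ θ : ℝ, Real.cos θ = Real.exp (-u) ∧
    Real.sin θ = √(1 - Real.exp (-2 * u)) ∧ θ ^ 2 ≤ 5 * u := by
  have he1 : Real.exp (-u) ≤ 1 := Real.exp_le_one_iff.2 (by linarith)
  have he0 : 0 < Real.exp (-u) := Real.exp_pos _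
  refine ⟨Real.arccos (Real.exp (-u)), Real.cos_arccos (by linarith) he1, ?_, ?_⟩
  · rw [Real.sin_arccos, ← Real.exp_nat_mul]
    congr 3
    push_cast; ring
  · set θ := Real.arccos (Real.exp (-u)) with hθ
    have h0 : 0 ≤ θ := Real.arccos_nonneg _
    have h1 : θ ≤ Real.pi := Real.arccos_le_pi _
    have hc : Real.cos θ = Real.exp (-u) := Real.cos_arccos (by linarith) he1
    have h2 : 2 / Real.pi * (θ / 2) ≤ Real.sin (θ / 2) :=
      Real.mul_le_sin (by linarith) (by linarith)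
    have hpi := Real.pi_pos
    have h3 : θ ≤ Real.pi * Real.sin (θ / 2) := by
      have : Real.pi * (2 / Real.pi * (θ / 2)) ≤ Real.pi * Real.sin (θ / 2) :=
        mul_le_mul_of_nonneg_left h2 hpi.le
      have e : Real.pi * (2 / Real.pi * (θ / 2)) = θ := by field_simp
      linarith
    have h4 : θ ^ 2 ≤ (Real.pi * Real.sin (θ / 2)) ^ 2 := pow_le_pow_left₀ h0 h3 2
    have h5 : Real.cos θ = 1 - 2 * Real.sin (θ / 2) ^ 2 := by
      have := Real.cos_two_mul (θ / 2)
      rw [show 2 * (θ / 2) = θ by ring] at this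
      have h6 := Real.sin_sq_add_cos_sq (θ / 2)
      linarith
    have h6 : 1 - u ≤ Real.exp (-u) := by linarith [Real.add_one_le_exp (-u)]
    have h7 : 2 * Real.sin (θ / 2) ^ 2 ≤ u := by linarith
    have h8 : Real.pi ^ 2 ≤ 10 := by nlinarith [Real.pi_lt_d2]
    have h9 : 0 ≤ Real.sin (θ / 2) ^ 2 := sq_nonneg _
    rw [mul_pow] at h4
    nlinarith [mul_le_mul_of_nonneg_right h8 h9]

theorem ouArray_zero {n : ℕ} (z : (Fin n × Fin n → ℝ) × (Fin n × Fin n → ℝ)) :
    ouArray 0 z = z.1 := by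
  unfold ouArray; simp

theorem ouArray_continuous {n : ℕ} (s : ℝ) : Continuous (ouArray (n := n) s) := by
  unfold ouArray; fun_prop

theorem edge_measurable (t : ℝ) (k n : ℕ) : Measurable (edge t k n) := by
  refine measurable_pi_lambda _ fun i => measurable_pi_lambda _ fun j => ?_
  unfold edge
  have h : Continuous fun z : (Fin n × Fin n → ℝ) × (Fin n × Fin n → ℝ) =>
      topEig (symMat_isHermitian
        (ouArray ((![0, t] : Fin 2 → ℝ) i / (2 * (n : ℝ) ^ (1 / 3 : ℝ))) z)) (j : ℕ) :=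
    (topEig_continuous n j).comp (ouArray_continuous _)
  exact ((h.measurable.const_sub _).const_mul _)

/-- the difference of the sums at the two times -/
noncomputable def dd {k : ℕ} (X : Fin 2 → Fin k → ℝ) : ℝ := ∑ j, X 1 j - ∑ j, X 0 j

theorem dd_continuous (k : ℕ) : Continuous (dd (k := k)) := by unfold dd; fun_prop

theorem dd_edge (t : ℝ) (k n : ℕ) (z : (Fin n × Fin n → ℝ) × (Fin n × Fin n → ℝ)) :
    dd (edge t k n z) = -((n : ℝ) ^ (1 / 6 : ℝ)) *
      (Phi n k (ouArray (t / (2 * (n : ℝ) ^ (1 / 3 : ℝ))) z) - Phi n k z.1) := by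
  unfold dd edge Phi topSum
  simp only [Matrix.cons_val_one, Matrix.cons_val_zero, Matrix.cons_val_fin_one, zero_div,
    ouArray_zero]
  rw [← Finset.mul_sum, ← Finset.mul_sum, Finset.sum_sub_distrib, Finset.sum_sub_distrib]
  rw [Fin.sum_univ_eq_sum_range (fun j => topEig (symMat_isHermitian
    (ouArray (t / (2 * (n : ℝ) ^ (1 / 3 : ℝ))) z)) j) k,
    Fin.sum_univ_eq_sum_range (fun j => topEig (symMat_isHermitian z.1) j) k]
  ring

/-- the change of the sum of the rescaled top `k` eigenvalues is bounded in `L²`,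
uniformly in `n` -/
theorem edge_bound (t : ℝ) (ht : 0 ≤ t) (k n : ℕ) (hk : k ≤ n) :
    ∫⁻ z, ENNReal.ofReal (dd (edge t k n z) ^ 2) ∂((gaussArray n).prod (gaussArray n)) ≤
      ENNReal.ofReal (20 * k * t) := by
  rcases Nat.eq_zero_or_pos n with h0 | h0
  · subst h0
    obtain rfl : k = 0 := by omega
    simp [dd]
  have hn : (0 : ℝ) < n := by exact_mod_cast h0
  set u := t / (2 * (n : ℝ) ^ (1 / 3 : ℝ)) with hu
  have hn3 : (0 : ℝ) < (n : ℝ) ^ (1 / 3 : ℝ) := Real.rpow_pos_of_pos hn _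
  have hu0 : 0 ≤ u := by positivity
  obtain ⟨θ, h1, h2, h3⟩ := theta_exists u hu0
  have h4 := Phi_change n k hk θ
  have h6 : ((n : ℝ) ^ (1 / 6 : ℝ)) ^ 2 = (n : ℝ) ^ (1 / 3 : ℝ) := by
    rw [← Real.rpow_natCast, ← Real.rpow_mul hn.le]
    norm_num
  have e : ∀ z : (Fin n × Fin n → ℝ) × (Fin n × Fin n → ℝ),
      ENNReal.ofReal (dd (edge t k n z) ^ 2) = ENNReal.ofReal ((n : ℝ) ^ (1 / 3 : ℝ)) *
      ENNReal.ofReal ((Phi n k (Real.cos θ • z.1 + Real.sin θ • z.2) - Phi n k z.1) ^ 2) := by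
    intro z
    have e1 : ouArray u z = Real.exp (-u) • z.1 + √(1 - Real.exp (-2 * u)) • z.2 := rfl
    rw [dd_edge, ← ENNReal.ofReal_mul hn3.le, h1, h2, ← hu, e1, ← h6]
    congr 1
    generalize Phi n k (Real.exp (-u) • z.1 + √(1 - Real.exp (-2 * u)) • z.2) = q
    ring
  simp_rw [e]
  have hm : Measurable fun z : (Fin n × Fin n → ℝ) × (Fin n × Fin n → ℝ) =>
      ENNReal.ofReal ((Phi n k (Real.cos θ • z.1 + Real.sin θ • z.2) - Phi n k z.1) ^ 2) := by
    have hc := Phi_continuous n k hk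
    have : Continuous fun z : (Fin n × Fin n → ℝ) × (Fin n × Fin n → ℝ) =>
      (Phi n k (Real.cos θ • z.1 + Real.sin θ • z.2) - Phi n k z.1) ^ 2 := by fun_prop
    exact this.measurable.ennreal_ofReal
  rw [lintegral_const_mul _ hm]
  calc _ ≤ ENNReal.ofReal ((n : ℝ) ^ (1 / 3 : ℝ)) * ENNReal.ofReal (8 * k * θ ^ 2) := by gcongr
    _ ≤ _ := by
      rw [← ENNReal.ofReal_mul hn3.le]
      apply ENNReal.ofReal_le_ofReal
      have h7 : (n : ℝ) ^ (1 / 3 : ℝ) * u = t / 2 := by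
        rw [hu]; field_simp
      have hk0 : (0 : ℝ) ≤ k := Nat.cast_nonneg _
      calc (n : ℝ) ^ (1 / 3 : ℝ) * (8 * k * θ ^ 2) ≤ (n : ℝ) ^ (1 / 3 : ℝ) * (8 * k * (5 * u)) := by
            gcongr
        _ = 40 * k * ((n : ℝ) ^ (1 / 3 : ℝ) * u) := by ring
        _ = 20 * k * t := by rw [h7]; ring

end Pool.Agent.W854.DY
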