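import Pool.Agent.W854.DY.AKF

/-! # The form on test functions -/

set_option autoImplicit false

open MeasureTheory Filter Topology Set
open scoped NNReal

namespace Pool.Agent.W854.DY

/-! ## test functions -/

namespace IsTest

variable {f g : ℝ → ℝ}

theorem cont (h : IsTest f) : Continuous f := h.1.continuous

theorem diff (h : IsTest f) : Differentiable ℝ f := h.1.differentiable (by simp)

theorem deriv_cont (h : IsTest f) : Continuous (deriv f) := h.1.continuous_deriv (by simp)

theorem eq_zero (h : IsTest f) {x : ℝ} (hx : x ∉ tsupport f) : f x = 0 :=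
  image_eq_zero_of_notMem_tsupport hx

theorem deriv_zero {x : ℝ} (hx : x ∉ tsupport f) : deriv f x = 0 := by
  by_contra h
  exact hx (support_deriv_subset h)

theorem notMem (h : IsTest f) {x : ℝ} (hx : x ≤ 0) : x ∉ tsupport f := fun h' =>
  absurd (h.2.2 h') (not_lt.2 hx)

theorem zero : IsTest (0 : ℝ → ℝ) := by
  refine ⟨contDiff_const, HasCompactSupport.zero, ?_⟩
  simp [tsupport]

theorem add (h : IsTest f) (h' : IsTest g) : IsTest (f + g) := by
  refine ⟨h.1.add h'.1, h.2.1.add h'.2.1, ?_⟩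
  exact (tsupport_add f g).trans (union_subset h.2.2 h'.2.2)

theorem smul (c : ℝ) (h : IsTest f) : IsTest (c • f) := by
  refine ⟨h.1.const_smul c, h.2.1.smul_left (f := fun _ => c), ?_⟩
  refine (tsupport_smul_subset_right (fun _ => c) f).trans h.2.2

end IsTest

/-- the space of test functions -/
def testSub : Submodule ℝ (ℝ → ℝ) where
  carrier := {f | IsTest f}
  add_mem' := fun h h' => IsTest.add h h'
  zero_mem' := IsTest.zero
  smul_mem' := fun c _ h => IsTest.smul c h

theorem intg {f F : ℝ → ℝ} (hf : IsTest f) (hF : Continuous F)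
    (h : ∀ x, f x = 0 → deriv f x = 0 → F x = 0) : Integrable F := by
  refine hF.integrable_of_hasCompactSupport (HasCompactSupport.intro hf.2.1 fun x hx => ?_)
  exact h x (hf.eq_zero hx) (IsTest.deriv_zero hx)

theorem int_Ioi {f F : ℝ → ℝ} (hf : IsTest f) (h : ∀ x, f x = 0 → deriv f x = 0 → F x = 0) :
    ∫ x in Ioi (0 : ℝ), F x = ∫ x, F x := by
  apply setIntegral_eq_integral_of_forall_compl_eq_zero
  intro x hx
  have hx' : x ≤ 0 := not_lt.1 hx
  exact h x (hf.eq_zero (hf.notMem hx')) (IsTest.deriv_zero (hf.notMem hx'))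

/-! ## the bilinear forms -/

/-- the integrand of the bilinear form -/
noncomputable def qq (b : ℝ≥0 → ℝ) (f g : ℝ → ℝ) (x : ℝ) : ℝ :=
  deriv f x * deriv g x + x * (f x * g x) - 2 * (f x * deriv g x + deriv f x * g x) * b x.toNNReal

theorem cont_b {b : ℝ≥0 → ℝ} (hb : Continuous b) : Continuous fun x : ℝ => b x.toNNReal :=
  hb.comp continuous_real_toNNReal

theorem qq_integrable {b : ℝ≥0 → ℝ} (hb : Continuous b) {f g : ℝ → ℝ} (hf : IsTest f)
    (hg : IsTest g) : Integrable (qq b f g) := by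
  refine intg hf ?_ ?_
  · have h1 := hf.cont
    have h2 := hf.deriv_cont
    have h3 := hg.cont
    have h4 := hg.deriv_cont
    have h5 := cont_b hb
    unfold qq
    fun_prop
  · intro x h1 h2
    simp [qq, h1, h2]

/-- the inner product -/
noncomputable def ipL : testSub →ₗ[ℝ] testSub →ₗ[ℝ] ℝ :=
  LinearMap.mk₂ ℝ (fun f g => ∫ x in Ioi (0 : ℝ), f.1 x * g.1 x)
    (by
      intro f f' g
      have hi : ∀ f : testSub, Integrable fun x => f.1 x * g.1 x := fun f =>
        intg f.2 (f.2.cont.mul g.2.cont) (fun x h1 _ => by simp [h1])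
      rw [← integral_add (hi f).integrableOn (hi f').integrableOn]
      refine integral_congr_ae (Eventually.of_forall fun x => ?_)
      simp [add_mul])
    (by
      intro c f g
      rw [smul_eq_mul, ← integral_const_mul]
      refine integral_congr_ae (Eventually.of_forall fun x => ?_)
      simp [mul_assoc])
    (by
      intro f g g'
      have hi : ∀ g : testSub, Integrable fun x => f.1 x * g.1 x := fun g =>
        intg f.2 (f.2.cont.mul g.2.cont) (fun x h1 _ => by simp [h1])
      rw [← integral_add (hi g).integrableOn (hi g').integrableOn]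
      refine integral_congr_ae (Eventually.of_forall fun x => ?_)
      simp [mul_add])
    (by
      intro c f g
      rw [smul_eq_mul, ← integral_const_mul]
      refine integral_congr_ae (Eventually.of_forall fun x => ?_)
      simp only [Submodule.coe_smul, Pi.smul_apply, smul_eq_mul]; ring)

/-- the bilinear form -/
noncomputable def fmL (b : ℝ≥0 → ℝ) (hb : Continuous b) : testSub →ₗ[ℝ] testSub →ₗ[ℝ] ℝ :=
  LinearMap.mk₂ ℝ (fun f g => ∫ x in Ioi (0 : ℝ), qq b f.1 g.1 x)
    (by
      intro f f' g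
      rw [← integral_add (qq_integrable hb f.2 g.2).integrableOn
        (qq_integrable hb f'.2 g.2).integrableOn]
      refine integral_congr_ae (Eventually.of_forall fun x => ?_)
      have h1 : deriv (f.1 + f'.1) x = deriv f.1 x + deriv f'.1 x :=
        deriv_add (f.2.diff x) (f'.2.diff x)
      simp only [qq, Submodule.coe_add, Pi.add_apply, h1]; ring)
    (by
      intro c f g
      rw [smul_eq_mul, ← integral_const_mul]
      refine integral_congr_ae (Eventually.of_forall fun x => ?_)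
      have h1 : deriv (c • f.1) x = c * deriv f.1 x := by
        rw [deriv_const_smul_field]; rfl
      simp only [qq, Submodule.coe_smul, Pi.smul_apply, smul_eq_mul, h1]; ring)
    (by
      intro f g g'
      rw [← integral_add (qq_integrable hb f.2 g.2).integrableOn
        (qq_integrable hb f.2 g'.2).integrableOn]
      refine integral_congr_ae (Eventually.of_forall fun x => ?_)
      have h1 : deriv (g.1 + g'.1) x = deriv g.1 x + deriv g'.1 x :=
        deriv_add (g.2.diff x) (g'.2.diff x)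
      simp only [qq, Submodule.coe_add, Pi.add_apply, h1]; ring)
    (by
      intro c f g
      rw [smul_eq_mul, ← integral_const_mul]
      refine integral_congr_ae (Eventually.of_forall fun x => ?_)
      have h1 : deriv (c • g.1) x = c * deriv g.1 x := by
        rw [deriv_const_smul_field]; rfl
      simp only [qq, Submodule.coe_smul, Pi.smul_apply, smul_eq_mul, h1]; ring)

theorem ipL_apply (f g : testSub) : ipL f g = ∫ x in Ioi (0 : ℝ), f.1 x * g.1 x := rfl

theorem fmL_apply (b : ℝ≥0 → ℝ) (hb : Continuous b) (f : testSub) :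
    fmL b hb f f = form b f.1 := by
  change ∫ x in Ioi (0 : ℝ), qq b f.1 f.1 x = _
  unfold form
  refine integral_congr_ae (Eventually.of_forall fun x => ?_)
  simp only [qq]; ring

theorem ipL_self (f : testSub) : ipL f f = ∫ x in Ioi (0 : ℝ), f.1 x ^ 2 := by
  rw [ipL_apply]
  refine integral_congr_ae (Eventually.of_forall fun x => ?_)
  simp only; ring

theorem ipL_symm (f g : testSub) : ipL f g = ipL g f := by
  rw [ipL_apply, ipL_apply]
  refine integral_congr_ae (Eventually.of_forall fun x => ?_)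
  simp only; ring

theorem fmL_symm (b : ℝ≥0 → ℝ) (hb : Continuous b) (f g : testSub) :
    fmL b hb f g = fmL b hb g f := by
  change ∫ x in Ioi (0 : ℝ), qq b f.1 g.1 x = ∫ x in Ioi (0 : ℝ), qq b g.1 f.1 x
  refine integral_congr_ae (Eventually.of_forall fun x => ?_)
  simp only [qq]; ring

theorem sq_int_pos {f : ℝ → ℝ} (hf : IsTest f) (h0 : f ≠ 0) : 0 < ∫ x in Ioi (0 : ℝ), f x ^ 2 := by
  rw [int_Ioi hf (F := fun x => f x ^ 2) (fun x h1 _ => by simp [h1])]
  obtain ⟨x, hx⟩ : ∃ x, f x ≠ 0 := by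
    by_contra h
    push Not at h
    exact h0 (funext h)
  refine (hf.cont.pow 2).integral_pos_of_hasCompactSupport_nonneg_nonzero
    (HasCompactSupport.intro hf.2.1 fun x hx => by simp [hf.eq_zero hx])
    (fun x => sq_nonneg _) (x := x) ?_
  exact pow_ne_zero 2 hx

theorem ipL_pos (f : testSub) (h : f ≠ 0) : 0 < ipL f f := by
  rw [ipL_self]
  exact sq_int_pos f.2 (fun h' => h (Subtype.ext h'))

/-! ## the eigenvalues -/

theorem eigSet_eq (b : ℝ≥0 → ℝ) (hb : Continuous b) (j : ℕ) :
    eigSet b j = aset ipL (fmL b hb) j := by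
  ext a
  constructor
  · rintro ⟨V, hV1, hV2, hV3⟩
    have hle : V ≤ testSub := fun f hf => hV1 f hf
    refine ⟨V.comap testSub.subtype, ?_, ?_⟩
    · rw [← hV2]
      exact (Submodule.comapSubtypeEquivOfLe hle).finrank_eq
    · intro f hf
      rw [fmL_apply, ipL_self]
      exact hV3 f.1 hf
  · rintro ⟨V, hV2, hV3⟩
    refine ⟨V.map testSub.subtype, ?_, ?_, ?_⟩
    · rintro _ ⟨f, -, rfl⟩
      exact f.2
    · rw [← hV2]
      exact Submodule.finrank_map_subtype_eq testSub V
    · rintro _ ⟨f, hf, rfl⟩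
      have := hV3 f hf
      rw [fmL_apply, ipL_self] at this
      exact this

theorem eigval_eq (b : ℝ≥0 → ℝ) (hb : Continuous b) (j : ℕ) :
    eigval b j = sInf (aset ipL (fmL b hb) j) := by
  unfold eigval
  rw [eigSet_eq b hb]

/-- orthonormal tuples of test functions -/
def IsON {k : ℕ} (f : Fin k → ℝ → ℝ) : Prop :=
  (∀ i, IsTest (f i)) ∧ ∀ i j, ∫ x in Ioi (0 : ℝ), f i x * f j x = if i = j then 1 else 0

/-- the form is bounded below -/
def Bd (m : ℝ) (b : ℝ≥0 → ℝ) : Prop :=
  ∀ f, IsTest f → -m * ∫ x in Ioi (0 : ℝ), f x ^ 2 ≤ form b f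

theorem eigsum_le (b : ℝ≥0 → ℝ) (hb : Continuous b) (m : ℝ) (hm : Bd m b) {k : ℕ}
    (f : Fin k → ℝ → ℝ) (hf : IsON f) :
    ∑ j ∈ Finset.range k, eigval b j ≤ ∑ i, form b (f i) := by
  have h := akf_sInf_le ipL (fmL b hb) ipL_pos (fmL_symm b hb) m (fun v => by
    rw [ipL_self, fmL_apply]; exact hm v.1 v.2) k (fun i => ⟨f i, hf.1 i⟩) (fun i j => by
      rw [ipL_apply]; exact hf.2 i j)
  simp_rw [eigval_eq b hb]
  refine h.trans (le_of_eq ?_)
  refine Finset.sum_congr rfl fun i _ => ?_
  rw [fmL_apply]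

theorem eigsum_ge (b : ℝ≥0 → ℝ) (hb : Continuous b) {k : ℕ}
    (f0 : Fin k → ℝ → ℝ) (hf0 : IsON f0) (ε : ℝ) (hε : 0 < ε) :
    ∃ f : Fin k → ℝ → ℝ, IsON f ∧
      ∑ i, form b (f i) ≤ ∑ j ∈ Finset.range k, eigval b j + k * ε := by
  obtain ⟨f, hf1, hf2⟩ := akf_le_sInf ipL (fmL b hb) ipL_symm ipL_pos (fmL_symm b hb) k
    (fun i => ⟨f0 i, hf0.1 i⟩) (fun i j => by rw [ipL_apply]; exact hf0.2 i j) ε hε
  refine ⟨fun i => (f i).1, ⟨fun i => (f i).2, fun i j => ?_⟩, ?_⟩
  · rw [← ipL_apply]; exact hf1 i j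
  · simp_rw [eigval_eq b hb]
    refine le_trans (le_of_eq ?_) hf2
    refine Finset.sum_congr rfl fun i _ => ?_
    rw [fmL_apply]

theorem eigSet_nonempty (b : ℝ≥0 → ℝ) (hb : Continuous b) (j : ℕ) (f0 : Fin (j + 1) → ℝ → ℝ)
    (hf0 : IsON f0) : (eigSet b j).Nonempty := by
  obtain ⟨α, hα, -⟩ := akf_lower ipL (fmL b hb) (fmL_symm b hb) (j + 1)
    (fun i => ⟨f0 i, hf0.1 i⟩) (fun i j => by rw [ipL_apply]; exact hf0.2 i j)
  rw [eigSet_eq b hb]
  exact ⟨α j, hα j (by omega)⟩

theorem eigSet_bddBelow (b : ℝ≥0 → ℝ) (hb : Continuous b) (m : ℝ) (hm : Bd m b) (j : ℕ) :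
    BddBelow (eigSet b j) := by
  rw [eigSet_eq b hb]
  exact ⟨-m, fun a ha => aset_bddBelow ipL (fmL b hb) ipL_pos m (fun v => by
    rw [ipL_self, fmL_apply]; exact hm v.1 v.2) j a ha⟩

end Pool.Agent.W854.DY
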