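import Mathlib

/-!
# A Lipschitz bound along rotations of Gaussian vectors

If `Φ` has a subgradient `p x` at each point `x`, with `‖p x‖ ≤ C` and `∫ (p x y)² dγ(y) ≤ L²`, then
`∫∫ (Φ (cos θ x + sin θ y) - Φ x)² dγ dγ ≤ 4 L² θ²`.
-/

set_option autoImplicit false

open MeasureTheory ProbabilityTheory Filter Topology
open scoped ENNReal NNReal

namespace Pool.Agent.W854.DY

variable {E : Type*} [NormedAddCommGroup E] [NormedSpace ℝ E] [MeasurableSpace E] [BorelSpace E]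
  [SecondCountableTopology E]

/-- the increment along the rotation by `h` -/
noncomputable def dinc (Φ : E → ℝ) (h : ℝ) (z : E × E) : ℝ :=
  Φ (Real.cos h • z.1 + Real.sin h • z.2) - Φ z.1

/-- the second moment of the increment -/
noncomputable def G2 (γ : Measure E) (Φ : E → ℝ) (h : ℝ) : ℝ≥0∞ :=
  ∫⁻ z, ENNReal.ofReal (dinc Φ h z ^ 2) ∂(γ.prod γ)

theorem meas_dinc {Φ : E → ℝ} (hΦ : Measurable Φ) (h : ℝ) : Measurable (dinc Φ h) := by
  unfold dinc
  have h1 : Measurable fun z : E × E => Real.cos h • z.1 + Real.sin h • z.2 := by fun_prop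
  exact (hΦ.comp h1).sub (hΦ.comp measurable_fst)

theorem G2_steps (γ : Measure E) [IsProbabilityMeasure γ] {Φ : E → ℝ} (hΦ : Measurable Φ)
    (hrot : ∀ θ : ℝ, (γ.prod γ).map (ContinuousLinearMap.rotation θ) = γ.prod γ) (h : ℝ) (m : ℕ) :
    G2 γ Φ (m * h) ≤ ENNReal.ofReal ((m : ℝ) ^ 2) * G2 γ Φ h := by
  set R : ℝ → E × E → E × E := fun θ => ContinuousLinearMap.rotation θ with hR
  have hRap : ∀ θ z, R θ z = (Real.cos θ • z.1 + Real.sin θ • z.2,
      -Real.sin θ • z.1 + Real.cos θ • z.2) := fun θ z => ContinuousLinearMap.rotation_apply θ z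
  have hmp : ∀ θ, MeasurePreserving (R θ) (γ.prod γ) (γ.prod γ) := fun θ =>
    ⟨(ContinuousLinearMap.rotation θ).continuous.measurable, hrot θ⟩
  have key : ∀ (j : ℕ) (z : E × E), Φ (Real.cos ((j + 1 : ℕ) * h) • z.1
      + Real.sin ((j + 1 : ℕ) * h) • z.2) - Φ (Real.cos (j * h) • z.1 + Real.sin (j * h) • z.2)
      = dinc Φ h (R (j * h) z) := by
    intro j z
    unfold dinc
    rw [hRap]
    congr 2
    have e : ((j + 1 : ℕ) : ℝ) * h = h + j * h := by push_cast; ring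
    rw [e, Real.cos_add, Real.sin_add]
    module
  have tel : ∀ z : E × E, dinc Φ (m * h) z = ∑ j ∈ Finset.range m, dinc Φ h (R (j * h) z) := by
    intro z
    rw [Finset.sum_congr rfl fun j _ => (key j z).symm]
    rw [Finset.sum_range_sub (f := fun j : ℕ => Φ (Real.cos (j * h) • z.1 + Real.sin (j * h) • z.2))]
    unfold dinc
    simp
  have hm : ∀ z : E × E, ENNReal.ofReal (dinc Φ (m * h) z ^ 2) ≤
      ENNReal.ofReal m * ∑ j ∈ Finset.range m, ENNReal.ofReal (dinc Φ h (R (j * h) z) ^ 2) := by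
    intro z
    rw [← ENNReal.ofReal_sum_of_nonneg (fun _ _ => sq_nonneg _), ← ENNReal.ofReal_mul (by positivity)]
    apply ENNReal.ofReal_le_ofReal
    rw [tel z]
    have := sq_sum_le_card_mul_sum_sq (s := Finset.range m) (f := fun j => dinc Φ h (R (j * h) z))
    simpa using this
  unfold G2
  calc ∫⁻ z, ENNReal.ofReal (dinc Φ (m * h) z ^ 2) ∂(γ.prod γ)
      ≤ ∫⁻ z, ENNReal.ofReal m * ∑ j ∈ Finset.range m,
          ENNReal.ofReal (dinc Φ h (R (j * h) z) ^ 2) ∂(γ.prod γ) := lintegral_mono hm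
    _ = ENNReal.ofReal m * ∑ j ∈ Finset.range m,
          ∫⁻ z, ENNReal.ofReal (dinc Φ h (R (j * h) z) ^ 2) ∂(γ.prod γ) := by
        have hmeas : ∀ j : ℕ, Measurable fun z => ENNReal.ofReal (dinc Φ h (R (j * h) z) ^ 2) :=
          fun j => (((meas_dinc hΦ h).comp (hmp (j * h)).measurable).pow_const 2).ennreal_ofReal
        rw [lintegral_const_mul _ (Finset.measurable_fun_sum _ fun j _ => hmeas j),
          lintegral_finsetSum _ fun j _ => hmeas j]
    _ = ENNReal.ofReal m * ∑ j ∈ Finset.range m,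
          ∫⁻ z, ENNReal.ofReal (dinc Φ h z ^ 2) ∂(γ.prod γ) := by
        congr 1
        refine Finset.sum_congr rfl fun j _ => ?_
        exact (hmp (j * h)).lintegral_comp (((meas_dinc hΦ h).pow_const 2).ennreal_ofReal)
    _ = _ := by
        rw [Finset.sum_const, Finset.card_range, nsmul_eq_mul, ← mul_assoc]
        congr 1
        rw [← ENNReal.ofReal_natCast, ← ENNReal.ofReal_mul (by positivity)]
        congr 1; ring

theorem G2_half (γ : Measure E) [IsProbabilityMeasure γ] {Φ : E → ℝ} (hΦ : Measurable Φ)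
    (hrot : ∀ θ : ℝ, (γ.prod γ).map (ContinuousLinearMap.rotation θ) = γ.prod γ)
    (hneg : γ.map (fun x => -x) = γ) (h : ℝ) :
    G2 γ Φ h ≤ 2 * ∫⁻ z, ENNReal.ofReal ((max (-dinc Φ h z) 0) ^ 2) ∂(γ.prod γ) := by
  have hmp1 : MeasurePreserving (ContinuousLinearMap.rotation h) (γ.prod γ) (γ.prod γ) :=
    ⟨(ContinuousLinearMap.rotation h).continuous.measurable, hrot h⟩
  have hmpn : MeasurePreserving (fun x : E => -x) γ γ := ⟨measurable_neg, hneg⟩
  have hmp2 : MeasurePreserving (Prod.map id fun x : E => -x) (γ.prod γ) (γ.prod γ) :=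
    (MeasurePreserving.id γ).prod hmpn
  set S : E × E → E × E := fun z => Prod.map id (fun x : E => -x) (ContinuousLinearMap.rotation h z)
    with hS
  have hSmp : MeasurePreserving S (γ.prod γ) (γ.prod γ) := hmp2.comp hmp1
  have hSap : ∀ z, S z = (Real.cos h • z.1 + Real.sin h • z.2,
      Real.sin h • z.1 - Real.cos h • z.2) := by
    intro z
    simp only [hS, ContinuousLinearMap.rotation_apply, Prod.map_apply, id]
    congr 1
    module
  have hd : ∀ z, dinc Φ h (S z) = -dinc Φ h z := by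
    intro z
    unfold dinc
    rw [hSap]
    have e : Real.cos h • (Real.cos h • z.1 + Real.sin h • z.2) +
        Real.sin h • (Real.sin h • z.1 - Real.cos h • z.2) = z.1 := by
      have h1 : Real.cos h • (Real.cos h • z.1 + Real.sin h • z.2) +
        Real.sin h • (Real.sin h • z.1 - Real.cos h • z.2)
        = (Real.sin h ^ 2 + Real.cos h ^ 2) • z.1 := by module
      rw [h1, Real.sin_sq_add_cos_sq, one_smul]
    simp only [e]
    ring
  have hmd := meas_dinc hΦ h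
  have hA : Measurable fun z => ENNReal.ofReal ((max (-dinc Φ h z) 0) ^ 2) :=
    ((hmd.neg.max measurable_const).pow_const 2).ennreal_ofReal
  have hpos : ∫⁻ z, ENNReal.ofReal ((max (dinc Φ h z) 0) ^ 2) ∂(γ.prod γ)
      = ∫⁻ z, ENNReal.ofReal ((max (-dinc Φ h z) 0) ^ 2) ∂(γ.prod γ) := by
    rw [← hSmp.lintegral_comp hA]
    refine lintegral_congr fun z => ?_
    rw [hd, neg_neg]
  have hsplit : ∀ x : ℝ, x ^ 2 = (max x 0) ^ 2 + (max (-x) 0) ^ 2 := by
    intro x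
    rcases le_total 0 x with h0 | h0
    · rw [max_eq_left h0, max_eq_right (by linarith)]; ring
    · rw [max_eq_right h0, max_eq_left (by linarith)]; ring
  unfold G2
  calc ∫⁻ z, ENNReal.ofReal (dinc Φ h z ^ 2) ∂(γ.prod γ)
      = ∫⁻ z, (ENNReal.ofReal ((max (dinc Φ h z) 0) ^ 2) +
          ENNReal.ofReal ((max (-dinc Φ h z) 0) ^ 2)) ∂(γ.prod γ) := by
        refine lintegral_congr fun z => ?_
        rw [← ENNReal.ofReal_add (sq_nonneg _) (sq_nonneg _), ← hsplit]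
    _ = _ := by
        rw [lintegral_add_right _ hA, hpos, two_mul]
    _ ≤ _ := le_rfl

theorem G2_one (γ : Measure E) [IsProbabilityMeasure γ] {Φ : E → ℝ} (hΦ : Measurable Φ) (C L K : ℝ)
    (hK : ∫⁻ x, ENNReal.ofReal (‖x‖ ^ 2) ∂γ ≤ ENNReal.ofReal K) (hK0 : 0 ≤ K)
    (hsub : ∀ x, ∃ p : E →L[ℝ] ℝ, ‖p‖ ≤ C ∧
      (∫⁻ y, ENNReal.ofReal ((p y) ^ 2) ∂γ ≤ ENNReal.ofReal (L ^ 2)) ∧
      ∀ y, Φ x + p (y - x) ≤ Φ y) (h : ℝ) :
    ∫⁻ z, ENNReal.ofReal ((max (-dinc Φ h z) 0) ^ 2) ∂(γ.prod γ) ≤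
      ENNReal.ofReal (2 * (1 - Real.cos h) ^ 2 * (C ^ 2 * K) + 2 * Real.sin h ^ 2 * L ^ 2) := by
  have hmd := meas_dinc hΦ h
  have hA : Measurable fun z => ENNReal.ofReal ((max (-dinc Φ h z) 0) ^ 2) :=
    ((hmd.neg.max measurable_const).pow_const 2).ennreal_ofReal
  rw [lintegral_prod _ hA.aemeasurable]
  have hin : ∀ x, ∫⁻ y, ENNReal.ofReal ((max (-dinc Φ h (x, y)) 0) ^ 2) ∂γ ≤
      ENNReal.ofReal (2 * (1 - Real.cos h) ^ 2 * C ^ 2) * ENNReal.ofReal (‖x‖ ^ 2) +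
        ENNReal.ofReal (2 * Real.sin h ^ 2 * L ^ 2) := by
    intro x
    obtain ⟨p, hp1, hp2, hp3⟩ := hsub x
    have hb : ∀ y, ENNReal.ofReal ((max (-dinc Φ h (x, y)) 0) ^ 2) ≤
        ENNReal.ofReal (2 * (1 - Real.cos h) ^ 2 * C ^ 2) * ENNReal.ofReal (‖x‖ ^ 2) +
        ENNReal.ofReal (2 * Real.sin h ^ 2) * ENNReal.ofReal ((p y) ^ 2) := by
      intro y
      rw [← ENNReal.ofReal_mul (by positivity), ← ENNReal.ofReal_mul (by positivity),
        ← ENNReal.ofReal_add (by positivity) (by positivity)]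
      apply ENNReal.ofReal_le_ofReal
      have h3 := hp3 (Real.cos h • x + Real.sin h • y)
      have e : p (Real.cos h • x + Real.sin h • y - x) = -(1 - Real.cos h) * p x +
          Real.sin h * p y := by
        rw [map_sub, map_add, map_smul, map_smul]
        simp only [smul_eq_mul]; ring
      rw [e] at h3
      have hd : -dinc Φ h (x, y) ≤ (1 - Real.cos h) * p x - Real.sin h * p y := by
        unfold dinc; simp only; linarith
      have hpx : |p x| ≤ C * ‖x‖ := by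
        have := p.le_opNorm x
        rw [Real.norm_eq_abs] at this
        exact this.trans (mul_le_mul_of_nonneg_right hp1 (norm_nonneg _))
      have hpx2 : (p x) ^ 2 ≤ C ^ 2 * ‖x‖ ^ 2 := by
        rw [← mul_pow, ← sq_abs (p x)]
        exact pow_le_pow_left₀ (abs_nonneg _) hpx 2
      have h4 : (max (-dinc Φ h (x, y)) 0) ^ 2 ≤
          ((1 - Real.cos h) * p x - Real.sin h * p y) ^ 2 := by
        rcases le_total (-dinc Φ h (x, y)) 0 with h0 | h0
        · rw [max_eq_right h0]; simp only [ne_eq, OfNat.ofNat_ne_zero, not_false_eq_true,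
            zero_pow]; positivity
        · rw [max_eq_left h0]
          exact pow_le_pow_left₀ h0 hd 2
      calc _ ≤ _ := h4
        _ ≤ 2 * ((1 - Real.cos h) * p x) ^ 2 + 2 * (Real.sin h * p y) ^ 2 := by
            nlinarith [sq_nonneg ((1 - Real.cos h) * p x + Real.sin h * p y)]
        _ ≤ _ := by
            rw [mul_pow, mul_pow]
            nlinarith [mul_le_mul_of_nonneg_left hpx2 (sq_nonneg (1 - Real.cos h))]
    calc _ ≤ ∫⁻ y, (ENNReal.ofReal (2 * (1 - Real.cos h) ^ 2 * C ^ 2) * ENNReal.ofReal (‖x‖ ^ 2) +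
        ENNReal.ofReal (2 * Real.sin h ^ 2) * ENNReal.ofReal ((p y) ^ 2)) ∂γ := lintegral_mono hb
      _ = ENNReal.ofReal (2 * (1 - Real.cos h) ^ 2 * C ^ 2) * ENNReal.ofReal (‖x‖ ^ 2) +
        ENNReal.ofReal (2 * Real.sin h ^ 2) * ∫⁻ y, ENNReal.ofReal ((p y) ^ 2) ∂γ := by
          rw [lintegral_add_left measurable_const, lintegral_const, measure_univ, mul_one,
            lintegral_const_mul]
          exact (p.continuous.measurable.pow_const 2).ennreal_ofReal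
      _ ≤ _ := by
          rw [ENNReal.ofReal_mul (by positivity : (0 : ℝ) ≤ 2 * Real.sin h ^ 2)]
          gcongr
  calc _ ≤ ∫⁻ x, (ENNReal.ofReal (2 * (1 - Real.cos h) ^ 2 * C ^ 2) * ENNReal.ofReal (‖x‖ ^ 2) +
        ENNReal.ofReal (2 * Real.sin h ^ 2 * L ^ 2)) ∂γ := lintegral_mono hin
    _ = ENNReal.ofReal (2 * (1 - Real.cos h) ^ 2 * C ^ 2) * ∫⁻ x, ENNReal.ofReal (‖x‖ ^ 2) ∂γ +
        ENNReal.ofReal (2 * Real.sin h ^ 2 * L ^ 2) := by
          rw [lintegral_add_right _ measurable_const, lintegral_const, measure_univ, mul_one,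
            lintegral_const_mul]
          exact (measurable_norm.pow_const 2).ennreal_ofReal
    _ ≤ ENNReal.ofReal (2 * (1 - Real.cos h) ^ 2 * C ^ 2) * ENNReal.ofReal K +
        ENNReal.ofReal (2 * Real.sin h ^ 2 * L ^ 2) := by gcongr
    _ = _ := by
        rw [← ENNReal.ofReal_mul (by positivity), ← ENNReal.ofReal_add (by positivity)
          (by positivity)]
        congr 1; ring

/-- the bound along the rotations -/
theorem G2_le (γ : Measure E) [IsProbabilityMeasure γ] {Φ : E → ℝ} (hΦ : Measurable Φ) (C L K : ℝ)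
    (hrot : ∀ θ : ℝ, (γ.prod γ).map (ContinuousLinearMap.rotation θ) = γ.prod γ)
    (hneg : γ.map (fun x => -x) = γ)
    (hK : ∫⁻ x, ENNReal.ofReal (‖x‖ ^ 2) ∂γ ≤ ENNReal.ofReal K) (hK0 : 0 ≤ K)
    (hsub : ∀ x, ∃ p : E →L[ℝ] ℝ, ‖p‖ ≤ C ∧
      (∫⁻ y, ENNReal.ofReal ((p y) ^ 2) ∂γ ≤ ENNReal.ofReal (L ^ 2)) ∧
      ∀ y, Φ x + p (y - x) ≤ Φ y) (θ : ℝ) :
    G2 γ Φ θ ≤ ENNReal.ofReal (4 * L ^ 2 * θ ^ 2) := by
  have hm : ∀ m : ℕ, 0 < m → G2 γ Φ θ ≤ ENNReal.ofReal (θ ^ 4 * (C ^ 2 * K) * ((m : ℝ)⁻¹) ^ 2 +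
      4 * L ^ 2 * θ ^ 2) := by
    intro m hm
    have hm' : (0 : ℝ) < m := by exact_mod_cast hm
    have h1 := G2_steps γ hΦ hrot (θ / m) m
    rw [mul_div_cancel₀ _ hm'.ne'] at h1
    have h2 := G2_half γ hΦ hrot hneg (θ / m)
    have h3 := G2_one γ hΦ C L K hK hK0 hsub (θ / m)
    refine h1.trans ?_
    calc _ ≤ ENNReal.ofReal ((m : ℝ) ^ 2) * (ENNReal.ofReal 2 * ENNReal.ofReal
          (2 * (1 - Real.cos (θ / m)) ^ 2 * (C ^ 2 * K) + 2 * Real.sin (θ / m) ^ 2 * L ^ 2)) := by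
          have e2 : ENNReal.ofReal 2 = 2 := by simp
          rw [e2]
          gcongr
          exact h2.trans (by gcongr)
      _ ≤ _ := by
          rw [← ENNReal.ofReal_mul (by norm_num), ← ENNReal.ofReal_mul (by positivity)]
          apply ENNReal.ofReal_le_ofReal
          have hc1 : 0 ≤ 1 - Real.cos (θ / m) := by linarith [Real.cos_le_one (θ / m)]
          have hc2 : 1 - Real.cos (θ / m) ≤ (θ / m) ^ 2 / 2 := by
            linarith [Real.one_sub_sq_div_two_le_cos (x := θ / m)]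
          have hc3 : (1 - Real.cos (θ / m)) ^ 2 ≤ ((θ / m) ^ 2 / 2) ^ 2 :=
            pow_le_pow_left₀ hc1 hc2 2
          have hs : Real.sin (θ / m) ^ 2 ≤ (θ / m) ^ 2 := by
            rw [← sq_abs, ← sq_abs (θ / m)]
            exact pow_le_pow_left₀ (abs_nonneg _) (Real.abs_sin_le_abs) 2
          have hCK : 0 ≤ C ^ 2 * K := by positivity
          have e1 : (m : ℝ) ^ 2 * (2 * (2 * ((θ / m) ^ 2 / 2) ^ 2 * (C ^ 2 * K) +
              2 * (θ / m) ^ 2 * L ^ 2)) = θ ^ 4 * (C ^ 2 * K) * ((m : ℝ)⁻¹) ^ 2 +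
              4 * L ^ 2 * θ ^ 2 := by
            field_simp
            ring
          rw [← e1]
          gcongr
  have hlim : Tendsto (fun m : ℕ => ENNReal.ofReal (θ ^ 4 * (C ^ 2 * K) * ((m : ℝ)⁻¹) ^ 2 +
      4 * L ^ 2 * θ ^ 2)) atTop (𝓝 (ENNReal.ofReal (θ ^ 4 * (C ^ 2 * K) * 0 ^ 2 +
      4 * L ^ 2 * θ ^ 2))) := by
    apply ENNReal.tendsto_ofReal
    have h0 : Tendsto (fun m : ℕ => ((m : ℝ)⁻¹)) atTop (𝓝 0) := tendsto_inv_atTop_nhds_zero_nat
    exact ((h0.pow 2).const_mul _).add_const _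
  have h5 : G2 γ Φ θ ≤ ENNReal.ofReal (θ ^ 4 * (C ^ 2 * K) * 0 ^ 2 + 4 * L ^ 2 * θ ^ 2) :=
    ge_of_tendsto hlim (eventually_atTop.2 ⟨1, fun m hm' => hm m (by omega)⟩)
  simpa using h5

end Pool.Agent.W854.DY
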