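import Pool.Agent.W854.DY.KF
import Pool.Agent.W854.DY.Rot

/-! # The sums of the top eigenvalues of the stationary matrix process -/

set_option autoImplicit false

open MeasureTheory ProbabilityTheory Filter Topology
open scoped ENNReal NNReal

namespace Pool.Agent.W854.DY

/-! ## the Gaussian array -/

theorem gaussArray_eq (n : ℕ) : gaussArray n =
    (stdGaussian (EuclideanSpace ℝ (Fin n × Fin n))).map
      (PiLp.continuousLinearEquiv 2 ℝ (fun _ : Fin n × Fin n => ℝ)) := by
  rw [← map_pi_eq_stdGaussian, Measure.map_map]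
  · have : (PiLp.continuousLinearEquiv 2 ℝ (fun _ : Fin n × Fin n => ℝ)) ∘
        (WithLp.toLp 2 : (Fin n × Fin n → ℝ) → EuclideanSpace ℝ (Fin n × Fin n)) = id := by
      funext x; rfl
    rw [this, Measure.map_id]
    rfl
  · exact (PiLp.continuousLinearEquiv 2 ℝ (fun _ : Fin n × Fin n => ℝ)).continuous.measurable
  · fun_prop

instance gaussArray_isGaussian (n : ℕ) : IsGaussian (gaussArray n) := by
  rw [gaussArray_eq]
  infer_instance

theorem gaussArray_mean (n : ℕ) : ∫ x, id x ∂(gaussArray n) = 0 := by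
  rw [gaussArray_eq, integral_map]
  · simp only [id]
    rw [ContinuousLinearEquiv.integral_comp_comm, integral_id_stdGaussian, map_zero]
  · exact (PiLp.continuousLinearEquiv 2 ℝ
      (fun _ : Fin n × Fin n => ℝ)).continuous.measurable.aemeasurable
  · exact aestronglyMeasurable_id

theorem gaussArray_rot (n : ℕ) (θ : ℝ) : ((gaussArray n).prod (gaussArray n)).map
    (ContinuousLinearMap.rotation θ) = (gaussArray n).prod (gaussArray n) :=
  IsGaussian.map_rotation_eq_self (gaussArray_mean n) θ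

theorem gaussArray_neg (n : ℕ) : (gaussArray n).map (fun x => -x) = gaussArray n := by
  have h1 := gaussArray_rot n Real.pi
  have h2 : (((gaussArray n).prod (gaussArray n)).map
    (ContinuousLinearMap.rotation Real.pi)).map Prod.fst = gaussArray n := by
    rw [h1, Measure.map_fst_prod]; simp
  rw [Measure.map_map measurable_fst
    (ContinuousLinearMap.rotation Real.pi).continuous.measurable] at h2
  have h3 : Prod.fst ∘ (ContinuousLinearMap.rotation Real.pi :
      (Fin n × Fin n → ℝ) × (Fin n × Fin n → ℝ) →L[ℝ] _) = (fun x => -x) ∘ Prod.fst := by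
    funext z
    simp [ContinuousLinearMap.rotation_apply]
  rw [h3, ← Measure.map_map measurable_neg measurable_fst, Measure.map_fst_prod] at h2
  simpa using h2

theorem gaussArray_sq (n : ℕ) : ∫⁻ x, ENNReal.ofReal (‖x‖ ^ 2) ∂(gaussArray n) =
    ENNReal.ofReal (∫ x, ‖x‖ ^ 2 ∂(gaussArray n)) := by
  have h : MemLp id 2 (gaussArray n) := IsGaussian.memLp_two_id
  have h2 : Integrable (fun x : Fin n × Fin n → ℝ => ‖x‖ ^ 2) (gaussArray n) := by
    have := h.integrable_norm_pow (by norm_num)
    simpa using this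
  rw [ofReal_integral_eq_lintegral_ofReal h2 (Eventually.of_forall fun x => by positivity)]

theorem gaussArray_lin (n : ℕ) (c : Fin n × Fin n → ℝ) :
    ∫⁻ y, ENNReal.ofReal ((∑ i, c i * y i) ^ 2) ∂(gaussArray n) = ENNReal.ofReal (∑ i, c i ^ 2) := by
  have hml : MemLp (fun y : Fin n × Fin n → ℝ => ∑ i, c i * y i) 2 (gaussArray n) := by
    have h : ∀ i, MemLp (fun y : Fin n × Fin n → ℝ => c i * y i) 2 (gaussArray n) := by
      intro i
      have h1 : MemLp (fun y : Fin n × Fin n → ℝ => y i) 2 (gaussArray n) := by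
        have := IsGaussian.memLp_dual (gaussArray n)
          (ContinuousLinearMap.proj (R := ℝ) (φ := fun _ : Fin n × Fin n => ℝ) i) 2 (by norm_num)
        exact this
      exact h1.const_mul _
    have := memLp_finsetSum Finset.univ (fun i _ => h i)
    simpa using this
  have hm : ∫ y, (∑ i, c i * y i) ∂(gaussArray n) = 0 := by
    have := IsGaussian.integral_dual (μ := gaussArray n) (∑ i, c i • ContinuousLinearMap.proj (R := ℝ)
      (φ := fun _ : Fin n × Fin n => ℝ) i)
    have h0 : ∫ x, x ∂(gaussArray n) = 0 := gaussArray_mean n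
    rw [h0, map_zero] at this
    simpa using this
  have hv : Var[fun y : Fin n × Fin n → ℝ => ∑ i, c i * y i; gaussArray n] = ∑ i, c i ^ 2 := by
    have h1 := variance_sum_pi (μ := fun _ : Fin n × Fin n => gaussianReal 0 1)
      (X := fun i x => c i * x) (fun i => IsGaussian.memLp_two_id.const_mul _)
    have e : (∑ i, fun x : Fin n × Fin n → ℝ => c i * x i) =
        fun y : Fin n × Fin n → ℝ => ∑ i, c i * y i := by
      funext x; simp
    rw [e] at h1
    unfold gaussArray
    rw [h1]
    refine Finset.sum_congr rfl fun i _ => ?_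
    change Var[fun x ↦ c i * (id x); gaussianReal 0 1] = _
    rw [variance_const_mul, variance_id_gaussianReal]
    simp
  have h3 : ∫ y, (∑ i, c i * y i) ^ 2 ∂(gaussArray n) = ∑ i, c i ^ 2 := by
    rw [← hv, variance_of_integral_eq_zero hml.aestronglyMeasurable.aemeasurable hm]
  rw [← h3, ofReal_integral_eq_lintegral_ofReal hml.integrable_sq
    (Eventually.of_forall fun x => sq_nonneg _)]

/-! ## the subgradients -/

/-- the sum of the top `k` eigenvalues as a function of the array -/
noncomputable def Phi (n k : ℕ) (g : Fin n × Fin n → ℝ) : ℝ := topSum (symMat_isHermitian g) k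

/-- the coefficients of the subgradient -/
noncomputable def coef {n k : ℕ} (u : Fin k → EuclideanSpace ℝ (Fin n)) (q : Fin n × Fin n) : ℝ :=
  √2 * ∑ i, u i q.1 * u i q.2

theorem sum_qf_symMat {n k : ℕ} (u : Fin k → EuclideanSpace ℝ (Fin n)) (y : Fin n × Fin n → ℝ) :
    ∑ i, qf (symMat y) (u i) = ∑ q, coef u q * y q := by
  have h2 : (√2 : ℝ) ≠ 0 := by positivity
  have h22 : (√2 : ℝ) * √2 = 2 := Real.mul_self_sqrt (by norm_num)
  have e1 : ∀ v : Fin n → ℝ, qf (symMat y) v = ∑ q : Fin n × Fin n, √2 * (v q.1 * v q.2) * y q := by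
    intro v
    unfold qf symMat
    rw [Fintype.sum_prod_type]
    have hsw : ∑ a, ∑ b, y (b, a) * v a * v b = ∑ a, ∑ b, y (a, b) * v a * v b := by
      rw [Finset.sum_comm]
      refine Finset.sum_congr rfl fun a _ => Finset.sum_congr rfl fun b _ => by ring
    have : ∑ a, ∑ b, (Matrix.of fun i j => (y (i, j) + y (j, i)) / √2) a b * v a * v b
        = (√2)⁻¹ * (∑ a, ∑ b, y (a, b) * v a * v b + ∑ a, ∑ b, y (b, a) * v a * v b) := by
      rw [← Finset.sum_add_distrib, Finset.mul_sum]
      refine Finset.sum_congr rfl fun a _ => ?_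
      rw [← Finset.sum_add_distrib, Finset.mul_sum]
      refine Finset.sum_congr rfl fun b _ => ?_
      simp only [Matrix.of_apply]
      field_simp
    rw [this, hsw, ← two_mul, ← mul_assoc]
    have h3 : (√2 : ℝ)⁻¹ * 2 = √2 := by
      field_simp
      rw [sq]; exact h22.symm
    rw [h3, Finset.mul_sum]
    refine Finset.sum_congr rfl fun a _ => ?_
    rw [Finset.mul_sum]
    refine Finset.sum_congr rfl fun b _ => ?_
    ring
  rw [Finset.sum_congr rfl fun i _ => e1 (u i), Finset.sum_comm]
  refine Finset.sum_congr rfl fun q _ => ?_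
  unfold coef
  rw [Finset.mul_sum, Finset.sum_mul]

theorem coef_sq {n k : ℕ} (u : Fin k → EuclideanSpace ℝ (Fin n)) (hu : Orthonormal ℝ u) :
    ∑ q, coef u q ^ 2 = 2 * k := by
  have h22 : (√2 : ℝ) ^ 2 = 2 := Real.sq_sqrt (by norm_num)
  have h1 : ∀ q, coef u q ^ 2 = 2 * ∑ i, ∑ j, (u i q.1 * u j q.1) * (u i q.2 * u j q.2) := by
    intro q
    unfold coef
    rw [mul_pow, h22, sq, Finset.sum_mul_sum]
    congr 1
    refine Finset.sum_congr rfl fun i _ => Finset.sum_congr rfl fun j _ => by ring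
  rw [Finset.sum_congr rfl fun q _ => h1 q, ← Finset.mul_sum]
  congr 1
  rw [Finset.sum_comm]
  have h3 : ∀ i, ∑ q : Fin n × Fin n, ∑ j, (u i q.1 * u j q.1) * (u i q.2 * u j q.2) = 1 := by
    intro i
    rw [Finset.sum_comm]
    have h4 : ∀ j, ∑ q : Fin n × Fin n, (u i q.1 * u j q.1) * (u i q.2 * u j q.2) =
        (if i = j then 1 else 0) := by
      intro j
      rw [Fintype.sum_prod_type]
      simp only
      rw [← Finset.sum_mul_sum, ← inn_eq]
      have := (orthonormal_iff_ite.1 hu) i j
      rw [this]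
      split_ifs <;> norm_num
    rw [Finset.sum_congr rfl fun j _ => h4 j]
    simp
  rw [Finset.sum_congr rfl fun i _ => h3 i]
  simp

theorem abs_coord_le {n k : ℕ} (u : Fin k → EuclideanSpace ℝ (Fin n)) (hu : Orthonormal ℝ u)
    (i : Fin k) (a : Fin n) : |u i a| ≤ 1 := by
  have h1 : ‖u i a‖ ≤ ‖u i‖ := PiLp.norm_apply_le (u i) a
  rwa [hu.1 i, Real.norm_eq_abs] at h1

theorem abs_coef_le {n k : ℕ} (u : Fin k → EuclideanSpace ℝ (Fin n)) (hu : Orthonormal ℝ u)
    (q : Fin n × Fin n) : |coef u q| ≤ √2 * k := by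
  unfold coef
  rw [abs_mul, abs_of_nonneg (Real.sqrt_nonneg 2)]
  refine mul_le_mul_of_nonneg_left ?_ (Real.sqrt_nonneg 2)
  refine (Finset.abs_sum_le_sum_abs _ _).trans ?_
  calc ∑ i, |u i q.1 * u i q.2| ≤ ∑ i : Fin k, (1 : ℝ) := by
        refine Finset.sum_le_sum fun i _ => ?_
        rw [abs_mul]
        have := abs_coord_le u hu i q.1
        have := abs_coord_le u hu i q.2
        nlinarith [abs_nonneg (u i q.1), abs_nonneg (u i q.2)]
    _ = k := by simp

theorem Phi_sub (n k : ℕ) (hk : k ≤ n) (x : Fin n × Fin n → ℝ) :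
    ∃ p : (Fin n × Fin n → ℝ) →L[ℝ] ℝ, ‖p‖ ≤ (n : ℝ) ^ 2 * (√2 * k) ∧
      (∫⁻ y, ENNReal.ofReal ((p y) ^ 2) ∂(gaussArray n) ≤ ENNReal.ofReal ((√(2 * k)) ^ 2)) ∧
      ∀ y, Phi n k x + p (y - x) ≤ Phi n k y := by
  set u := topVec (symMat_isHermitian x) k hk with hu
  have huo : Orthonormal ℝ u := topVec_orthonormal (symMat_isHermitian x) k hk
  refine ⟨∑ q, coef u q • ContinuousLinearMap.proj (R := ℝ) (φ := fun _ : Fin n × Fin n => ℝ) q,
    ?_, ?_, ?_⟩
  · refine (norm_sum_le _ _).trans ?_
    calc _ ≤ ∑ q : Fin n × Fin n, √2 * (k : ℝ) := by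
          refine Finset.sum_le_sum fun q _ => ?_
          rw [norm_smul, Real.norm_eq_abs]
          have h1 : ‖ContinuousLinearMap.proj (R := ℝ) (φ := fun _ : Fin n × Fin n => ℝ) q‖ ≤ 1 := by
            refine ContinuousLinearMap.opNorm_le_bound _ zero_le_one fun z => ?_
            rw [one_mul]
            exact norm_le_pi_norm z q
          calc _ ≤ (√2 * k) * 1 := mul_le_mul (abs_coef_le u huo q) h1 (norm_nonneg _)
                (by positivity)
            _ = _ := mul_one _
      _ = _ := by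
          rw [Finset.sum_const, Finset.card_univ, Fintype.card_prod, Fintype.card_fin, nsmul_eq_mul]
          push_cast; ring
  · have e : ∀ y, (∑ q, coef u q • ContinuousLinearMap.proj (R := ℝ)
        (φ := fun _ : Fin n × Fin n => ℝ) q) y = ∑ q, coef u q * y q := by
      intro y; simp
    simp_rw [e]
    rw [gaussArray_lin, coef_sq u huo, Real.sq_sqrt (by positivity)]
  · intro y
    have e : ∀ y, (∑ q, coef u q • ContinuousLinearMap.proj (R := ℝ)
        (φ := fun _ : Fin n × Fin n => ℝ) q) y = ∑ q, coef u q * y q := by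
      intro y; simp
    rw [map_sub, e, e, ← sum_qf_symMat, ← sum_qf_symMat]
    have h1 : ∑ i, qf (symMat x) (u i) = Phi n k x := kyfan_eq (symMat_isHermitian x) k hk
    have h2 : ∑ i, qf (symMat y) (u i) ≤ Phi n k y := kyfan_le (symMat_isHermitian y) k hk u huo
    linarith

theorem Phi_lip (n k : ℕ) (hk : k ≤ n) (x y : Fin n × Fin n → ℝ) :
    |Phi n k x - Phi n k y| ≤ (n : ℝ) ^ 2 * (√2 * k) * ‖x - y‖ := by
  have h : ∀ x y : Fin n × Fin n → ℝ, Phi n k x - Phi n k y ≤
      (n : ℝ) ^ 2 * (√2 * k) * ‖x - y‖ := by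
    intro x y
    obtain ⟨p, hp1, -, hp3⟩ := Phi_sub n k hk x
    have h1 := hp3 y
    have h2 := p.le_opNorm (y - x)
    rw [Real.norm_eq_abs] at h2
    have h3 := neg_abs_le (p (y - x))
    have h4 : ‖p‖ * ‖y - x‖ ≤ (n : ℝ) ^ 2 * (√2 * k) * ‖x - y‖ := by
      rw [norm_sub_rev y x]
      exact mul_le_mul_of_nonneg_right hp1 (norm_nonneg _)
    linarith
  rw [abs_le]
  constructor
  · have := h y x
    rw [norm_sub_rev] at this
    linarith
  · exact h x y

theorem Phi_continuous (n k : ℕ) (hk : k ≤ n) : Continuous (Phi n k) := by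
  have : LipschitzWith (Real.toNNReal ((n : ℝ) ^ 2 * (√2 * k))) (Phi n k) := by
    refine LipschitzWith.of_dist_le_mul fun x y => ?_
    rw [Real.dist_eq, dist_eq_norm, Real.coe_toNNReal _ (by positivity)]
    exact Phi_lip n k hk x y
  exact this.continuous

theorem topEig_continuous (n j : ℕ) :
    Continuous fun g : Fin n × Fin n → ℝ => topEig (symMat_isHermitian g) j := by
  by_cases hj : j < n
  · have e : (fun g : Fin n × Fin n → ℝ => topEig (symMat_isHermitian g) j) =
        fun g => Phi n (j + 1) g - Phi n j g := by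
      funext g
      unfold Phi topSum
      rw [Finset.sum_range_succ]; ring
    rw [e]
    exact (Phi_continuous n (j + 1) hj).sub (Phi_continuous n j hj.le)
  · have e : (fun g : Fin n × Fin n → ℝ => topEig (symMat_isHermitian g) j) = fun _ => 0 := by
      funext g
      unfold topEig
      rw [dif_neg (by simpa using hj)]
    rw [e]; exact continuous_const

/-- the second moment of the change of the sum of the top `k` eigenvalues -/
theorem Phi_change (n k : ℕ) (hk : k ≤ n) (θ : ℝ) :
    ∫⁻ z, ENNReal.ofReal ((Phi n k (Real.cos θ • z.1 + Real.sin θ • z.2) - Phi n k z.1) ^ 2)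
      ∂((gaussArray n).prod (gaussArray n)) ≤ ENNReal.ofReal (8 * k * θ ^ 2) := by
  have h := G2_le (gaussArray n) (Phi_continuous n k hk).measurable ((n : ℝ) ^ 2 * (√2 * k))
    (√(2 * k)) (∫ x, ‖x‖ ^ 2 ∂(gaussArray n)) (gaussArray_rot n) (gaussArray_neg n)
    (gaussArray_sq n).le (integral_nonneg fun x => by positivity) (Phi_sub n k hk) θ
  unfold G2 dinc at h
  refine h.trans (ENNReal.ofReal_le_ofReal ?_)
  rw [Real.sq_sqrt (by positivity)]
  nlinarith [sq_nonneg θ]

end Pool.Agent.W854.DY
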