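import Pool.Agent.W854.DY.Form

/-! # Form bounds for paths with controlled oscillation -/

set_option autoImplicit false

open MeasureTheory Filter Topology Set
open scoped NNReal

namespace Pool.Agent.W854.DY

/-- the oscillation of the path over unit intervals is controlled -/
def Good (C : ℝ) (b : ℝ≥0 → ℝ) : Prop :=
  ∀ x y : ℝ≥0, x ≤ y → y ≤ x + 1 → (b y - b x) ^ 2 ≤ x / 18 + C

theorem iadd {F G : ℝ → ℝ} (hF : Integrable F) (hG : Integrable G) :
    ∫ x in Ioi (0 : ℝ), (F x + G x) = (∫ x in Ioi (0 : ℝ), F x) + ∫ x in Ioi (0 : ℝ), G x :=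
  integral_add hF.integrableOn hG.integrableOn

theorem isub {F G : ℝ → ℝ} (hF : Integrable F) (hG : Integrable G) :
    ∫ x in Ioi (0 : ℝ), (F x - G x) = (∫ x in Ioi (0 : ℝ), F x) - ∫ x in Ioi (0 : ℝ), G x :=
  integral_sub hF.integrableOn hG.integrableOn

/-- the average over unit intervals -/
noncomputable def avg (b : ℝ≥0 → ℝ) (x : ℝ) : ℝ := ∫ y in x..(x + 1), b y.toNNReal

theorem avg_deriv {b : ℝ≥0 → ℝ} (hb : Continuous b) (x : ℝ) :
    HasDerivAt (avg b) (b (x + 1).toNNReal - b x.toNNReal) x := by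
  have hc := cont_b hb
  have e : avg b = fun x => (∫ y in (0 : ℝ)..(x + 1), b y.toNNReal) -
      ∫ y in (0 : ℝ)..x, b y.toNNReal := by
    funext x
    unfold avg
    rw [intervalIntegral.integral_interval_sub_left (hc.intervalIntegrable _ _)
      (hc.intervalIntegrable _ _)]
  rw [e]
  have h1 : ∀ z : ℝ, HasDerivAt (fun x => ∫ y in (0 : ℝ)..x, b y.toNNReal) (b z.toNNReal) z :=
    fun z => intervalIntegral.integral_hasDerivAt_right (hc.intervalIntegrable _ _)
      (hc.stronglyMeasurableAtFilter _ _) hc.continuousAt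
  have h2 : HasDerivAt (fun x : ℝ => x + 1) 1 x := (hasDerivAt_id x).add_const 1
  have h3 := (h1 (x + 1)).comp x h2
  simp only [mul_one] at h3
  exact h3.sub (h1 x)

theorem avg_cont {b : ℝ≥0 → ℝ} (hb : Continuous b) : Continuous (avg b) :=
  continuous_iff_continuousAt.2 fun x => (avg_deriv hb x).continuousAt

theorem avg_sub {b : ℝ≥0 → ℝ} (hb : Continuous b) {C : ℝ} (hC : 0 ≤ C) (hg : Good C b) {x : ℝ}
    (hx : 0 ≤ x) : (avg b x - b x.toNNReal) ^ 2 ≤ x / 18 + C := by
  have hc := cont_b hb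
  have h0 : 0 ≤ x / 18 + C := by positivity
  have e : avg b x - b x.toNNReal = ∫ y in x..(x + 1), (b y.toNNReal - b x.toNNReal) := by
    rw [intervalIntegral.integral_sub (hc.intervalIntegrable _ _)
      (continuous_const.intervalIntegrable _ _)]
    simp [avg]
  have h1 : ‖avg b x - b x.toNNReal‖ ≤ √(x / 18 + C) * |x + 1 - x| := by
    rw [e]
    apply intervalIntegral.norm_integral_le_of_norm_le_const
    intro y hy
    rw [uIoc_of_le (by linarith)] at hy
    have hy0 : 0 ≤ y := hx.trans hy.1.le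
    rw [Real.norm_eq_abs]
    apply Real.abs_le_sqrt
    have := hg x.toNNReal y.toNNReal (Real.toNNReal_le_toNNReal hy.1.le) (by
      rw [← NNReal.coe_le_coe]
      push_cast
      rw [Real.coe_toNNReal _ hy0, Real.coe_toNNReal _ hx]
      exact hy.2)
    rwa [Real.coe_toNNReal _ hx] at this
  rw [show x + 1 - x = 1 by ring, abs_one, mul_one, Real.norm_eq_abs] at h1
  calc (avg b x - b x.toNNReal) ^ 2 = |avg b x - b x.toNNReal| ^ 2 := (sq_abs _).symm
    _ ≤ (√(x / 18 + C)) ^ 2 := pow_le_pow_left₀ (abs_nonneg _) h1 2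
    _ = _ := Real.sq_sqrt h0

/-- `∫ f'²` -/
noncomputable def J1 (f : ℝ → ℝ) : ℝ := ∫ x in Ioi (0 : ℝ), deriv f x ^ 2

/-- `∫ x f²` -/
noncomputable def Jx (f : ℝ → ℝ) : ℝ := ∫ x in Ioi (0 : ℝ), x * f x ^ 2

/-- `∫ f²` -/
noncomputable def J0 (f : ℝ → ℝ) : ℝ := ∫ x in Ioi (0 : ℝ), f x ^ 2

theorem form_bound {b : ℝ≥0 → ℝ} (hb : Continuous b) {C : ℝ} (hC : 0 ≤ C) (hg : Good C b)
    {f : ℝ → ℝ} (hf : IsTest f) :
    |form b f - (J1 f + Jx f)| ≤ 1 / 2 * J1 f + 1 / 2 * Jx f + (9 * C + 1) * J0 f := by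
  have hfc := hf.cont
  have hfd := hf.deriv_cont
  have hbc := cont_b hb
  have hac := avg_cont hb
  have hbc1 : Continuous fun x : ℝ => b (x + 1).toNNReal := hbc.comp (by fun_prop)
  -- integration by parts
  have hibp : ∫ x in Ioi (0 : ℝ), 2 * f x * deriv f x * avg b x =
      -∫ x in Ioi (0 : ℝ), f x ^ 2 * (b (x + 1).toNNReal - b x.toNNReal) := by
    rw [int_Ioi hf (F := fun x => 2 * f x * deriv f x * avg b x) (fun x h _ => by simp [h]),
      int_Ioi hf (F := fun x => f x ^ 2 * (b (x + 1).toNNReal - b x.toNNReal))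
        (fun x h _ => by simp [h])]
    have hu : ∀ x, HasDerivAt (fun x => f x ^ 2) (2 * f x * deriv f x) x := by
      intro x
      have := (hf.diff x).hasDerivAt.fun_pow 2
      simpa using this
    have := integral_mul_deriv_eq_deriv_mul_of_integrable (u := fun x => f x ^ 2)
      (v := avg b) (u' := fun x => 2 * f x * deriv f x)
      (v' := fun x => b (x + 1).toNNReal - b x.toNNReal) (fun x _ => hu x)
      (fun x _ => avg_deriv hb x) ?_ ?_ ?_
    · rw [this, neg_neg]
    · exact intg hf (by fun_prop) (fun x h _ => by simp [h])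
    · exact intg hf (by fun_prop) (fun x h _ => by simp [h])
    · exact intg hf (by fun_prop) (fun x h _ => by simp [h])
  set R : ℝ → ℝ := fun x => 4 * (f x * deriv f x) * (avg b x - b x.toNNReal) +
    2 * (f x ^ 2 * (b (x + 1).toNNReal - b x.toNNReal)) with hR
  have hRi : Integrable R := intg hf (by fun_prop) (fun x h _ => by simp [hR, h])
  have h1i : Integrable fun x => deriv f x ^ 2 := intg hf (by fun_prop) (fun x _ h => by simp [h])
  have hxi : Integrable fun x => x * f x ^ 2 := intg hf (by fun_prop) (fun x h _ => by simp [h])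
  have h0i : Integrable fun x => f x ^ 2 := intg hf (by fun_prop) (fun x h _ => by simp [h])
  have h2i : Integrable fun x => 2 * f x * deriv f x * avg b x :=
    intg hf (by fun_prop) (fun x h _ => by simp [h])
  have h3i : Integrable fun x => f x ^ 2 * (b (x + 1).toNNReal - b x.toNNReal) :=
    intg hf (by fun_prop) (fun x h _ => by simp [h])
  have hform : form b f - (J1 f + Jx f) = ∫ x in Ioi (0 : ℝ), R x := by
    have e1 : form b f = J1 f + Jx f + (∫ x in Ioi (0 : ℝ), R x) -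
        2 * (∫ x in Ioi (0 : ℝ), 2 * f x * deriv f x * avg b x) -
        2 * ∫ x in Ioi (0 : ℝ), f x ^ 2 * (b (x + 1).toNNReal - b x.toNNReal) := by
      unfold form J1 Jx
      rw [← integral_const_mul, ← integral_const_mul, ← iadd h1i hxi,
        ← iadd (F := fun x => deriv f x ^ 2 + x * f x ^ 2) (h1i.add hxi) hRi,
        ← isub (F := fun x => deriv f x ^ 2 + x * f x ^ 2 + R x)
          ((h1i.add hxi).add hRi) (h2i.const_mul 2),
        ← isub (F := fun x => deriv f x ^ 2 + x * f x ^ 2 + R x -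
          2 * (2 * f x * deriv f x * avg b x))
          (((h1i.add hxi).add hRi).sub (h2i.const_mul 2)) (h3i.const_mul 2)]
      refine integral_congr_ae (Eventually.of_forall fun x => ?_)
      simp only [hR]
      ring
    rw [e1, hibp]; ring
  rw [hform]
  have hb' : ∀ x ∈ Ioi (0 : ℝ), ‖R x‖ ≤ 1 / 2 * deriv f x ^ 2 + 1 / 2 * (x * f x ^ 2) +
      (9 * C + 1) * f x ^ 2 := by
    intro x hx
    have hx0 : 0 ≤ x := le_of_lt hx
    have h1 := avg_sub hb hC hg hx0
    have h2 : (b (x + 1).toNNReal - b x.toNNReal) ^ 2 ≤ x / 18 + C := by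
      have := hg x.toNNReal (x + 1).toNNReal (Real.toNNReal_le_toNNReal (by linarith)) (by
        rw [← NNReal.coe_le_coe]
        push_cast
        rw [Real.coe_toNNReal _ (by linarith), Real.coe_toNNReal _ hx0])
      rwa [Real.coe_toNNReal _ hx0] at this
    set δ := avg b x - b x.toNNReal
    set ε := b (x + 1).toNNReal - b x.toNNReal
    rw [Real.norm_eq_abs]
    have h3 : 0 ≤ f x ^ 2 := sq_nonneg _
    have h4 : f x ^ 2 * δ ^ 2 ≤ f x ^ 2 * (x / 18 + C) := mul_le_mul_of_nonneg_left h1 h3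
    have h5 : f x ^ 2 * ε ^ 2 ≤ f x ^ 2 * (x / 18 + C) := mul_le_mul_of_nonneg_left h2 h3
    have h6 : |4 * (f x * deriv f x) * δ| ≤ 1 / 2 * deriv f x ^ 2 + 8 * (f x ^ 2 * δ ^ 2) := by
      rw [abs_le]
      constructor
      · nlinarith [sq_nonneg (deriv f x + 4 * (f x * δ))]
      · nlinarith [sq_nonneg (deriv f x - 4 * (f x * δ))]
    have h7 : |2 * (f x ^ 2 * ε)| ≤ f x ^ 2 + f x ^ 2 * ε ^ 2 := by
      rw [abs_le]
      constructor
      · nlinarith [mul_nonneg h3 (sq_nonneg (1 + ε))]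
      · nlinarith [mul_nonneg h3 (sq_nonneg (1 - ε))]
    calc |4 * (f x * deriv f x) * δ + 2 * (f x ^ 2 * ε)| ≤
          |4 * (f x * deriv f x) * δ| + |2 * (f x ^ 2 * ε)| := abs_add_le _ _
      _ ≤ _ := by nlinarith
  have h8 := norm_integral_le_of_norm_le (μ := volume.restrict (Ioi (0 : ℝ)))
    (((h1i.const_mul (1 / 2)).add (hxi.const_mul (1 / 2))).add
      (h0i.const_mul (9 * C + 1))).integrableOn
    ((ae_restrict_iff' measurableSet_Ioi).2 (Eventually.of_forall hb'))
  rw [Real.norm_eq_abs] at h8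
  refine h8.trans (le_of_eq ?_)
  have e2 : ∫ x in Ioi (0 : ℝ), (1 / 2 * deriv f x ^ 2 + 1 / 2 * (x * f x ^ 2) +
      (9 * C + 1) * f x ^ 2) = 1 / 2 * J1 f + 1 / 2 * Jx f + (9 * C + 1) * J0 f := by
    unfold J1 Jx J0
    rw [← integral_const_mul, ← integral_const_mul, ← integral_const_mul,
      ← iadd (h1i.const_mul _) (hxi.const_mul _),
      ← iadd (F := fun x => 1 / 2 * deriv f x ^ 2 + 1 / 2 * (x * f x ^ 2))
        ((h1i.const_mul _).add (hxi.const_mul _)) (h0i.const_mul _)]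
  exact e2

theorem J1_nonneg (f : ℝ → ℝ) : 0 ≤ J1 f := integral_nonneg fun _ => sq_nonneg _

theorem J0_nonneg (f : ℝ → ℝ) : 0 ≤ J0 f := integral_nonneg fun _ => sq_nonneg _

theorem Jx_nonneg (f : ℝ → ℝ) : 0 ≤ Jx f := by
  refine setIntegral_nonneg measurableSet_Ioi fun x hx => ?_
  have : (0 : ℝ) < x := hx
  positivity

theorem form_lower {b : ℝ≥0 → ℝ} (hb : Continuous b) {C : ℝ} (hC : 0 ≤ C) (hg : Good C b)
    {f : ℝ → ℝ} (hf : IsTest f) :
    1 / 2 * J1 f + 1 / 2 * Jx f - (9 * C + 1) * J0 f ≤ form b f := by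
  have := (abs_le.1 (form_bound hb hC hg hf)).1
  linarith

theorem form_upper {b : ℝ≥0 → ℝ} (hb : Continuous b) {C : ℝ} (hC : 0 ≤ C) (hg : Good C b)
    {f : ℝ → ℝ} (hf : IsTest f) :
    form b f ≤ 3 / 2 * J1 f + 3 / 2 * Jx f + (9 * C + 1) * J0 f := by
  have := (abs_le.1 (form_bound hb hC hg hf)).2
  linarith

theorem good_Bd {b : ℝ≥0 → ℝ} (hb : Continuous b) {C : ℝ} (hC : 0 ≤ C) (hg : Good C b) :
    Bd (9 * C + 1) b := by
  intro f hf
  have h1 := form_lower hb hC hg hf
  have h2 := J1_nonneg f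
  have h3 := Jx_nonneg f
  have e : ∫ x in Ioi (0 : ℝ), f x ^ 2 = J0 f := rfl
  rw [e]
  linarith

end Pool.Agent.W854.DY
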