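import Pool.Agent.W854.DY.Defs

/-! # Ky Fan's principle for real symmetric matrices -/

set_option autoImplicit false

open MeasureTheory ProbabilityTheory Filter Topology
open scoped ENNReal NNReal

namespace Pool.Agent.W854.DY

/-- the quadratic form of a matrix -/
noncomputable def qf {n : ℕ} (A : Matrix (Fin n) (Fin n) ℝ) (v : Fin n → ℝ) : ℝ :=
  ∑ a, ∑ b, A a b * v a * v b

/-- the sum of the `k` largest eigenvalues -/
noncomputable def topSum {n : ℕ} {A : Matrix (Fin n) (Fin n) ℝ} (hA : A.IsHermitian) (k : ℕ) : ℝ :=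
  ∑ j ∈ Finset.range k, topEig hA j

theorem sum_weights (N k : ℕ) (hk : k ≤ N) (μ w : Fin N → ℝ) (hμ : Antitone μ)
    (hw0 : ∀ j, 0 ≤ w j) (hw1 : ∀ j, w j ≤ 1) (hw : ∑ j, w j = k) :
    ∑ j, μ j * w j ≤ ∑ j : Fin N, if (j : ℕ) < k then μ j else 0 := by
  rcases Nat.eq_zero_or_pos k with h0 | h0
  · subst h0
    have hz : ∀ j, w j = 0 := by
      intro j
      have := (Finset.sum_eq_zero_iff_of_nonneg (fun j _ => hw0 j)).1 (by simpa using hw) j
        (Finset.mem_univ _)
      exact this
    simp [hz]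
  · set c := μ ⟨k - 1, by omega⟩ with hc
    have hcard : (∑ j : Fin N, if (j : ℕ) < k then (1 : ℝ) else 0) = k := by
      rw [Finset.sum_ite, Finset.sum_const_zero, add_zero, Finset.sum_const, nsmul_eq_mul, mul_one]
      congr 1
      have : (Finset.univ.filter fun j : Fin N => (j : ℕ) < k) =
          (Finset.univ : Finset (Fin k)).map (Fin.castLEEmb hk) := by
        ext j
        simp only [Finset.mem_filter, Finset.mem_univ, true_and, Finset.mem_map]
        constructor
        · intro h; exact ⟨⟨j, h⟩, by ext; rfl⟩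
        · rintro ⟨i, rfl⟩; exact i.2
      rw [this]; simp
    have hterm : ∀ j : Fin N, μ j * w j ≤ (if (j : ℕ) < k then μ j else 0) + c * w j -
        c * (if (j : ℕ) < k then (1 : ℝ) else 0) := by
      intro j
      split_ifs with h
      · have : c ≤ μ j := hμ (by rw [Fin.le_def]; simp only; omega)
        nlinarith [hw1 j]
      · have : μ j ≤ c := hμ (by rw [Fin.le_def]; simp only; omega)
        nlinarith [hw0 j]
    calc ∑ j, μ j * w j ≤ ∑ j : Fin N, ((if (j : ℕ) < k then μ j else 0) + c * w j -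
        c * (if (j : ℕ) < k then (1 : ℝ) else 0)) := Finset.sum_le_sum fun j _ => hterm j
      _ = _ := by
        rw [Finset.sum_sub_distrib, Finset.sum_add_distrib, ← Finset.mul_sum, ← Finset.mul_sum,
          hw, hcard]
        ring

section

variable {n : ℕ} {A : Matrix (Fin n) (Fin n) ℝ} (hA : A.IsHermitian)

theorem inn_eq (x y : EuclideanSpace ℝ (Fin n)) : inner ℝ x y = ∑ i, x i * y i := by
  rw [PiLp.inner_apply]
  refine Finset.sum_congr rfl fun i _ => ?_
  simp [mul_comm]

include hA in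
theorem qf_eq (v : EuclideanSpace ℝ (Fin n)) : qf A v =
    ∑ j, hA.eigenvalues j * (inner ℝ (hA.eigenvectorBasis j) v) ^ 2 := by
  set w := hA.eigenvectorBasis with hw
  have eig : ∀ j i, ∑ l, A i l * w j l = hA.eigenvalues j * w j i := by
    intro j i
    have := congrFun (hA.mulVec_eigenvectorBasis j) i
    simpa [Matrix.mulVec, dotProduct] using this
  have sym : ∀ i j, A i j = A j i := by
    intro i j
    have := hA.apply i j
    simpa using this.symm
  let AV : EuclideanSpace ℝ (Fin n) := WithLp.toLp 2 (fun i => ∑ j, A i j * v j)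
  have h1 : qf A v = inner ℝ v AV := by
    rw [inn_eq]
    unfold qf
    refine Finset.sum_congr rfl fun i _ => ?_
    change _ = v i * ∑ j, A i j * v j
    rw [Finset.mul_sum]
    exact Finset.sum_congr rfl fun j _ => by ring
  rw [h1, ← w.sum_inner_mul_inner]
  refine Finset.sum_congr rfl fun j _ => ?_
  have h2 : inner ℝ (w j) AV = hA.eigenvalues j * inner ℝ (w j) v := by
    rw [inn_eq, inn_eq, Finset.mul_sum]
    change ∑ i, w j i * ∑ l, A i l * v l = ∑ i, hA.eigenvalues j * (w j i * v i)
    have e1 : ∀ i, w j i * ∑ l, A i l * v l = ∑ l, w j i * (A i l * v l) :=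
      fun i => Finset.mul_sum _ _ _
    rw [Finset.sum_congr rfl fun i _ => e1 i, Finset.sum_comm]
    refine Finset.sum_congr rfl fun l _ => ?_
    rw [← mul_assoc, ← eig j l, Finset.sum_mul]
    refine Finset.sum_congr rfl fun i _ => ?_
    rw [sym i l]; ring
  rw [h2, real_inner_comm]
  ring

/-- the indexing of the eigenvalues -/
noncomputable def idx (n : ℕ) : Fin (Fintype.card (Fin n)) ≃ Fin n :=
  Fintype.equivOfCardEq (Fintype.card_fin _)

theorem eig_idx (j : Fin (Fintype.card (Fin n))) : hA.eigenvalues (idx n j) = hA.eigenvalues₀ j := by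
  unfold Matrix.IsHermitian.eigenvalues idx
  rw [Equiv.symm_apply_apply]

theorem topSum_eq (k : ℕ) (hk : k ≤ n) : topSum hA k =
    ∑ j : Fin (Fintype.card (Fin n)), if (j : ℕ) < k then hA.eigenvalues₀ j else 0 := by
  have hk' : k ≤ Fintype.card (Fin n) := by simpa using hk
  unfold topSum
  rw [← Finset.sum_filter]
  symm
  refine Finset.sum_bij (fun j _ => (j : ℕ)) ?_ ?_ ?_ ?_
  · intro j hj; simpa using hj
  · intro a _ b _ h; exact Fin.ext h
  · intro b hb
    exact ⟨⟨b, lt_of_lt_of_le (Finset.mem_range.1 hb) hk'⟩, by simpa using hb, rfl⟩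
  · intro j _
    unfold topEig
    rw [dif_pos j.2]

/-- **Ky Fan**: upper bound of the trace over an orthonormal system. -/
theorem kyfan_le (k : ℕ) (hk : k ≤ n) (v : Fin k → EuclideanSpace ℝ (Fin n))
    (hv : Orthonormal ℝ v) : ∑ i, qf A (v i) ≤ topSum hA k := by
  have h1 : ∑ i, qf A (v i) = ∑ j : Fin (Fintype.card (Fin n)), hA.eigenvalues₀ j *
      ∑ i, (inner ℝ (hA.eigenvectorBasis (idx n j)) (v i)) ^ 2 := by
    simp_rw [qf_eq hA]
    rw [Finset.sum_comm]
    rw [← (idx n).sum_comp]
    refine Finset.sum_congr rfl fun j _ => ?_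
    rw [Finset.mul_sum, eig_idx]
  rw [h1, topSum_eq hA k hk]
  refine sum_weights _ k (by simpa using hk) _ _ hA.eigenvalues₀_antitone
    (fun j => Finset.sum_nonneg fun i _ => sq_nonneg _) (fun j => ?_) ?_
  · have h2 := hv.sum_inner_products_le (x := hA.eigenvectorBasis (idx n j)) (s := Finset.univ)
    have h3 : ‖hA.eigenvectorBasis (idx n j)‖ = 1 := hA.eigenvectorBasis.orthonormal.1 _
    rw [h3] at h2
    refine le_trans (le_of_eq ?_) (h2.trans (by norm_num))
    refine Finset.sum_congr rfl fun i _ => ?_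
    rw [real_inner_comm, Real.norm_eq_abs, sq_abs]
  · rw [Finset.sum_comm]
    have h4 : ∀ i, ∑ j, (inner ℝ (hA.eigenvectorBasis (idx n j)) (v i)) ^ 2 = 1 := by
      intro i
      rw [(idx n).sum_comp (fun j => (inner ℝ (hA.eigenvectorBasis j) (v i)) ^ 2)]
      rw [hA.eigenvectorBasis.sum_sq_inner_right, hv.1 i]
      norm_num
    rw [Finset.sum_congr rfl fun i _ => h4 i]
    simp

/-- the eigenvectors of the largest eigenvalues -/
noncomputable def topVec (k : ℕ) (hk : k ≤ n) (i : Fin k) : EuclideanSpace ℝ (Fin n) :=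
  hA.eigenvectorBasis (idx n ⟨i, by simpa using lt_of_lt_of_le i.2 hk⟩)

theorem topVec_orthonormal (k : ℕ) (hk : k ≤ n) : Orthonormal ℝ (topVec hA k hk) := by
  have h := hA.eigenvectorBasis.orthonormal
  refine h.comp (fun i : Fin k => idx n ⟨i, by simpa using lt_of_lt_of_le i.2 hk⟩) ?_
  intro a b hab
  have := (idx n).injective hab
  simpa [Fin.ext_iff] using this

theorem kyfan_eq (k : ℕ) (hk : k ≤ n) : ∑ i, qf A (topVec hA k hk i) = topSum hA k := by
  unfold topSum
  rw [← Fin.sum_univ_eq_sum_range (fun j => topEig hA j) k]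
  refine Finset.sum_congr rfl fun i _ => ?_
  rw [qf_eq hA]
  rw [Finset.sum_eq_single (idx n ⟨i, by simpa using lt_of_lt_of_le i.2 hk⟩)]
  · have h1 : inner ℝ (hA.eigenvectorBasis (idx n ⟨i, by simpa using lt_of_lt_of_le i.2 hk⟩))
        (topVec hA k hk i) = 1 := by
      unfold topVec
      rw [real_inner_self_eq_norm_sq, hA.eigenvectorBasis.orthonormal.1]; norm_num
    rw [h1, eig_idx]
    unfold topEig
    rw [dif_pos (by simpa using lt_of_lt_of_le i.2 hk)]
    ring
  · intro b _ hb
    have h1 : inner ℝ (hA.eigenvectorBasis b) (topVec hA k hk i) = 0 :=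
      hA.eigenvectorBasis.orthonormal.2 hb
    rw [h1]; ring
  · intro h; exact absurd (Finset.mem_univ _) h

end

end Pool.Agent.W854.DY
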