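import Pool.Agent.W854.DY.Good

/-! # Orthonormal systems of small energy have little mass near the origin and far away -/

set_option autoImplicit false

open MeasureTheory Filter Topology Set
open scoped NNReal

namespace Pool.Agent.W854.DY

theorem cs_interval {g : ℝ → ℝ} (hg : Continuous g) {a b : ℝ} (hab : a < b) :
    (∫ x in a..b, |g x|) ^ 2 ≤ (b - a) * ∫ x in a..b, g x ^ 2 := by
  set V := ∫ x in a..b, |g x| with hV
  have hl : 0 < b - a := by linarith
  have h0 : 0 ≤ ∫ x in a..b, (|g x| - V / (b - a)) ^ 2 :=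
    intervalIntegral.integral_nonneg hab.le fun x _ => sq_nonneg _
  have e : ∫ x in a..b, (|g x| - V / (b - a)) ^ 2 =
      (∫ x in a..b, g x ^ 2) - 2 * (V / (b - a)) * V + (V / (b - a)) ^ 2 * (b - a) := by
    have e1 : ∀ x, (|g x| - V / (b - a)) ^ 2 = g x ^ 2 - 2 * (V / (b - a)) * |g x| +
        (V / (b - a)) ^ 2 := by
      intro x; rw [sub_sq, sq_abs]; ring
    simp_rw [e1]
    rw [intervalIntegral.integral_add, intervalIntegral.integral_sub,
      intervalIntegral.integral_const_mul, intervalIntegral.integral_const]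
    · simp only [smul_eq_mul]; ring
    all_goals exact Continuous.intervalIntegrable (by fun_prop) _ _
  rw [e] at h0
  have h1 : 2 * (V / (b - a)) * V - (V / (b - a)) ^ 2 * (b - a) = V ^ 2 / (b - a) := by
    field_simp; ring
  have h2 : V ^ 2 / (b - a) ≤ ∫ x in a..b, g x ^ 2 := by linarith
  rw [div_le_iff₀ hl] at h2
  linarith

theorem poincare {f : ℝ → ℝ} (hf : IsTest f) {a b : ℝ} (hab : a < b) :
    ∫ x in a..b, f x ^ 2 ≤ (b - a)⁻¹ * (∫ x in a..b, f x) ^ 2 +
      (b - a) ^ 2 * ∫ x in a..b, deriv f x ^ 2 := by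
  have hl : 0 < b - a := by linarith
  have hfc := hf.cont
  have hfd := hf.deriv_cont
  set D := ∫ x in a..b, deriv f x ^ 2 with hD
  set V := ∫ x in a..b, |deriv f x| with hV
  have hVD : V ^ 2 ≤ (b - a) * D := cs_interval hfd hab
  have hV0 : 0 ≤ V := intervalIntegral.integral_nonneg hab.le fun x _ => abs_nonneg _
  set m := (b - a)⁻¹ * ∫ x in a..b, f x with hm
  have hosc : ∀ x ∈ Icc a b, ∀ y ∈ Icc a b, |f x - f y| ≤ V := by
    have hle : ∀ x ∈ Icc a b, ∀ y ∈ Icc a b, y ≤ x → |f x - f y| ≤ V := by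
      intro x hx y hy hyx
      have h1 : ∫ z in y..x, deriv f z = f x - f y :=
        intervalIntegral.integral_deriv_eq_sub (fun z _ => hf.diff z)
          (hfd.intervalIntegrable _ _)
      rw [← h1]
      calc |∫ z in y..x, deriv f z| ≤ ∫ z in y..x, |deriv f z| :=
            intervalIntegral.abs_integral_le_integral_abs hyx
        _ ≤ V := by
            apply intervalIntegral.integral_mono_interval hy.1 hyx hx.2
            · exact Eventually.of_forall fun z => abs_nonneg _
            · exact (hfd.abs).intervalIntegrable _ _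
    intro x hx y hy
    rcases le_total y x with h | h
    · exact hle x hx y hy h
    · rw [abs_sub_comm]; exact hle y hy x hx h
  have hdev : ∀ x ∈ Icc a b, |f x - m| ≤ V := by
    intro x hx
    have e : f x - m = (b - a)⁻¹ * ∫ y in a..b, (f x - f y) := by
      rw [intervalIntegral.integral_sub (continuous_const.intervalIntegrable _ _)
        (hfc.intervalIntegrable _ _), intervalIntegral.integral_const, smul_eq_mul, mul_sub, ← hm]
      field_simp
    rw [e, abs_mul, abs_of_pos (inv_pos.2 hl)]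
    have h2 : |∫ y in a..b, (f x - f y)| ≤ V * |b - a| := by
      rw [← Real.norm_eq_abs]
      apply intervalIntegral.norm_integral_le_of_norm_le_const
      intro y hy
      rw [uIoc_of_le hab.le] at hy
      exact hosc x hx y ⟨hy.1.le, hy.2⟩
    rw [abs_of_pos hl] at h2
    calc (b - a)⁻¹ * |∫ y in a..b, (f x - f y)| ≤ (b - a)⁻¹ * (V * (b - a)) := by gcongr
      _ = V := by field_simp
  have hint : ∫ x in a..b, (f x - m) ^ 2 ≤ ∫ _ in a..b, V ^ 2 := by
    apply intervalIntegral.integral_mono_on hab.le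
    · exact Continuous.intervalIntegrable (by fun_prop) _ _
    · exact continuous_const.intervalIntegrable _ _
    · intro x hx
      rw [← sq_abs]
      exact pow_le_pow_left₀ (abs_nonneg _) (hdev x hx) 2
  have e3 : ∫ x in a..b, (f x - m) ^ 2 =
      (∫ x in a..b, f x ^ 2) - 2 * m * (∫ x in a..b, f x) + m ^ 2 * (b - a) := by
    have e1 : ∀ x, (f x - m) ^ 2 = f x ^ 2 - 2 * m * f x + m ^ 2 := by
      intro x; ring
    simp_rw [e1]
    rw [intervalIntegral.integral_add, intervalIntegral.integral_sub,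
      intervalIntegral.integral_const_mul, intervalIntegral.integral_const]
    · simp only [smul_eq_mul]; ring
    all_goals exact Continuous.intervalIntegrable (by fun_prop) _ _
  rw [e3, intervalIntegral.integral_const, smul_eq_mul] at hint
  have e4 : 2 * m * (∫ x in a..b, f x) - m ^ 2 * (b - a) =
      (b - a)⁻¹ * (∫ x in a..b, f x) ^ 2 := by
    rw [hm]; field_simp; ring
  have h5 : (b - a) * V ^ 2 ≤ (b - a) ^ 2 * D := by
    calc (b - a) * V ^ 2 ≤ (b - a) * ((b - a) * D) := by gcongr
      _ = _ := by ring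
  linarith

theorem ioi_sum {k : ℕ} {f : Fin k → ℝ → ℝ} (hf : IsON f) (c : Fin k → ℝ) :
    ∫ x in Ioi (0 : ℝ), (∑ i, c i * f i x) ^ 2 = ∑ i, c i ^ 2 := by
  have h : ∀ i, IsTest (f i) := hf.1
  set F : Fin k → testSub := fun i => ⟨f i, h i⟩ with hF
  have h1 : ipL (∑ i, c i • F i) (∑ i, c i • F i) = ∑ i, c i ^ 2 := by
    simp only [map_sum, LinearMap.sum_apply, map_smul, LinearMap.smul_apply, smul_eq_mul]
    refine Finset.sum_congr rfl fun i _ => ?_
    rw [Finset.sum_eq_single i]
    · have : ipL (F i) (F i) = 1 := by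
        rw [ipL_apply]; simpa using hf.2 i i
      rw [this]; ring
    · intro j _ hj
      have : ipL (F j) (F i) = 0 := by
        rw [ipL_apply]
        have := hf.2 j i
        rw [if_neg hj] at this
        exact this
      rw [this]; ring
    · intro h; exact absurd (Finset.mem_univ _) h
  rw [ipL_self] at h1
  rw [← h1]
  refine integral_congr_ae (Eventually.of_forall fun x => ?_)
  simp [hF]

theorem bessel {k : ℕ} {f : Fin k → ℝ → ℝ} (hf : IsON f) {a b : ℝ} (ha : 0 ≤ a) (hab : a < b) :
    ∑ i, (∫ x in a..b, f i x) ^ 2 ≤ b - a := by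
  set c : Fin k → ℝ := fun i => ∫ x in a..b, f i x with hc
  set g : ℝ → ℝ := fun x => ∑ i, c i * f i x with hg
  have hgc : Continuous g := continuous_finsetSum _ fun i _ => continuous_const.mul (hf.1 i).cont
  have h1 : ∫ x in a..b, g x = ∑ i, c i ^ 2 := by
    simp only [hg]
    rw [intervalIntegral.integral_finsetSum
      (fun i _ => ((hf.1 i).cont.const_mul (c i)).intervalIntegrable _ _)]
    refine Finset.sum_congr rfl fun i _ => ?_
    rw [intervalIntegral.integral_const_mul]; ring
  have h2 : ∫ x in Ioi (0 : ℝ), g x ^ 2 = ∑ i, c i ^ 2 := ioi_sum hf c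
  have hgi : Integrable fun x => g x ^ 2 := by
    have h3 : HasCompactSupport g := by
      have : g = ∑ i, fun x => c i * f i x := by
        funext x; simp [hg]
      rw [this]
      refine HasCompactSupport.finset_sum ?_
      intro i _
      exact (hf.1 i).2.1.mul_left
    exact (hgc.pow 2).integrable_of_hasCompactSupport
      (HasCompactSupport.intro h3 fun x hx => by simp [image_eq_zero_of_notMem_tsupport hx])
  have h4 : ∫ x in a..b, g x ^ 2 ≤ ∫ x in Ioi (0 : ℝ), g x ^ 2 := by
    rw [intervalIntegral.integral_of_le hab.le]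
    apply setIntegral_mono_set hgi.integrableOn (Eventually.of_forall fun x => sq_nonneg _)
    exact Eventually.of_forall fun x hx => lt_of_le_of_lt ha hx.1
  have h5 : ∫ x in a..b, 2 * g x ≤ ∫ x in a..b, (1 + g x ^ 2) := by
    apply intervalIntegral.integral_mono_on hab.le
    · exact Continuous.intervalIntegrable (by fun_prop) _ _
    · exact Continuous.intervalIntegrable (by fun_prop) _ _
    · intro x _
      nlinarith [sq_nonneg (g x - 1)]
  have hg2c : Continuous fun x => g x ^ 2 := by fun_prop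
  rw [intervalIntegral.integral_const_mul, intervalIntegral.integral_add
    (continuous_const.intervalIntegrable _ _) (hg2c.intervalIntegrable _ _),
    intervalIntegral.integral_const, smul_eq_mul, mul_one, h1] at h5
  have h6 : ∑ i, (∫ x in a..b, f i x) ^ 2 = ∑ i, c i ^ 2 := rfl
  rw [h6]
  linarith

/-- the energy -/
noncomputable def En {k : ℕ} (f : Fin k → ℝ → ℝ) : ℝ := ∑ i, (J1 (f i) + Jx (f i))

theorem mass_near {k : ℕ} {f : Fin k → ℝ → ℝ} (hf : IsON f) (L : ℕ) (hL : 0 < L) (x1 : ℝ)
    (hx1 : 0 < x1) :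
    ∑ i, ∫ x in (0 : ℝ)..x1, f i x ^ 2 ≤ L + (x1 / L) ^ 2 * En f := by
  have hL' : (0 : ℝ) < L := by exact_mod_cast hL
  set p : ℕ → ℝ := fun c => (c : ℝ) * (x1 / L) with hp
  have hsplit : ∀ g : ℝ → ℝ, Continuous g → ∫ x in (0 : ℝ)..x1, g x =
      ∑ c ∈ Finset.range L, ∫ x in p c..p (c + 1), g x := by
    intro g hg
    rw [intervalIntegral.sum_integral_adjacent_intervals
      (fun c _ => hg.intervalIntegrable _ _)]
    simp only [hp]
    congr 1
    · simp
    · field_simp
  have hcell : ∀ c : ℕ, p (c + 1) - p c = x1 / L := by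
    intro c; simp only [hp]; push_cast; ring
  have hcell0 : ∀ c : ℕ, p c < p (c + 1) := by
    intro c
    have := hcell c
    have h2 : (0 : ℝ) < x1 / L := by positivity
    linarith
  have hp0 : ∀ c : ℕ, 0 ≤ p c := by intro c; simp only [hp]; positivity
  have h1 : ∑ i, ∫ x in (0 : ℝ)..x1, f i x ^ 2 =
      ∑ c ∈ Finset.range L, ∑ i, ∫ x in p c..p (c + 1), f i x ^ 2 := by
    rw [Finset.sum_comm]
    refine Finset.sum_congr rfl fun i _ => hsplit _ ((hf.1 i).cont.pow 2)
  rw [h1]
  have h2 : ∀ c ∈ Finset.range L,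
      ∑ i, ∫ x in p c..p (c + 1), f i x ^ 2 ≤
      1 + (x1 / L) ^ 2 * ∑ i, ∫ x in p c..p (c + 1), deriv (f i) x ^ 2 := by
    intro c _
    calc _ ≤ ∑ i, ((x1 / (L : ℝ))⁻¹ * (∫ x in p c..p (c + 1), f i x) ^ 2 +
          (x1 / L) ^ 2 * ∫ x in p c..p (c + 1), deriv (f i) x ^ 2) := by
          refine Finset.sum_le_sum fun i _ => ?_
          have := poincare (hf.1 i) (hcell0 c)
          rw [hcell c] at this
          exact this
      _ = (x1 / (L : ℝ))⁻¹ * ∑ i, (∫ x in p c..p (c + 1), f i x) ^ 2 +
          (x1 / L) ^ 2 * ∑ i, ∫ x in p c..p (c + 1), deriv (f i) x ^ 2 := by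
          rw [Finset.sum_add_distrib, Finset.mul_sum, Finset.mul_sum]
      _ ≤ (x1 / (L : ℝ))⁻¹ * (x1 / L) + _ := by
          have := bessel hf (a := p c) (b := p (c + 1)) (hp0 c) (hcell0 c)
          rw [hcell c] at this
          gcongr
      _ = _ := by
          congr 1; field_simp
  refine (Finset.sum_le_sum h2).trans ?_
  rw [Finset.sum_add_distrib, ← Finset.mul_sum, Finset.sum_comm, Finset.sum_const,
    Finset.card_range, nsmul_eq_mul, mul_one]
  have h3 : ∑ i, ∑ c ∈ Finset.range L, ∫ x in p c..p (c + 1), deriv (f i) x ^ 2 ≤ En f := by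
    unfold En
    refine Finset.sum_le_sum fun i _ => ?_
    have hdc := (hf.1 i).deriv_cont
    rw [← hsplit (fun x => deriv (f i) x ^ 2) (by fun_prop)]
    have h4 : ∫ x in (0 : ℝ)..x1, deriv (f i) x ^ 2 ≤ J1 (f i) := by
      rw [intervalIntegral.integral_of_le hx1.le]
      unfold J1
      apply setIntegral_mono_set
      · exact (intg (hf.1 i) ((hf.1 i).deriv_cont.pow 2) (fun x _ h => by simp [h])).integrableOn
      · exact Eventually.of_forall fun x => sq_nonneg _
      · exact Eventually.of_forall fun x hx => hx.1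
    have := Jx_nonneg (f i)
    linarith
  gcongr

theorem mass_far {k : ℕ} {f : Fin k → ℝ → ℝ} (hf : IsON f) (X : ℝ) (hX : 0 < X) :
    ∑ i, ∫ x in Ioi X, f i x ^ 2 ≤ En f / X := by
  unfold En
  rw [Finset.sum_div]
  refine Finset.sum_le_sum fun i _ => ?_
  have h1 : ∫ x in Ioi X, f i x ^ 2 ≤ ∫ x in Ioi X, (1 / X) * (x * f i x ^ 2) := by
    apply setIntegral_mono_on
    · exact (intg (hf.1 i) ((hf.1 i).cont.pow 2) (fun x h _ => by simp [h])).integrableOn
    · have hc := (hf.1 i).cont
      exact (intg (hf.1 i) (F := fun x => (1 / X) * (x * f i x ^ 2)) (by fun_prop)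
        (fun x h _ => by simp [h])).integrableOn
    · exact measurableSet_Ioi
    · intro x hx
      have hx' : X < x := hx
      rw [← mul_assoc]
      have : 1 ≤ 1 / X * x := by
        rw [one_div, inv_mul_eq_div, le_div_iff₀ hX]; linarith
      nlinarith [sq_nonneg (f i x)]
  have h2 : ∫ x in Ioi X, x * f i x ^ 2 ≤ Jx (f i) := by
    unfold Jx
    have hc := (hf.1 i).cont
    apply setIntegral_mono_set
    · exact (intg (hf.1 i) (F := fun x => x * f i x ^ 2) (by fun_prop)
        (fun x h _ => by simp [h])).integrableOn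
    · filter_upwards [ae_restrict_mem measurableSet_Ioi] with x hx
      have : (0 : ℝ) < x := hx
      simp only [Pi.zero_apply]
      positivity
    · exact Eventually.of_forall fun x hx => hX.trans hx
  rw [integral_const_mul] at h1
  have h3 := J1_nonneg (f i)
  calc _ ≤ 1 / X * ∫ x in Ioi X, x * f i x ^ 2 := h1
    _ ≤ 1 / X * (J1 (f i) + Jx (f i)) := by gcongr; linarith
    _ = _ := by ring

/-- the mass in `(x1, X]` -/
theorem mass_mid {k : ℕ} {f : Fin k → ℝ → ℝ} (hf : IsON f) (L : ℕ) (hL : 0 < L) (x1 X : ℝ)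
    (hx1 : 0 < x1) (hX : x1 ≤ X) :
    (k : ℝ) - En f / X - (L + (x1 / L) ^ 2 * En f) ≤ ∑ i, ∫ x in x1..X, f i x ^ 2 := by
  have h1 := mass_near hf L hL x1 hx1
  have h2 := mass_far hf X (by linarith)
  have h3 : ∀ i, (∫ x in (0 : ℝ)..x1, f i x ^ 2) + (∫ x in x1..X, f i x ^ 2) +
      (∫ x in Ioi X, f i x ^ 2) = 1 := by
    intro i
    have hc := (hf.1 i).cont
    have hc2 : Continuous fun x => f i x ^ 2 := by fun_prop
    have hi : Integrable fun x => f i x ^ 2 :=
      intg (hf.1 i) ((hf.1 i).cont.pow 2) (fun x h _ => by simp [h])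
    have h4 : ∫ x in Ioi (0 : ℝ), f i x ^ 2 = 1 := by
      have := hf.2 i i
      rw [if_pos rfl] at this
      rw [← this]
      refine integral_congr_ae (Eventually.of_forall fun x => ?_)
      simp only; ring
    rw [intervalIntegral.integral_add_adjacent_intervals
      (hc2.intervalIntegrable _ _) (hc2.intervalIntegrable _ _), ← h4,
      intervalIntegral.integral_of_le (by linarith), ← setIntegral_union]
    · rw [Ioc_union_Ioi_eq_Ioi (by linarith)]
    · rw [Set.disjoint_left]
      intro x hx hx'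
      exact absurd hx.2 (not_le.2 hx')
    · exact measurableSet_Ioi
    · exact hi.integrableOn
    · exact hi.integrableOn
  have h5 : ∑ i, ((∫ x in (0 : ℝ)..x1, f i x ^ 2) + (∫ x in x1..X, f i x ^ 2) +
      (∫ x in Ioi X, f i x ^ 2)) = k := by
    rw [Finset.sum_congr rfl fun i _ => h3 i]; simp
  rw [Finset.sum_add_distrib, Finset.sum_add_distrib] at h5
  linarith

end Pool.Agent.W854.DY
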