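import Pool.Agent.W854.DY.Mass
import Pool.Agent.W854.DY.Bump

/-! # The effect of a drift on the sum of the lowest eigenvalues -/

set_option autoImplicit false

open MeasureTheory Filter Topology Set
open scoped NNReal

namespace Pool.Agent.W854.DY

/-- the sum of the lowest `k` eigenvalues -/
noncomputable def SS (b : ℝ≥0 → ℝ) (k : ℕ) : ℝ := ∑ j ∈ Finset.range k, eigval b j

/-- the drift: the covariance function -/
noncomputable def VV (c : ℝ → ℝ) (x1 X : ℝ) (x : ℝ≥0) : ℝ :=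
  ∫ z in (min (x : ℝ) x1)..(min (x : ℝ) X), (1 - c z)

/-- admissible correlation functions: continuous, bounded by `1` in absolute value, and bounded away
from `1` on a half line -/
structure Adm (c : ℝ → ℝ) (δ x1 : ℝ) : Prop where
  cont : Continuous c
  le : ∀ z, 0 ≤ z → |c z| ≤ 1
  dpos : 0 < δ
  xpos : 0 < x1
  gap : ∀ z, x1 ≤ z → δ ≤ 1 - c z

section

variable {c : ℝ → ℝ} {δ x1 : ℝ}

theorem Adm.w_cont (hc : Adm c δ x1) : Continuous fun z : ℝ => 1 - c z :=
  continuous_const.sub hc.cont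

theorem Adm.w_nonneg (hc : Adm c δ x1) {z : ℝ} (hz : 0 ≤ z) : 0 ≤ 1 - c z := by
  have := (abs_le.1 (hc.le z hz)).2
  linarith

theorem Adm.w_le (hc : Adm c δ x1) {z : ℝ} (hz : 0 ≤ z) : 1 - c z ≤ 2 := by
  have := (abs_le.1 (hc.le z hz)).1
  linarith

theorem VV_eq (hc : Adm c δ x1) (X : ℝ) (x : ℝ≥0) : VV c x1 X x =
    (∫ z in (0 : ℝ)..(min (x : ℝ) X), (1 - c z)) -
      ∫ z in (0 : ℝ)..(min (x : ℝ) x1), (1 - c z) := by
  unfold VV
  rw [intervalIntegral.integral_interval_sub_left (hc.w_cont.intervalIntegrable _ _)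
    (hc.w_cont.intervalIntegrable _ _)]

theorem VV_cont (hc : Adm c δ x1) (X : ℝ) : Continuous (VV c x1 X) := by
  have e : VV c x1 X = fun x : ℝ≥0 => (∫ z in (0 : ℝ)..(min (x : ℝ) X), (1 - c z)) -
      ∫ z in (0 : ℝ)..(min (x : ℝ) x1), (1 - c z) := funext fun x => VV_eq hc X x
  rw [e]
  have h : Continuous fun y : ℝ => ∫ z in (0 : ℝ)..y, (1 - c z) :=
    intervalIntegral.continuous_primitive (fun a b => hc.w_cont.intervalIntegrable a b) 0
  have h1 : Continuous fun x : ℝ≥0 => min (x : ℝ) X := by fun_prop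
  have h2 : Continuous fun x : ℝ≥0 => min (x : ℝ) x1 := by fun_prop
  exact (h.comp h1).sub (h.comp h2)

theorem drift_ibp (hc : Adm c δ x1) {X : ℝ} (hX : x1 ≤ X) {f : ℝ → ℝ} (hf : IsTest f) :
    ∫ x in Ioi (0 : ℝ), 2 * f x * deriv f x * VV c x1 X x.toNNReal =
      -∫ x in x1..X, f x ^ 2 * (1 - c x) := by
  have hfc := hf.cont
  have hfd := hf.deriv_cont
  have hV := cont_b (VV_cont hc X)
  have hwc := hc.w_cont
  have hx1 := hc.xpos
  set H : ℝ → ℝ := fun x => 2 * f x * deriv f x * VV c x1 X x.toNNReal with hH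
  have hHc : Continuous H := by fun_prop
  have hHi : Integrable H := intg hf hHc (fun x h _ => by simp [hH, h])
  have hu : ∀ x, HasDerivAt (fun x => f x ^ 2) (2 * f x * deriv f x) x := by
    intro x
    have := (hf.diff x).hasDerivAt.fun_pow 2
    simpa using this
  have hsplit : ∫ x in Ioi (0 : ℝ), H x = (∫ x in (0 : ℝ)..x1, H x) + (∫ x in x1..X, H x) +
      ∫ x in Ioi X, H x := by
    rw [intervalIntegral.integral_add_adjacent_intervals
      (hHc.intervalIntegrable _ _) (hHc.intervalIntegrable _ _),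
      intervalIntegral.integral_of_le (by linarith), ← setIntegral_union]
    · rw [Ioc_union_Ioi_eq_Ioi (by linarith)]
    · rw [Set.disjoint_left]
      intro x hx hx'
      exact absurd hx.2 (not_le.2 hx')
    · exact measurableSet_Ioi
    · exact hHi.integrableOn
    · exact hHi.integrableOn
  have h0 : ∫ x in (0 : ℝ)..x1, H x = 0 := by
    rw [intervalIntegral.integral_congr (g := fun _ => 0)]
    · simp
    · intro x hx
      rw [uIcc_of_le hx1.le] at hx
      have : VV c x1 X x.toNNReal = 0 := by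
        unfold VV
        rw [Real.coe_toNNReal _ hx.1, min_eq_left hx.2, min_eq_left (hx.2.trans hX)]
        simp
      simp [hH, this]
  set v := ∫ z in x1..X, (1 - c z) with hv
  have h1 : ∫ x in x1..X, H x = f X ^ 2 * v -
      ∫ x in x1..X, f x ^ 2 * (1 - c x) := by
    have hVd : ∀ x, HasDerivAt (fun x => ∫ z in x1..x, (1 - c z))
        (1 - c x) x := fun x =>
      intervalIntegral.integral_hasDerivAt_right (hwc.intervalIntegrable _ _)
        (hwc.stronglyMeasurableAtFilter _ _) hwc.continuousAt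
    have h2 := intervalIntegral.integral_mul_deriv_eq_deriv_mul (a := x1) (b := X)
      (u := fun x => ∫ z in x1..x, (1 - c z))
      (v := fun x => f x ^ 2) (u' := fun x => 1 - c x)
      (v' := fun x => 2 * f x * deriv f x) (fun x _ => hVd x) (fun x _ => hu x)
      (hwc.intervalIntegrable _ _) (Continuous.intervalIntegrable (by fun_prop) _ _)
    simp only [intervalIntegral.integral_same, zero_mul, sub_zero] at h2
    have e1 : ∫ x in x1..X, H x = ∫ x in x1..X,
        (∫ z in x1..x, (1 - c z)) * (2 * f x * deriv f x) := by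
      apply intervalIntegral.integral_congr
      intro x hx
      rw [uIcc_of_le hX] at hx
      simp only [hH]
      unfold VV
      rw [Real.coe_toNNReal _ (by linarith [hx.1]), min_eq_right hx.1, min_eq_left hx.2]
      ring
    have e2 : ∫ x in x1..X, f x ^ 2 * (1 - c x) =
        ∫ x in x1..X, (1 - c x) * f x ^ 2 := by
      apply intervalIntegral.integral_congr
      intro x _
      simp only; ring
    rw [e1, h2, e2]; ring
  have h2 : ∫ x in Ioi X, H x = -(f X ^ 2 * v) := by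
    have e1 : ∫ x in Ioi X, H x = ∫ x in Ioi X, v * (2 * f x * deriv f x) := by
      apply setIntegral_congr_fun measurableSet_Ioi
      intro x hx
      have hx' : X < x := hx
      simp only [hH]
      unfold VV
      rw [Real.coe_toNNReal _ (by linarith), min_eq_right (by linarith), min_eq_right (by linarith)]
      ring
    rw [e1, integral_const_mul]
    have h3 : ∫ x in Ioi X, 2 * f x * deriv f x = 0 - f X ^ 2 := by
      refine integral_Ioi_of_hasDerivAt_of_tendsto' (fun x _ => hu x) ?_ ?_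
      · exact (intg hf (F := fun x => 2 * f x * deriv f x) (by fun_prop)
          (fun x h _ => by simp [h])).integrableOn
      · have h4 : Tendsto f (cocompact ℝ) (𝓝 0) := hf.2.1.is_zero_at_infty
        have h5 : Tendsto f atTop (𝓝 0) := h4.mono_left atTop_le_cocompact
        simpa using h5.pow 2
    rw [h3]; ring
  rw [hsplit, h0, h1, h2]; ring

/-- the weight -/
noncomputable def WW (c : ℝ → ℝ) (x1 X : ℝ) (f : ℝ → ℝ) : ℝ :=
  ∫ x in x1..X, f x ^ 2 * (1 - c x)

theorem form_drift {b : ℝ≥0 → ℝ} (hb : Continuous b) (hc : Adm c δ x1) {X : ℝ} (hX : x1 ≤ X)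
    (a : ℝ) {f : ℝ → ℝ} (hf : IsTest f) :
    form (fun x => b x + a * VV c x1 X x) f = form b f + 2 * a * WW c x1 X f := by
  have hfc := hf.cont
  have hfd := hf.deriv_cont
  have hbc := cont_b hb
  have hV := cont_b (VV_cont hc X)
  have h1 := drift_ibp hc hX hf
  have i1 : Integrable fun x => deriv f x ^ 2 + x * f x ^ 2 -
      2 * (2 * f x * deriv f x) * b x.toNNReal :=
    intg hf (by fun_prop) (fun x h h' => by simp [h, h'])
  have i2 : Integrable fun x => 2 * f x * deriv f x * VV c x1 X x.toNNReal :=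
    intg hf (by fun_prop) (fun x h h' => by simp [h])
  have e : form (fun x => b x + a * VV c x1 X x) f = form b f -
      (2 * a) * ∫ x in Ioi (0 : ℝ), 2 * f x * deriv f x * VV c x1 X x.toNNReal := by
    unfold form
    rw [← integral_const_mul, ← isub i1 (i2.const_mul (2 * a))]
    refine integral_congr_ae (Eventually.of_forall fun x => ?_)
    simp only; ring
  rw [e, h1]
  unfold WW; ring

theorem WW_nonneg (hc : Adm c δ x1) {X : ℝ} (hX : x1 ≤ X) (f : ℝ → ℝ) : 0 ≤ WW c x1 X f := by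
  refine intervalIntegral.integral_nonneg hX fun x hx => ?_
  exact mul_nonneg (sq_nonneg (f x)) (hc.w_nonneg (hc.xpos.le.trans hx.1))

theorem WW_lower (hc : Adm c δ x1) {X : ℝ} (hX : x1 ≤ X) {f : ℝ → ℝ} (hf : IsTest f) :
    δ * ∫ x in x1..X, f x ^ 2 ≤ WW c x1 X f := by
  have hfc := hf.cont
  have hcc := hc.cont
  unfold WW
  rw [← intervalIntegral.integral_const_mul]
  apply intervalIntegral.integral_mono_on hX
  · exact Continuous.intervalIntegrable (by fun_prop) _ _
  · exact Continuous.intervalIntegrable (by fun_prop) _ _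
  · intro x hx
    have := hc.gap x hx.1
    nlinarith [sq_nonneg (f x)]

theorem WW_upper (hc : Adm c δ x1) {X : ℝ} (hX : x1 ≤ X) {f : ℝ → ℝ} (hf : IsTest f) :
    WW c x1 X f ≤ 2 * J0 f := by
  have hfc := hf.cont
  have hcc := hc.cont
  unfold WW
  calc ∫ x in x1..X, f x ^ 2 * (1 - c x) ≤ ∫ x in x1..X, 2 * f x ^ 2 := by
        apply intervalIntegral.integral_mono_on hX
        · exact Continuous.intervalIntegrable (by fun_prop) _ _
        · exact Continuous.intervalIntegrable (by fun_prop) _ _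
        · intro x hx
          have := hc.w_le (hc.xpos.le.trans hx.1)
          nlinarith [sq_nonneg (f x)]
    _ ≤ _ := by
        rw [intervalIntegral.integral_const_mul, intervalIntegral.integral_of_le hX]
        apply mul_le_mul_of_nonneg_left _ (by norm_num)
        unfold J0
        apply setIntegral_mono_set
        · exact (intg hf (hf.cont.pow 2) (fun x h _ => by simp [h])).integrableOn
        · exact Eventually.of_forall fun x => sq_nonneg _
        · exact Eventually.of_forall fun x hx => lt_trans hc.xpos hx.1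

theorem Bd_drift {b : ℝ≥0 → ℝ} (hb : Continuous b) {m : ℝ} (hm : Bd m b) (hc : Adm c δ x1) {X : ℝ}
    (hX : x1 ≤ X) (a : ℝ) : Bd (m + 4 * |a|) (fun x => b x + a * VV c x1 X x) := by
  intro f hf
  rw [form_drift hb hc hX a hf]
  have h1 := hm f hf
  have h2 := WW_nonneg hc hX f
  have h3 := WW_upper hc hX hf
  have h4 : ∫ x in Ioi (0 : ℝ), f x ^ 2 = J0 f := rfl
  rw [h4] at h1 ⊢
  have h5 : |a * WW c x1 X f| ≤ |a| * (2 * J0 f) := by
    rw [abs_mul, abs_of_nonneg h2]
    exact mul_le_mul_of_nonneg_left h3 (abs_nonneg _)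
  have h6 := (abs_le.1 h5).1
  nlinarith

/-- monotonicity -/
theorem SS_mono {b : ℝ≥0 → ℝ} (hb : Continuous b) {m : ℝ} (hm : Bd m b) (hc : Adm c δ x1) {X : ℝ}
    (hX : x1 ≤ X) {a : ℝ} (ha : 0 ≤ a) (k : ℕ) :
    SS b k ≤ SS (fun x => b x + a * VV c x1 X x) k := by
  obtain ⟨_, _, hbump⟩ := bump_exists
  obtain ⟨f0, hf0, _⟩ := hbump 1 one_pos k
  have hcc : Continuous fun x => b x + a * VV c x1 X x :=
    hb.add (continuous_const.mul (VV_cont hc X))
  refine le_of_forall_pos_le_add fun ε hε => ?_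
  obtain ⟨f, hf1, hf2⟩ := eigsum_ge _ hcc f0 hf0 (ε / (k + 1)) (by positivity)
  have h1 := eigsum_le b hb m hm f hf1
  have h2 : ∑ i, form b (f i) ≤ ∑ i, form (fun x => b x + a * VV c x1 X x) (f i) := by
    refine Finset.sum_le_sum fun i _ => ?_
    rw [form_drift hb hc hX a (hf1.1 i)]
    have := WW_nonneg hc hX (f i)
    have := mul_nonneg ha this
    linarith
  have h3 : (k : ℝ) * (ε / (k + 1)) ≤ ε := by
    rw [mul_div_assoc', div_le_iff₀ (by positivity)]
    nlinarith
  unfold SS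
  linarith

end

/-- the shift of the sum of the lowest eigenvalues under a drift -/
theorem shift_main (C : ℝ) (hC : 0 ≤ C) (x1 : ℝ) (hx1 : 0 < x1) : ∃ M : ℕ, 1 ≤ M ∧ ∃ N0 : ℕ,
    1 ≤ N0 ∧ ∀ N : ℕ, N0 ≤ N → x1 < M * N ^ 2 ∧
    ∀ (c : ℝ → ℝ) (δ : ℝ), Adm c δ x1 → ∀ b : ℝ≥0 → ℝ, Continuous b → Good C b → ∀ a : ℝ, 0 ≤ a →
    SS (fun x => b x + -a * VV c x1 (M * N ^ 2) x) (N ^ 3) + a * δ * N ^ 3 ≤
      SS b (N ^ 3) := by
  obtain ⟨a0, ha0, hbump⟩ := bump_exists
  set C2 : ℝ := 3 / 2 * a0 + 3 / 2 + (9 * C + 1) with hC2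
  set C3 : ℝ := 2 * (C2 + 1 + (9 * C + 1)) with hC3
  have hC2p : 0 < C2 := by positivity
  have hC3p : 0 < C3 := by positivity
  obtain ⟨M, hM⟩ := exists_nat_ge (4 * C3 + x1)
  obtain ⟨m, hm⟩ := exists_nat_ge (8 * C3 * x1 ^ 2)
  have hMp : (0 : ℝ) < M := by linarith
  have hMC : 4 * C3 ≤ M := by linarith
  have hMx : x1 ≤ M := by linarith
  have hmp : (0 : ℝ) < m := lt_of_lt_of_le (by positivity) hm
  have hM1 : 1 ≤ M := by exact_mod_cast hMp
  have hm1 : 1 ≤ m := by exact_mod_cast hmp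
  refine ⟨M, hM1, 8 * m, by omega, ?_⟩
  intro N hN
  have hN1 : 1 ≤ N := by omega
  have hNr : (1 : ℝ) ≤ N := by exact_mod_cast hN1
  have hN8 : (8 : ℝ) * m ≤ N := by exact_mod_cast hN
  have hX' : x1 < M * N ^ 2 := by
    have h8 : (8 : ℝ) ≤ N := by
      have : (1 : ℝ) ≤ m := by exact_mod_cast hm1
      linarith
    nlinarith [mul_pos hMp (by linarith : (0 : ℝ) < N)]
  refine ⟨hX', ?_⟩
  intro c δ hc b hb hg a ha
  have hX : x1 ≤ M * N ^ 2 := hX'.le
  have hcast : ((N ^ 3 : ℕ) : ℝ) = (N : ℝ) ^ 3 := by push_cast; ring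
  have hBd := good_Bd hb hC hg
  obtain ⟨f0, hf0, hf0'⟩ := hbump N (by omega) (N ^ 3)
  have hON0 : ∀ {f : Fin (N ^ 3) → ℝ → ℝ}, IsON f → ∀ i, J0 (f i) = 1 := by
    intro f hf i
    have := hf.2 i i
    rw [if_pos rfl] at this
    rw [← this]
    refine integral_congr_ae (Eventually.of_forall fun x => ?_)
    simp only; ring
  -- upper bound
  have hup : SS b (N ^ 3) ≤ C2 * N ^ 5 := by
    have h1 := eigsum_le b hb _ hBd f0 hf0
    unfold SS
    refine h1.trans ?_
    calc ∑ i, form b (f0 i) ≤ ∑ _i : Fin (N ^ 3), (C2 * (N : ℝ) ^ 2) := by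
          refine Finset.sum_le_sum fun i _ => ?_
          have h2 := form_upper hb hC hg (hf0.1 i)
          have h3 : J1 (f0 i) = a0 * N ^ 2 := (hf0' i).1
          have h4 : Jx (f0 i) ≤ N ^ 2 := by
            refine (hf0' i).2.trans (le_of_eq ?_)
            rw [hcast]; field_simp
          rw [hON0 hf0 i, h3] at h2
          have h5 : (1 : ℝ) ≤ (N : ℝ) ^ 2 := one_le_pow₀ hNr
          rw [hC2]
          nlinarith
      _ = _ := by
          rw [Finset.sum_const, Finset.card_univ, Fintype.card_fin, nsmul_eq_mul, hcast]; ring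
  have hbm : Continuous fun x => b x + -a * VV c x1 (M * N ^ 2) x :=
    hb.add (continuous_const.mul (VV_cont hc _))
  have hBdm := Bd_drift hb hBd hc hX (-a)
  refine le_of_forall_pos_le_add fun ε hε => ?_
  set ε' := min ε 1 / (N : ℝ) ^ 3 with hε'
  have hε'0 : 0 < ε' := by positivity
  have hkε : ((N ^ 3 : ℕ) : ℝ) * ε' = min ε 1 := by
    rw [hcast, hε']; field_simp
  obtain ⟨f, hf1, hf2⟩ := eigsum_ge b hb f0 hf0 ε' hε'0
  rw [hkε] at hf2
  -- energy
  have hN35 : (N : ℝ) ^ 3 ≤ (N : ℝ) ^ 5 := pow_le_pow_right₀ hNr (by norm_num)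
  have h15 : (1 : ℝ) ≤ (N : ℝ) ^ 5 := one_le_pow₀ hNr
  have hEn : En f ≤ C3 * N ^ 5 := by
    have h1 : 1 / 2 * En f - (9 * C + 1) * N ^ 3 ≤ ∑ i, form b (f i) := by
      have h2 : ∑ i, (1 / 2 * (J1 (f i) + Jx (f i)) - (9 * C + 1)) ≤ ∑ i, form b (f i) := by
        refine Finset.sum_le_sum fun i _ => ?_
        have h3 := form_lower hb hC hg (hf1.1 i)
        rw [hON0 hf1 i] at h3
        linarith
      rw [Finset.sum_sub_distrib, ← Finset.mul_sum, Finset.sum_const, Finset.card_univ,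
        Fintype.card_fin, nsmul_eq_mul, hcast] at h2
      unfold En
      linarith
    have h3 : min ε 1 ≤ 1 := min_le_right _ _
    have h4 : SS b (N ^ 3) = ∑ j ∈ Finset.range (N ^ 3), eigval b j := rfl
    have h5 : (9 * C + 1) * (N : ℝ) ^ 3 ≤ (9 * C + 1) * (N : ℝ) ^ 5 := by gcongr
    rw [hC3]
    nlinarith
  have hEn0 : 0 ≤ En f := Finset.sum_nonneg fun i _ => add_nonneg (J1_nonneg _) (Jx_nonneg _)
  -- mass
  have hmass : (N : ℝ) ^ 3 / 2 ≤ ∑ i, ∫ x in x1..(M * N ^ 2), f i x ^ 2 := by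
    have h1 := mass_mid hf1 (m * N) (Nat.mul_pos (by omega) (by omega)) x1 (M * N ^ 2) hx1 hX
    rw [hcast] at h1
    refine le_trans ?_ h1
    have hNp : (0 : ℝ) < N := by linarith
    have h2 : En f / (M * N ^ 2) ≤ N ^ 3 / 4 := by
      rw [div_le_div_iff₀ (by positivity) (by norm_num)]
      calc En f * 4 ≤ (C3 * N ^ 5) * 4 := by gcongr
        _ = (4 * C3) * N ^ 5 := by ring
        _ ≤ M * N ^ 5 := by gcongr
        _ = _ := by ring
    have h3 : (x1 / ((m * N : ℕ) : ℝ)) ^ 2 * En f ≤ N ^ 3 / 8 := by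
      have hmm : (m : ℝ) ≤ (m : ℝ) ^ 2 := by
        have : (1 : ℝ) ≤ m := by exact_mod_cast hm1
        nlinarith
      rw [div_pow, div_mul_eq_mul_div, div_le_div_iff₀ (by positivity) (by norm_num)]
      calc x1 ^ 2 * En f * 8 ≤ x1 ^ 2 * (C3 * N ^ 5) * 8 := by gcongr
        _ = (8 * C3 * x1 ^ 2) * N ^ 5 := by ring
        _ ≤ (m : ℝ) ^ 2 * N ^ 5 := by gcongr; linarith
        _ = _ := by push_cast; ring
    have h4 : ((m * N : ℕ) : ℝ) ≤ N ^ 3 / 8 := by
      push_cast
      have h5 : (N : ℝ) ≤ (N : ℝ) ^ 2 := by nlinarith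
      nlinarith
    linarith
  -- conclusion
  have h1 := eigsum_le _ hbm _ hBdm f hf1
  have h2 : ∑ i, form (fun x => b x + -a * VV c x1 (M * N ^ 2) x) (f i) =
      ∑ i, form b (f i) - 2 * a * ∑ i, WW c x1 (M * N ^ 2) (f i) := by
    rw [Finset.mul_sum, ← Finset.sum_sub_distrib]
    refine Finset.sum_congr rfl fun i _ => ?_
    rw [form_drift hb hc hX (-a) (hf1.1 i)]; ring
  have h3 : δ * (N ^ 3 / 2) ≤ ∑ i, WW c x1 (M * N ^ 2) (f i) := by
    have h4 : 0 ≤ δ := hc.dpos.le
    calc δ * (N ^ 3 / 2) ≤ δ * ∑ i, ∫ x in x1..(M * N ^ 2), f i x ^ 2 := by gcongr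
      _ ≤ _ := by
        rw [Finset.mul_sum]
        exact Finset.sum_le_sum fun i _ => WW_lower hc hX (hf1.1 i)
  have h5 : min ε 1 ≤ ε := min_le_left _ _
  have h6 := mul_le_mul_of_nonneg_left h3 (by linarith : (0 : ℝ) ≤ 2 * a)
  have h7 : SS b (N ^ 3) = ∑ j ∈ Finset.range (N ^ 3), eigval b j := rfl
  have h8 : SS (fun x => b x + -a * VV c x1 (M * N ^ 2) x) (N ^ 3) =
    ∑ j ∈ Finset.range (N ^ 3), eigval (fun x => b x + -a * VV c x1 (M * N ^ 2) x) j := rfl
  rw [h7, h8]
  nlinarith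

end Pool.Agent.W854.DY
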